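import Pool.Agent.W_MP_a18a3c_h2.Greedy

/-!
The adversary: a non-adaptive list on which every algorithm is forced to put one job of every
phase on every machine.
-/

namespace MP_a18a3c_h2

variable {m : ℕ}

/-- The invariant: machine `i` holds at least `n i` units (`n i ≤ φ`), its load is at least
`S (n i)`, and the total number of units is the number of jobs. -/
def Inv (A : Alg m) (S : ℕ → ℝ) (h : List ℝ) (φ : ℕ) : Prop :=
  ∃ n : Fin m → ℕ, (∑ i, n i = h.length) ∧ (∀ i, n i ≤ φ) ∧ ∀ i, S (n i) ≤ load A h i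

lemma inv_nil (A : Alg m) (S : ℕ → ℝ) (h0 : S 0 ≤ 0) : Inv A S [] 0 :=
  ⟨fun _ => 0, by simp, by simp, by intro i; simpa using h0⟩

lemma inv_step {A : Alg m} {c c' : ℝ} (hA : IsCompetitive A c') (hc0 : 0 ≤ c') (hcc : c' < c)
    {S : ℕ → ℝ} {h : List ℝ} {φ φ' : ℕ} (hφ : φ ≤ φ') (hI : Inv A S h φ)
    {s M : ℝ} (hpos : ∀ p ∈ s :: h, 0 ≤ p)
    (hM : 0 < M) (hopt : opt m (s :: h) ≤ M)
    (hblock : c * M ≤ S φ' + s) (hmono : ∀ k < φ', S (k + 1) ≤ S k + s) :
    Inv A S (s :: h) φ' := by
  classical
  obtain ⟨n, hn1, hn2, hn3⟩ := hI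
  set i0 := A h s with hi0
  have hload : load A (s :: h) i0 = load A h i0 + s := by
    rw [load_cons]
    simp [hi0]
  have hle : load A (s :: h) i0 ≤ c' * M := by
    refine le_trans (load_le_makespan A _ i0) (le_trans (hA _ hpos) ?_)
    exact mul_le_mul_of_nonneg_left hopt hc0
  have hlt : c' * M < c * M := mul_lt_mul_of_pos_right hcc hM
  have hne : n i0 ≠ φ' := by
    intro heq
    have := hn3 i0
    rw [heq] at this
    linarith
  have hnlt : n i0 < φ' := lt_of_le_of_ne (le_trans (hn2 i0) hφ) hne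
  refine ⟨Function.update n i0 (n i0 + 1), ?_, ?_, ?_⟩
  · rw [← Finset.add_sum_erase Finset.univ _ (Finset.mem_univ i0), Function.update_self]
    have h1 : ∑ i ∈ Finset.univ.erase i0, Function.update n i0 (n i0 + 1) i
        = ∑ i ∈ Finset.univ.erase i0, n i := by
      apply Finset.sum_congr rfl
      intro i hi
      rw [Function.update_of_ne (Finset.ne_of_mem_erase hi)]
    rw [h1]
    have h2 := Finset.add_sum_erase Finset.univ n (Finset.mem_univ i0)
    rw [hn1] at h2
    rw [List.length_cons]
    omega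
  · intro i
    by_cases hi : i = i0
    · subst hi
      rw [Function.update_self]
      exact hnlt
    · rw [Function.update_of_ne hi]
      exact le_trans (hn2 i) hφ
  · intro i
    by_cases hi : i = i0
    · subst hi
      rw [Function.update_self, hload]
      have := hn3 i0
      have := hmono _ hnlt
      linarith
    · rw [Function.update_of_ne hi, load_cons]
      have : ¬ (A h s = i) := fun hh => hi (by rw [hi0]; exact hh.symm)
      rw [if_neg this]
      have := hn3 i
      linarith

lemma inv_final {A : Alg m} {S : ℕ → ℝ} {h : List ℝ} {r : ℕ} (hI : Inv A S h r)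
    (hlen : m * r < h.length) : False := by
  obtain ⟨n, hn1, hn2, -⟩ := hI
  have : ∑ i, n i ≤ ∑ _i : Fin m, r := Finset.sum_le_sum (fun i _ => hn2 i)
  simp at this
  rw [hn1] at this
  omega

end MP_a18a3c_h2
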