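import Pool.Agent.W_MP_a18a3c_h2.Defs

namespace MP_a18a3c_h2

variable {m : ℕ}

@[simp] lemma load_nil (A : Alg m) (i : Fin m) : load A [] i = 0 := rfl

lemma load_cons (A : Alg m) (p : ℝ) (h : List ℝ) (i : Fin m) :
    load A (p :: h) i = load A h i + if A h p = i then p else 0 := rfl

lemma offLoad_nil (f : Fin ([] : List ℝ).length → Fin m) (i : Fin m) : offLoad [] f i = 0 := by
  unfold offLoad
  exact Finset.sum_eq_zero (fun j _ => j.elim0)

lemma offLoad_cons (p : ℝ) (h : List ℝ) (f : Fin (p :: h).length → Fin m) (i : Fin m) :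
    offLoad (p :: h) f i
      = (if f 0 = i then p else 0) + offLoad h (fun j => f j.succ) i := by
  unfold offLoad
  exact Fin.sum_univ_succ (n := h.length) _

lemma offLoad_nonneg {h : List ℝ} (hh : ∀ p ∈ h, 0 ≤ p) (f : Fin h.length → Fin m) (i : Fin m) :
    0 ≤ offLoad h f i := by
  unfold offLoad
  apply Finset.sum_nonneg
  intro j _
  split_ifs
  · exact hh _ (List.get_mem h j)
  · exact le_rfl

lemma sum_offLoad (h : List ℝ) (f : Fin h.length → Fin m) : ∑ i, offLoad h f i = h.sum := by
  unfold offLoad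
  rw [Finset.sum_comm]
  have : ∀ j : Fin h.length, (∑ i : Fin m, if f j = i then h.get j else 0) = h.get j := by
    intro j
    simp
  simp only [this]
  simp only [List.get_eq_getElem]
  exact Fin.sum_univ_getElem h

lemma bdd_off (h : List ℝ) (f : Fin h.length → Fin m) :
    BddAbove (Set.range fun i : Fin m => offLoad h f i) := Set.Finite.bddAbove (Set.finite_range _)

lemma bdd_opt (h : List ℝ) :
    BddBelow (Set.range fun f : Fin h.length → Fin m => ⨆ i : Fin m, offLoad h f i) :=
  Set.Finite.bddBelow (Set.finite_range _)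

lemma bdd_load (A : Alg m) (h : List ℝ) : BddAbove (Set.range fun i : Fin m => load A h i) :=
  Set.Finite.bddAbove (Set.finite_range _)

lemma load_le_makespan (A : Alg m) (h : List ℝ) (i : Fin m) : load A h i ≤ makespan A h :=
  le_ciSup (bdd_load A h) i

lemma opt_le_of_assign (hm : 0 < m) {h : List ℝ} {M : ℝ} (f : Fin h.length → Fin m)
    (hf : ∀ i, offLoad h f i ≤ M) : opt m h ≤ M := by
  have : Nonempty (Fin m) := ⟨⟨0, hm⟩⟩
  unfold opt
  exact ciInf_le_of_le (bdd_opt h) f (ciSup_le hf)

lemma le_opt (hm : 0 < m) {h : List ℝ} {b : ℝ}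
    (H : ∀ f : Fin h.length → Fin m, ∃ i, b ≤ offLoad h f i) : b ≤ opt m h := by
  have : Nonempty (Fin m) := ⟨⟨0, hm⟩⟩
  unfold opt
  apply le_ciInf
  intro f
  obtain ⟨i, hi⟩ := H f
  exact le_ciSup_of_le (bdd_off h f) i hi

lemma sum_le_opt (hm : 0 < m) (h : List ℝ) : h.sum ≤ m * opt m h := by
  have : Nonempty (Fin m) := ⟨⟨0, hm⟩⟩
  have hm' : (0 : ℝ) < m := by exact_mod_cast hm
  have : h.sum / m ≤ opt m h := by
    apply le_opt hm
    intro f
    by_contra hcon
    push Not at hcon
    have h1 : ∑ i : Fin m, offLoad h f i < ∑ _i : Fin m, h.sum / m :=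
      Finset.sum_lt_sum_of_nonempty Finset.univ_nonempty (fun i _ => hcon i)
    rw [sum_offLoad] at h1
    simp only [Finset.sum_const, Finset.card_univ, Fintype.card_fin, nsmul_eq_mul] at h1
    rw [mul_div_cancel₀ _ hm'.ne'] at h1
    exact lt_irrefl _ h1
  rw [div_le_iff₀ hm'] at this
  linarith [mul_comm (opt m h) (m : ℝ)]

lemma head_le_opt (hm : 0 < m) {p : ℝ} {h : List ℝ} (hh : ∀ q ∈ h, 0 ≤ q) :
    p ≤ opt m (p :: h) := by
  apply le_opt hm
  intro f
  refine ⟨f 0, ?_⟩
  rw [offLoad_cons]
  simp only [if_true]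
  linarith [offLoad_nonneg hh (fun j => f j.succ) (f 0)]

lemma opt_le_opt_cons (hm : 0 < m) {p : ℝ} (hp : 0 ≤ p) (h : List ℝ) :
    opt m h ≤ opt m (p :: h) := by
  have : Nonempty (Fin m) := ⟨⟨0, hm⟩⟩
  have key : ∀ f : Fin (p :: h).length → Fin m,
      opt m h ≤ ⨆ i : Fin m, offLoad (p :: h) f i := by
    intro f
    apply opt_le_of_assign hm (fun j => f j.succ)
    intro i
    refine le_trans ?_ (le_ciSup (bdd_off (p :: h) f) i)
    rw [offLoad_cons]
    split_ifs <;> linarith
  unfold opt at key ⊢
  exact le_ciInf key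

/-- From bins (multisets of sizes) to an assignment. -/
lemma exists_assign (h : List ℝ) : ∀ (B : Fin m → Multiset ℝ),
    (h : Multiset ℝ) ≤ ∑ i, B i → (∀ i, ∀ p ∈ B i, 0 ≤ p) →
    ∃ f : Fin h.length → Fin m, ∀ i, offLoad h f i ≤ (B i).sum := by
  classical
  induction h with
  | nil =>
    intro B _ hpos
    refine ⟨fun j => j.elim0, fun i => ?_⟩
    rw [offLoad_nil]
    exact Multiset.sum_nonneg (hpos i)
  | cons p t ih =>
    intro B hB hpos
    have hp : p ∈ ∑ i, B i := Multiset.mem_of_le hB (by simp)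
    rw [Multiset.mem_sum] at hp
    obtain ⟨i0, -, hi0⟩ := hp
    have hsum : ∑ i, Function.update B i0 ((B i0).erase p) i + {p} = ∑ i, B i := by
      rw [← Finset.add_sum_erase Finset.univ _ (Finset.mem_univ i0),
        ← Finset.add_sum_erase Finset.univ B (Finset.mem_univ i0)]
      have h1 : ∑ i ∈ Finset.univ.erase i0, Function.update B i0 ((B i0).erase p) i
          = ∑ i ∈ Finset.univ.erase i0, B i := by
        apply Finset.sum_congr rfl
        intro i hi
        rw [Function.update_of_ne (Finset.ne_of_mem_erase hi)]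
      rw [h1, Function.update_self]
      have h2 : (B i0).erase p + {p} = B i0 := by
        rw [add_comm, Multiset.singleton_add]
        exact Multiset.cons_erase hi0
      calc (B i0).erase p + ∑ i ∈ Finset.univ.erase i0, B i + {p}
          = ((B i0).erase p + {p}) + ∑ i ∈ Finset.univ.erase i0, B i := by abel
        _ = _ := by rw [h2]
    have hle : (t : Multiset ℝ) ≤ ∑ i, Function.update B i0 ((B i0).erase p) i := by
      have h3 : (t : Multiset ℝ) + {p} ≤ ∑ i, Function.update B i0 ((B i0).erase p) i + {p} := by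
        rw [hsum]
        have : ((p :: t : List ℝ) : Multiset ℝ) = (t : Multiset ℝ) + {p} := by
          rw [← Multiset.cons_coe, add_comm, Multiset.singleton_add]
        rw [← this]
        exact hB
      exact le_of_add_le_add_right h3
    obtain ⟨f, hf⟩ := ih _ hle (by
      intro i q hq
      by_cases hi : i = i0
      · subst hi
        rw [Function.update_self] at hq
        exact hpos _ q (Multiset.mem_of_mem_erase hq)
      · rw [Function.update_of_ne hi] at hq
        exact hpos _ q hq)
    refine ⟨Fin.cons i0 f, fun i => ?_⟩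
    rw [offLoad_cons]
    have hf' := hf i
    have e1 : (fun j : Fin t.length => (Fin.cons i0 f : Fin (t.length + 1) → Fin m) j.succ) = f := by
      funext j
      simp
    change (if (Fin.cons i0 f : Fin (t.length + 1) → Fin m) 0 = i then p else 0)
        + offLoad t (fun j => (Fin.cons i0 f : Fin (t.length + 1) → Fin m) j.succ) i ≤ (B i).sum
    rw [e1, Fin.cons_zero]
    by_cases hi : i0 = i
    · subst hi
      rw [Function.update_self] at hf'
      have h4 : (B i0).sum = p + ((B i0).erase p).sum := by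
        rw [← Multiset.sum_cons, Multiset.cons_erase hi0]
      simp only [if_true]
      linarith
    · rw [Function.update_of_ne (Ne.symm hi)] at hf'
      simp only [hi, if_false]
      linarith

lemma sum_getD_eq {α : Type*} [AddCommMonoid α] (L : List α) : ∀ n : ℕ, L.length ≤ n →
    ∑ i : Fin n, L.getD (i : ℕ) 0 = L.sum := by
  induction L with
  | nil => intro n _; simp
  | cons a L ih =>
    intro n hn
    obtain ⟨k, rfl⟩ : ∃ k, n = k + 1 := ⟨n - 1, by simp at hn; omega⟩
    rw [Fin.sum_univ_succ]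
    simp only [Fin.val_zero, List.getD_cons_zero, Fin.val_succ, List.getD_cons_succ, List.sum_cons]
    rw [ih k (by simpa using hn)]

/-- Upper bound for `opt` from a list of bins. -/
lemma opt_le_of_bins (hm : 0 < m) {h : List ℝ} {M : ℝ} (hM : 0 ≤ M) (L : List (Multiset ℝ))
    (hL : L.length ≤ m) (hle : (h : Multiset ℝ) ≤ L.sum)
    (hpos : ∀ b ∈ L, ∀ p ∈ b, 0 ≤ p) (hsz : ∀ b ∈ L, b.sum ≤ M) : opt m h ≤ M := by
  have key : ∀ i : Fin m, L.getD (i : ℕ) 0 ∈ L ∨ L.getD (i : ℕ) 0 = 0 := by
    intro i
    by_cases hi : (i : ℕ) < L.length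
    · left
      rw [List.getD_eq_getElem _ _ hi]
      exact List.getElem_mem hi
    · right
      exact List.getD_eq_default _ _ (not_lt.mp hi)
  obtain ⟨f, hf⟩ := exists_assign h (fun i : Fin m => L.getD (i : ℕ) 0)
    (by rw [sum_getD_eq L m hL]; exact hle)
    (by
      intro i p hp
      rcases key i with h1 | h1
      · exact hpos _ h1 p hp
      · simp only [h1] at hp
        simp at hp)
  apply opt_le_of_assign hm f
  intro i
  refine le_trans (hf i) ?_
  rcases key i with h1 | h1
  · exact hsz _ h1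
  · simp only [h1]
    simpa using hM

end MP_a18a3c_h2
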