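import Pool.Agent.W_MP_a18a3c_h2.Adv

/-!
A boolean checker for lists of jobs with explicit packings, and its soundness.
-/

namespace MP_a18a3c_h2

/-- A (bin) pattern or a job list in compressed form: `(size, number of jobs of this size)`. -/
abbrev Pat : Type := List (ℕ × ℕ)

/-- A packing in compressed form: `(number of bins, pattern of these bins)`. -/
abbrev Pack : Type := List (ℕ × Pat)

def cnt : Pat → ℕ → ℕ
  | [], _ => 0
  | uc :: p, s => (bif Nat.beq uc.1 s then uc.2 else 0) + cnt p s

def cover : Pack → ℕ → ℕ
  | [], _ => 0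
  | np :: q, s => np.1 * cnt np.2 s + cover q s

def psize : Pat → ℕ
  | [] => 0
  | uc :: p => uc.2 * uc.1 + psize p

def bins : Pack → ℕ
  | [] => 0
  | np :: q => np.1 + bins q

def allFit (M : ℕ) : Pack → Bool
  | [] => true
  | np :: q => Nat.ble (psize np.2) M && allFit M q

def allCovered (J : Pat) (q : Pack) : Pat → Bool
  | [] => true
  | uc :: p => Nat.ble (cnt J uc.1) (cover q uc.1) && allCovered J q p

/-- The packing `q` uses at most `m` bins, of size at most `M`, and covers all jobs of `J`. -/
def checkOpt (m M : ℕ) (J : Pat) (q : Pack) : Bool :=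
  Nat.ble (bins q) m && (allFit M q && allCovered J q J)

/-- the multiset of jobs of a compressed list -/
def toMS : Pat → Multiset ℕ
  | [] => 0
  | uc :: p => Multiset.replicate uc.2 uc.1 + toMS p

/-- the list of bins of a compressed packing -/
def toBins : Pack → List (Multiset ℕ)
  | [] => []
  | np :: q => List.replicate np.1 (toMS np.2) ++ toBins q

lemma count_toMS (p : Pat) (s : ℕ) : (toMS p).count s = cnt p s := by
  induction p with
  | nil => simp [toMS, cnt]
  | cons uc p ih =>
    rw [toMS, cnt, Multiset.count_add, ih, Multiset.count_replicate]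
    congr 1
    by_cases h : uc.1 = s
    · simp [h]
    · have h' : Nat.beq uc.1 s = false := by
        rw [← Bool.not_eq_true, Nat.beq_eq]
        exact h
      simp [h, h']

lemma count_toBins (q : Pack) (s : ℕ) : ((toBins q).sum).count s = cover q s := by
  induction q with
  | nil => simp [toBins, cover]
  | cons np q ih =>
    rw [toBins, cover, List.sum_append, Multiset.count_add, ih, List.sum_replicate,
      Multiset.count_nsmul, count_toMS]

lemma length_toBins (q : Pack) : (toBins q).length = bins q := by
  induction q with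
  | nil => simp [toBins, bins]
  | cons np q ih => rw [toBins, bins, List.length_append, List.length_replicate, ih]

lemma sum_toMS (p : Pat) : (toMS p).sum = psize p := by
  induction p with
  | nil => simp [toMS, psize]
  | cons uc p ih => rw [toMS, psize, Multiset.sum_add, ih, Multiset.sum_replicate, smul_eq_mul]

lemma fit_toBins {M : ℕ} {q : Pack} (h : allFit M q = true) : ∀ b ∈ toBins q, b.sum ≤ M := by
  induction q with
  | nil => intro b hb; simp [toBins] at hb
  | cons np q ih =>
    rw [allFit, Bool.and_eq_true] at h
    intro b hb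
    rw [toBins, List.mem_append] at hb
    rcases hb with hb | hb
    · rw [List.eq_of_mem_replicate hb, sum_toMS]
      exact Nat.le_of_ble_eq_true h.1
    · exact ih h.2 b hb

lemma covered_of (J : Pat) (q : Pack) : ∀ p : Pat, allCovered J q p = true →
    ∀ uc ∈ p, cnt J uc.1 ≤ cover q uc.1 := by
  intro p
  induction p with
  | nil => intro _ uc h; simp at h
  | cons vc p ih =>
    intro h uc huc
    rw [allCovered, Bool.and_eq_true] at h
    rcases List.mem_cons.mp huc with h1 | h1
    · rw [h1]; exact Nat.le_of_ble_eq_true h.1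
    · exact ih h.2 uc h1

lemma cnt_eq_zero (p : Pat) (s : ℕ) (h : ∀ uc ∈ p, uc.1 ≠ s) : cnt p s = 0 := by
  induction p with
  | nil => rfl
  | cons vc p ih =>
    have h1 : Nat.beq vc.1 s = false := by
      rw [← Bool.not_eq_true, Nat.beq_eq]
      exact h vc (by simp)
    rw [cnt, h1, ih (fun uc huc => h uc (by simp [huc]))]
    rfl

lemma toMS_le (J : Pat) (q : Pack) (h : allCovered J q J = true) : toMS J ≤ (toBins q).sum := by
  rw [Multiset.le_iff_count]
  intro s
  rw [count_toMS, count_toBins]
  by_cases hs : ∃ uc ∈ J, uc.1 = s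
  · obtain ⟨uc, h1, rfl⟩ := hs
    exact covered_of J q J h uc h1
  · push Not at hs
    rw [cnt_eq_zero J s hs]
    exact Nat.zero_le _

/-- cast to the reals -/
noncomputable def castMS (s : Multiset ℕ) : Multiset ℝ := s.map (fun k : ℕ => (k : ℝ))

lemma castMS_add (s t : Multiset ℕ) : castMS (s + t) = castMS s + castMS t := Multiset.map_add _ _ _

lemma castMS_zero : castMS 0 = 0 := Multiset.map_zero _

lemma castMS_sum (s : Multiset ℕ) : (castMS s).sum = (s.sum : ℝ) := by
  unfold castMS
  induction s using Multiset.induction_on with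
  | empty => simp
  | cons a s ih => rw [Multiset.map_cons, Multiset.sum_cons, Multiset.sum_cons, ih, Nat.cast_add]

lemma castMS_list_sum (L : List (Multiset ℕ)) : castMS L.sum = (L.map castMS).sum := by
  induction L with
  | nil => simp [castMS_zero]
  | cons a L ih => rw [List.sum_cons, castMS_add, ih, List.map_cons, List.sum_cons]

lemma castMS_mono {s t : Multiset ℕ} (h : s ≤ t) : castMS s ≤ castMS t := Multiset.map_le_map h

lemma castMS_nonneg {s : Multiset ℕ} : ∀ p ∈ castMS s, 0 ≤ p := by
  intro p hp
  unfold castMS at hp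
  rw [Multiset.mem_map] at hp
  obtain ⟨k, -, rfl⟩ := hp
  exact Nat.cast_nonneg k

lemma castMS_nsmul (k : ℕ) (s : Multiset ℕ) : castMS (k • s) = k • castMS s := by
  induction k with
  | zero => simp [castMS_zero]
  | succ k ih => rw [add_smul, one_smul, castMS_add, ih, add_smul, one_smul]

/-- Soundness of `checkOpt`, also for the `k`-fold list on `k * m` machines. -/
lemma opt_le_of_check {m m' M k : ℕ} (hm' : 0 < m') (hk : k * m ≤ m') {J : Pat} {q : Pack}
    (hc : checkOpt m M J q = true) {h : List ℝ} (hh : (h : Multiset ℝ) ≤ castMS (k • toMS J)) :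
    opt m' h ≤ M := by
  unfold checkOpt at hc
  rw [Bool.and_eq_true, Bool.and_eq_true] at hc
  obtain ⟨h1, h2, h3⟩ := hc
  have hmem : ∀ b ∈ (List.replicate k (toBins q)).flatten, b ∈ toBins q := by
    intro b hb
    rw [List.mem_flatten] at hb
    obtain ⟨l, hl, hb⟩ := hb
    rwa [List.eq_of_mem_replicate hl] at hb
  apply opt_le_of_bins hm' (Nat.cast_nonneg M) (((List.replicate k (toBins q)).flatten).map castMS)
  · rw [List.length_map, List.length_flatten, List.map_replicate, List.sum_replicate,
      length_toBins, smul_eq_mul]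
    exact le_trans (Nat.mul_le_mul_left k (Nat.le_of_ble_eq_true h1)) hk
  · rw [← castMS_list_sum]
    refine le_trans hh (castMS_mono ?_)
    rw [List.sum_flatten, List.map_replicate, List.sum_replicate]
    exact nsmul_le_nsmul_right (toMS_le J q h3) k
  · intro b hb
    rw [List.mem_map] at hb
    obtain ⟨b', -, rfl⟩ := hb
    exact castMS_nonneg
  · intro b hb
    rw [List.mem_map] at hb
    obtain ⟨b', hb', rfl⟩ := hb
    rw [castMS_sum]
    exact_mod_cast fit_toBins h2 b' (hmem b' hb')

/-- One level of the list: `x` jobs of size `s`, given while the optimum is at most `M`, in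
phase `ph`; `q` is a packing of all jobs given up to the end of this level. -/
structure Lev where
  s : ℕ
  x : ℕ
  M : ℕ
  ph : ℕ
  q : Pack

/-- the jobs of a list of levels (most recent level first), compressed -/
def jobs : List Lev → Pat
  | [] => []
  | d :: D => (d.s, d.x) :: jobs D

/-- current phase -/
def phase : List Lev → ℕ
  | [] => 0
  | d :: _ => d.ph

def total : List Lev → ℕ
  | [] => 0
  | d :: D => d.x + total D

/-- partial sums -/
def psum (b : List ℕ) (k : ℕ) : ℕ := (b.take k).sum

def monoCheck (b : List ℕ) (s : ℕ) : ℕ → Bool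
  | 0 => true
  | k + 1 => Nat.ble (psum b (k + 1)) (psum b k + s) && monoCheck b s k

/-- the conditions on the last level `d`, `D` being the previous levels -/
def checkLev (m P Q : ℕ) (b : List ℕ) (d : Lev) (D : List Lev) : Bool :=
  (Nat.blt 0 d.M && Nat.ble (phase D) d.ph) &&
    ((Nat.ble (P * d.M) (Q * (psum b d.ph + d.s)) && monoCheck b d.s d.ph) &&
      checkOpt m d.M ((d.s, d.x) :: jobs D) d.q)

/-- all levels are fine -/
def Good (m P Q : ℕ) (b : List ℕ) : List Lev → Prop
  | [] => True
  | d :: D => checkLev m P Q b d D = true ∧ Good m P Q b D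

/-- the `k`-fold list of jobs (most recent first) -/
noncomputable def hist (k : ℕ) : List Lev → List ℝ
  | [] => []
  | d :: D => List.replicate (k * d.x) (d.s : ℝ) ++ hist k D

lemma length_hist (k : ℕ) (D : List Lev) : (hist k D).length = k * total D := by
  induction D with
  | nil => rfl
  | cons d D ih =>
    rw [hist, total, List.length_append, List.length_replicate, ih, Nat.mul_add]

lemma hist_nonneg (k : ℕ) (D : List Lev) : ∀ p ∈ hist k D, 0 ≤ p := by
  induction D with
  | nil => intro p hp; simp [hist] at hp
  | cons d D ih =>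
    intro p hp
    rw [hist, List.mem_append] at hp
    rcases hp with hp | hp
    · rw [List.eq_of_mem_replicate hp]
      exact Nat.cast_nonneg _
    · exact ih p hp

lemma hist_coe (k : ℕ) (D : List Lev) :
    ((hist k D : List ℝ) : Multiset ℝ) = castMS (k • toMS (jobs D)) := by
  induction D with
  | nil => simp [hist, jobs, toMS, castMS_zero]
  | cons d D ih =>
    rw [hist, jobs, toMS, smul_add, castMS_add, ← ih, ← Multiset.coe_add, Multiset.coe_replicate]
    congr 1
    rw [Multiset.nsmul_replicate]
    unfold castMS
    rw [Multiset.map_replicate]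

lemma mono_of_check (b : List ℕ) (s : ℕ) : ∀ K : ℕ, monoCheck b s K = true →
    ∀ k < K, psum b (k + 1) ≤ psum b k + s := by
  intro K
  induction K with
  | zero => intro _ k hk; omega
  | succ K ih =>
    intro h k hk
    rw [monoCheck, Bool.and_eq_true] at h
    rcases Nat.lt_succ_iff_lt_or_eq.mp hk with h1 | h1
    · exact ih h.2 k h1
    · rw [h1]; exact Nat.le_of_ble_eq_true h.1

lemma Inv.mono {m : ℕ} {A : Alg m} {S : ℕ → ℝ} {h : List ℝ} {φ φ' : ℕ} (hI : Inv A S h φ)
    (hφ : φ ≤ φ') : Inv A S h φ' := by
  obtain ⟨n, h1, h2, h3⟩ := hI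
  exact ⟨n, h1, fun i => le_trans (h2 i) hφ, h3⟩

lemma inv_of_good {m m' k P Q : ℕ} (hm' : 0 < m') (hk : k * m ≤ m') (hQ : 0 < Q)
    {b : List ℕ} {A : Alg m'} {c' : ℝ}
    (hA : IsCompetitive A c') (hlt : c' < (P : ℝ) / Q) (D : List Lev) (hD : Good m P Q b D) :
    Inv A (fun j => (psum b j : ℝ)) (hist k D) (phase D) := by
  have hc0 : 0 ≤ c' := le_trans zero_le_one (one_le_of_competitive hm' hA)
  have hQ' : (0 : ℝ) < Q := by exact_mod_cast hQ
  induction D with
  | nil => exact inv_nil A _ (by simp [psum])
  | cons d D ih =>
    obtain ⟨hc, hD'⟩ := hD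
    have ih' := ih hD'
    unfold checkLev at hc
    simp only [Bool.and_eq_true] at hc
    obtain ⟨⟨hM, hph⟩, ⟨hblock, hmono⟩, hopt⟩ := hc
    have hM : 0 < d.M := Nat.le_of_ble_eq_true hM
    have hph : phase D ≤ d.ph := Nat.le_of_ble_eq_true hph
    have hblock : P * d.M ≤ Q * (psum b d.ph + d.s) := Nat.le_of_ble_eq_true hblock
    have hM' : (0 : ℝ) < d.M := by exact_mod_cast hM
    have hbl : (P : ℝ) / Q * d.M ≤ (psum b d.ph : ℝ) + d.s := by
      rw [div_mul_eq_mul_div, div_le_iff₀ hQ']
      have : ((P * d.M : ℕ) : ℝ) ≤ ((Q * (psum b d.ph + d.s) : ℕ) : ℝ) := by exact_mod_cast hblock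
      push_cast at this
      linarith
    have hmo := mono_of_check b d.s d.ph hmono
    have key : ∀ j ≤ k * d.x, Inv A (fun j => (psum b j : ℝ))
        (List.replicate j (d.s : ℝ) ++ hist k D) d.ph := by
      intro j
      induction j with
      | zero => intro _; simpa using ih'.mono hph
      | succ j ihj =>
        intro hj
        have hI := ihj (by omega)
        rw [List.replicate_succ, List.cons_append]
        refine inv_step hA hc0 hlt le_rfl hI ?_ hM' ?_ hbl ?_
        · intro p hp
          rcases List.mem_cons.mp hp with h1 | h1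
          · rw [h1]; exact Nat.cast_nonneg _
          · rcases List.mem_append.mp h1 with h2 | h2
            · rw [List.eq_of_mem_replicate h2]; exact Nat.cast_nonneg _
            · exact hist_nonneg k D p h2
        · refine opt_le_of_check hm' hk hopt ?_
          have e1 : (((d.s : ℝ) :: (List.replicate j (d.s : ℝ) ++ hist k D) : List ℝ) :
              Multiset ℝ)
              = Multiset.replicate (j + 1) (d.s : ℝ) + castMS (k • toMS (jobs D)) := by
            rw [← List.cons_append, ← List.replicate_succ, ← Multiset.coe_add, hist_coe,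
              Multiset.coe_replicate]
          rw [e1, toMS, smul_add, castMS_add, Multiset.nsmul_replicate]
          refine add_le_add_left ?_ _
          unfold castMS
          rw [Multiset.map_replicate]
          exact (Multiset.replicate_le_replicate _).mpr hj
        · intro i hi
          have := hmo i hi
          exact_mod_cast this
    exact key (k * d.x) le_rfl

/-- Soundness of the checker. -/
theorem le_cRatio_of_good {m m' k P Q r : ℕ} (hm' : 0 < m') (hk : k * m ≤ m') (hQ : 0 < Q)
    {b : List ℕ} (D : List Lev) (hD : Good m P Q b D) (hr : phase D ≤ r)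
    (hlen : m' * r < k * total D) : (P : ℝ) / Q ≤ cRatio m' := by
  apply le_cRatio hm'
  intro A c' hA
  by_contra hcon
  push Not at hcon
  have h1 := (inv_of_good hm' hk hQ hA hcon D hD).mono hr
  exact inv_final h1 (by rw [length_hist]; exact hlen)

end MP_a18a3c_h2
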