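import Pool.Agent.W_MP_a18a3c_h2.Check

/-! Numerical data (machine generated): the levels of the list of jobs with their packings. -/

namespace MP_a18a3c_h2

/-- number of machines -/
abbrev mm : ℕ := 1000000000

/-- minimal sizes of the phases -/
abbrev bb : List ℕ := [1,7,41,169,537,981]

abbrev PP : ℕ := 18848
abbrev QQ : ℕ := 10000

set_option maxRecDepth 100000

def d0 : Lev := ⟨1, 999999000, 1, 1, [(999999000,[(1,1)])]⟩
def D0 : List Lev := d0 :: []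
theorem c0 : checkLev mm PP QQ bb d0 [] = true := by decide +kernel
theorem g0 : Good mm PP QQ bb D0 := ⟨c0, trivial⟩

def d1 : Lev := ⟨7, 857141999, 7, 2, [(142857000,[(1,7)]),(857142000,[(7,1)])]⟩
def D1 : List Lev := d1 :: D0
theorem c1 : checkLev mm PP QQ bb d1 D0 = true := by decide +kernel
theorem g1 : Good mm PP QQ bb D1 := ⟨c1, g0⟩

def d2 : Lev := ⟨8, 124999875, 8, 2, [(17857126,[(1,8)]),(857142000,[(7,1),(1,1)]),(124999875,[(8,1)])]⟩
def D2 : List Lev := d2 :: D1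
theorem c2 : checkLev mm PP QQ bb d2 D1 = true := by decide +kernel
theorem g2 : Good mm PP QQ bb D2 := ⟨c2, g1⟩

def d3 : Lev := ⟨9, 17857124, 9, 2, [(714285001,[(7,1),(1,1)]),(142857000,[(7,1),(1,2)]),(124999875,[(8,1)]),(17857125,[(9,1)])]⟩
def D3 : List Lev := d3 :: D2
theorem c3 : checkLev mm PP QQ bb d3 D2 = true := by decide +kernel
theorem g3 : Good mm PP QQ bb D3 := ⟨c3, g2⟩

def d4 : Lev := ⟨41, 833332500, 47, 3, [(132737963,[(7,6)]),(166666501,[(41,1),(1,6)]),(24999976,[(8,5),(7,1)]),(8928563,[(9,2),(7,4)]),(666666000,[(41,1)])]⟩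
def D4 : List Lev := d4 :: D3
theorem c4 : checkLev mm PP QQ bb d4 D3 = true := by decide +kernel
theorem g4 : Good mm PP QQ bb D4 := ⟨c4, g3⟩

def d5 : Lev := ⟨42, 135062223, 48, 3, [(3968250,[(7,6),(1,6)]),(3231290,[(1,48)]),(20833313,[(8,6)]),(3571426,[(9,5),(1,3)]),(833332500,[(41,1),(7,1)]),(135062224,[(42,1),(1,6)])]⟩
def D5 : List Lev := d5 :: D4
theorem c5 : checkLev mm PP QQ bb d5 D4 = true := by decide +kernel
theorem g5 : Good mm PP QQ bb D5 := ⟨c5, g4⟩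

def d6 : Lev := ⟨44, 22727249, 49, 3, [(5305602,[(7,7)]),(23392061,[(41,1),(1,8)]),(124999875,[(41,1),(8,1)]),(3571426,[(9,5),(1,4)]),(684940565,[(41,1),(7,1),(1,1)]),(135062224,[(42,1),(7,1)]),(22727250,[(44,1),(1,5)])]⟩
def D6 : List Lev := d6 :: D5
theorem c6 : checkLev mm PP QQ bb d6 D5 = true := by decide +kernel
theorem g6 : Good mm PP QQ bb D6 := ⟨c6, g5⟩

def d7 : Lev := ⟨46, 4362130, 50, 3, [(4514897,[(7,7),(1,1)]),(48923958,[(41,1),(7,1),(1,2)]),(124999875,[(41,1),(8,1),(1,1)]),(17857126,[(41,1),(9,1)]),(641551543,[(41,1),(7,1),(1,1)]),(135062224,[(42,1),(7,1)]),(22727250,[(44,1),(1,5)]),(4362131,[(46,1),(1,4)])]⟩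
def D7 : List Lev := d7 :: D6
theorem c7 : checkLev mm PP QQ bb d7 D6 = true := by decide +kernel
theorem g7 : Good mm PP QQ bb D7 := ⟨c7, g6⟩

def d8 : Lev := ⟨48, 3246749, 51, 3, [(1268147,[(7,7),(1,1)]),(165806958,[(41,1),(7,1),(1,2)]),(124999875,[(41,1),(8,1),(1,1)]),(17857126,[(41,1),(9,1)]),(524668543,[(41,1),(7,1),(1,1)]),(135062224,[(42,1),(7,1)]),(22727250,[(44,1),(7,1)]),(4362131,[(46,1),(1,4)]),(3246750,[(48,1)])]⟩
def D8 : List Lev := d8 :: D7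
theorem c8 : checkLev mm PP QQ bb d8 D7 = true := by decide +kernel
theorem g8 : Good mm PP QQ bb D8 := ⟨c8, g7⟩

def d9 : Lev := ⟨55, 1268146, 55, 3, [(8877027,[(41,1),(7,2)]),(175952132,[(41,1),(7,1),(1,2)]),(124999875,[(41,1),(8,1),(1,1)]),(17857126,[(41,1),(9,1)]),(505646342,[(41,1),(7,1),(1,1)]),(135062224,[(42,1),(7,1)]),(22727250,[(44,1),(7,1)]),(4362131,[(46,1),(1,4)]),(3246750,[(48,1)]),(1268147,[(55,1)])]⟩
def D9 : List Lev := d9 :: D8
theorem c9 : checkLev mm PP QQ bb d9 D8 = true := by decide +kernel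
theorem g9 : Good mm PP QQ bb D9 := ⟨c9, g8⟩

def d10 : Lev := ⟨169, 791665875, 205, 4, [(155903921,[(169,1),(7,5),(1,1)]),(17924040,[(42,4),(1,37)]),(3716094,[(169,1),(9,4)]),(15524480,[(42,4),(7,5),(1,2)]),(166666500,[(41,5)]),(26988610,[(169,1),(8,4),(1,4)]),(5681813,[(44,4),(8,3),(1,5)]),(1090533,[(46,4),(9,2),(1,3)]),(811688,[(48,4),(9,1),(1,4)]),(634074,[(55,2),(42,2),(1,11)]),(605057253,[(169,1)])]⟩
def D10 : List Lev := d10 :: D9
theorem c10 : checkLev mm PP QQ bb d10 D9 = true := by decide +kernel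
theorem g10 : Good mm PP QQ bb D10 := ⟨c10, g9⟩

def d11 : Lev := ⟨171, 6753111, 206, 4, [(171428401,[(169,1),(7,5),(1,1)]),(18549266,[(169,1),(1,37)]),(3716094,[(169,1),(9,4)]),(135062224,[(42,1),(41,4)]),(58616722,[(41,5)]),(27226387,[(169,1),(8,4),(1,4)]),(5364776,[(44,4),(8,3),(1,5)]),(1090533,[(46,4),(9,2),(1,3)]),(811688,[(48,4),(9,1),(1,4)]),(634074,[(55,2),(44,2)]),(570745730,[(169,1)]),(6753112,[(171,1)])]⟩
def D11 : List Lev := d11 :: D10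
theorem c11 : checkLev mm PP QQ bb d11 D10 = true := by decide +kernel
theorem g11 : Good mm PP QQ bb D11 := ⟨c11, g10⟩

def d12 : Lev := ⟨178, 143973449, 210, 4, [(12451894,[(7,30)]),(2428665,[(1,210)]),(3658921,[(178,1),(9,2),(7,2)]),(10416657,[(44,1),(41,4),(1,2)]),(791665876,[(169,1),(41,1)]),(31249969,[(178,1),(8,4)]),(2971970,[(44,4),(9,3),(7,1)]),(1090533,[(46,4),(7,3),(1,5)]),(811688,[(48,4),(9,2)]),(422716,[(55,3),(44,1),(1,1)]),(27012445,[(42,5)]),(6753112,[(171,1),(7,5),(1,4)]),(109064561,[(178,1),(7,4),(1,4)])]⟩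
def D12 : List Lev := d12 :: D11
theorem c12 : checkLev mm PP QQ bb d12 D11 = true := by decide +kernel
theorem g12 : Good mm PP QQ bb D12 := ⟨c12, g11⟩

def d13 : Lev := ⟨180, 3156749, 211, 4, [(38915319,[(169,1),(7,6)]),(3156750,[(180,1),(8,3),(7,1)]),(15228396,[(41,5),(1,6)]),(11363625,[(44,2),(41,3)]),(284953505,[(169,1),(41,1)]),(21320213,[(41,4),(8,5),(7,1)]),(332734829,[(169,1),(41,1),(1,1)]),(2857165,[(46,1),(41,4)]),(1082250,[(48,3),(46,1),(7,3)]),(422716,[(55,3),(46,1)]),(135062224,[(169,1),(42,1)]),(6753112,[(171,1),(9,2),(8,1),(7,2)]),(143973450,[(178,1),(7,4),(1,4)]),(2175452,[(41,4),(9,2),(8,1),(7,3)])]⟩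
def D13 : List Lev := d13 :: D12
theorem c13 : checkLev mm PP QQ bb d13 D12 = true := by decide +kernel
theorem g13 : Good mm PP QQ bb D13 := ⟨c13, g12⟩

def d14 : Lev := ⟨182, 1724729, 212, 4, [(60320806,[(169,1),(7,6)]),(3156750,[(180,1),(8,3),(7,1)]),(37024178,[(41,5),(7,1)]),(10729552,[(44,2),(41,3)]),(38790894,[(169,1),(41,1)]),(24418126,[(178,1),(8,4)]),(557491953,[(169,1),(41,1),(1,1)]),(1090533,[(46,4),(7,4)]),(3246750,[(48,1),(41,4)]),(634074,[(55,2),(44,2),(7,2)]),(135062224,[(169,1),(42,1)]),(6753112,[(171,1),(41,1)]),(110626762,[(178,1),(7,4),(1,4)]),(8928563,[(178,1),(9,2),(8,2)]),(1724730,[(182,1),(7,4)])]⟩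
def D14 : List Lev := d14 :: D13
theorem c14 : checkLev mm PP QQ bb d14 D13 = true := by decide +kernel
theorem g14 : Good mm PP QQ bb D14 := ⟨c14, g13⟩

def d15 : Lev := ⟨184, 5622371, 213, 4, [(5622372,[(184,1),(8,1),(7,3)]),(3156750,[(180,1),(9,1),(8,3)]),(1090533,[(46,4),(8,1),(7,3)]),(22727250,[(169,1),(44,1)]),(143973450,[(178,1),(7,5)]),(27613022,[(169,1),(8,2),(7,4)]),(538305884,[(169,1),(41,1),(1,1)]),(44883457,[(41,5),(8,1)]),(706009,[(48,4),(7,3)]),(422716,[(55,3),(48,1)]),(135062224,[(169,1),(42,1),(1,2)]),(6753112,[(171,1),(41,1)]),(63856224,[(169,1),(41,1),(1,3)]),(3533035,[(169,1),(9,4),(8,1)]),(1724730,[(182,1),(8,3),(7,1)]),(568240,[(169,1),(9,1),(7,5)])]⟩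
def D15 : List Lev := d15 :: D14
theorem c15 : checkLev mm PP QQ bb d15 D14 = true := by decide +kernel
theorem g15 : Good mm PP QQ bb D15 := ⟨c15, g14⟩

def d16 : Lev := ⟨192, 6702167, 217, 4, [(5622372,[(184,1),(8,1),(7,3)]),(3156750,[(180,1),(9,1),(8,3)]),(2181066,[(46,2),(41,3)]),(22727250,[(169,1),(44,1)]),(126915365,[(178,1),(7,5)]),(16734076,[(178,1),(8,4)]),(285100453,[(169,1),(41,1),(1,1)]),(37796766,[(41,5),(8,1)]),(3246750,[(169,1),(48,1)]),(422716,[(55,3),(41,1)]),(135062224,[(169,1),(42,1),(1,2)]),(6753112,[(171,1),(41,1)]),(148258034,[(169,1),(41,1),(1,3)]),(324011,[(178,1),(9,4)]),(1724730,[(182,1),(8,3),(7,1)]),(197271166,[(169,1),(41,1),(7,1)]),(6702168,[(192,1),(9,2),(7,1)])]⟩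
def D16 : List Lev := d16 :: D15
theorem c16 : checkLev mm PP QQ bb d16 D15 = true := by decide +kernel
theorem g16 : Good mm PP QQ bb D16 := ⟨c16, g15⟩

def d17 : Lev := ⟨195, 27548141, 219, 4, [(5622372,[(184,1),(7,5)]),(3156750,[(180,1),(7,5),(1,4)]),(4362131,[(46,1),(44,3),(41,1)]),(2410215,[(44,4),(41,1)]),(6702168,[(192,1),(7,3),(1,6)]),(4811914,[(41,5),(7,2)]),(143973450,[(178,1),(41,1)]),(135062224,[(169,1),(42,1),(7,1),(1,1)]),(3246750,[(171,1),(48,1)]),(1268147,[(55,1),(41,4)]),(118344416,[(169,1),(41,1),(8,1),(1,1)]),(3506362,[(171,1),(41,1),(7,1)]),(303829240,[(169,1),(41,1),(7,1),(1,2)]),(6655460,[(169,1),(8,1),(7,6)]),(1724730,[(182,1),(7,5),(1,2)]),(209917413,[(169,1),(41,1),(7,1)]),(17857125,[(169,1),(41,1),(9,1)]),(27548142,[(195,1),(7,3),(1,3)])]⟩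
def D17 : List Lev := d17 :: D16
theorem c17 : checkLev mm PP QQ bb d17 D16 = true := by decide +kernel
theorem g17 : Good mm PP QQ bb D17 := ⟨c17, g16⟩

def d18 : Lev := ⟨203, 1755882, 223, 4, [(5622372,[(184,1),(7,5)]),(3156750,[(180,1),(41,1)]),(4362131,[(169,1),(46,1),(7,1)]),(11630728,[(169,1),(44,1),(7,1)]),(6702168,[(192,1),(7,4)]),(9591557,[(44,1),(41,4),(7,2)]),(143973450,[(178,1),(41,1)]),(135062224,[(169,1),(42,1),(7,1),(1,1)]),(1082250,[(48,3),(44,1),(7,5)]),(422716,[(55,3),(44,1),(7,2)]),(123747315,[(169,1),(41,1),(8,1),(1,1)]),(6753112,[(171,1),(41,1),(7,1)]),(370594732,[(169,1),(41,1),(7,1),(1,2)]),(1252561,[(169,1),(8,1),(7,6)]),(1724730,[(182,1),(41,1)]),(127159063,[(169,1),(41,1),(7,1)]),(17857125,[(169,1),(41,1),(9,1)]),(27548142,[(195,1),(7,4)]),(1755883,[(203,1),(7,2)])]⟩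
def D18 : List Lev := d18 :: D17
theorem c18 : checkLev mm PP QQ bb d18 D17 = true := by decide +kernel
theorem g18 : Good mm PP QQ bb D18 := ⟨c18, g17⟩

def d19 : Lev := ⟨207, 1675979, 225, 4, [(5622372,[(184,1),(41,1)]),(3156750,[(180,1),(41,1)]),(4362131,[(169,1),(46,1),(7,1)]),(13306708,[(169,1),(44,1),(7,1)]),(6702168,[(192,1),(7,4)]),(9420543,[(44,1),(41,4),(7,2)]),(143973450,[(178,1),(41,1)]),(135062224,[(169,1),(42,1),(7,1),(1,1)]),(3246750,[(169,1),(48,1),(7,1)]),(1268147,[(169,1),(55,1)]),(124999875,[(169,1),(41,1),(8,1),(1,1)]),(6753112,[(171,1),(41,1),(7,1)]),(369968451,[(169,1),(41,1),(7,1),(1,2)]),(40142118,[(169,1),(41,1),(7,2)]),(1724730,[(182,1),(41,1)]),(81452350,[(169,1),(41,1),(7,1)]),(17857125,[(169,1),(41,1),(9,1)]),(27548142,[(195,1),(7,4)]),(1755883,[(203,1),(7,2)]),(1675980,[(207,1),(7,2)])]⟩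
def D19 : List Lev := d19 :: D18
theorem c19 : checkLev mm PP QQ bb d19 D18 = true := by decide +kernel
theorem g19 : Good mm PP QQ bb D19 := ⟨c19, g18⟩

def d20 : Lev := ⟨222, 1340433, 233, 4, [(5622372,[(184,1),(41,1)]),(3156750,[(180,1),(41,1)]),(4362131,[(169,1),(46,1),(7,1)]),(14647141,[(169,1),(44,1),(7,1)]),(6702168,[(192,1),(41,1)]),(8080110,[(44,1),(41,4),(7,2)]),(143973450,[(178,1),(41,1)]),(135062224,[(169,1),(42,1),(7,1),(1,1)]),(3246750,[(169,1),(48,1),(7,1)]),(1268147,[(169,1),(55,1)]),(124999875,[(169,1),(41,1),(8,1),(1,1)]),(6753112,[(171,1),(41,1),(7,1)]),(369968451,[(169,1),(41,1),(7,1),(1,2)]),(69631654,[(169,1),(41,1),(7,2)]),(1724730,[(182,1),(41,1)]),(50622380,[(169,1),(41,1),(7,1)]),(17857125,[(169,1),(41,1),(9,1)]),(27548142,[(195,1),(7,4)]),(1755883,[(203,1),(7,2)]),(1675980,[(207,1),(7,2)]),(1340434,[(222,1)])]⟩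
def D20 : List Lev := d20 :: D19
theorem c20 : checkLev mm PP QQ bb d20 D19 = true := by decide +kernel
theorem g20 : Good mm PP QQ bb D20 := ⟨c20, g19⟩

def d21 : Lev := ⟨227, 5509628, 236, 4, [(5622372,[(184,1),(41,1)]),(3156750,[(180,1),(41,1)]),(4362131,[(169,1),(46,1),(7,1)]),(22727250,[(169,1),(44,1),(7,1)]),(6702168,[(192,1),(41,1)]),(2570481,[(42,5),(1,26)]),(143973450,[(178,1),(41,1)]),(122209819,[(169,1),(42,1),(7,1),(1,1)]),(3246750,[(169,1),(48,1),(7,1)]),(1268147,[(169,1),(55,1)]),(124999875,[(169,1),(41,1),(8,1),(1,1)]),(6753112,[(171,1),(41,1),(7,1)]),(292537337,[(169,1),(41,1),(7,1),(1,2)]),(202457444,[(169,1),(41,1),(7,2)]),(1724730,[(182,1),(41,1)]),(27548142,[(195,1),(41,1)]),(17857125,[(169,1),(41,1),(9,1)]),(1480621,[(207,1),(1,29)]),(1755883,[(203,1),(1,33)]),(195359,[(207,1),(7,2)]),(1340434,[(222,1)]),(5509629,[(227,1)])]⟩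
def D21 : List Lev := d21 :: D20
theorem c21 : checkLev mm PP QQ bb d21 D20 = true := by decide +kernel
theorem g21 : Good mm PP QQ bb D21 := ⟨c21, g20⟩

def d22 : Lev := ⟨246, 414374, 246, 4, [(5622372,[(184,1),(41,1)]),(3156750,[(180,1),(41,1)]),(4362131,[(169,1),(46,1),(7,1)]),(2229603,[(169,1),(42,1),(1,35)]),(22727250,[(169,1),(44,1),(7,1)]),(6702168,[(192,1),(41,1)]),(14040,[(1,246)]),(143973450,[(178,1),(41,1)]),(132832621,[(169,1),(42,1),(7,1),(1,1)]),(3246750,[(169,1),(48,1),(7,1)]),(1268147,[(169,1),(55,1)]),(124999875,[(169,1),(41,1),(8,1),(1,1)]),(6753112,[(171,1),(41,1),(7,1)]),(277064612,[(169,1),(41,1),(7,1),(1,2)]),(205077764,[(169,1),(41,1),(7,2)]),(1724730,[(182,1),(41,1)]),(27548142,[(195,1),(41,1)]),(17857125,[(169,1),(41,1),(9,1)]),(1675980,[(207,1),(1,29)]),(1755883,[(203,1),(1,33)]),(2142068,[(41,6)]),(1340434,[(222,1)]),(5509629,[(227,1)]),(414375,[(246,1)])]⟩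
def D22 : List Lev := d22 :: D21
theorem c22 : checkLev mm PP QQ bb d22 D21 = true := by decide +kernel
theorem g22 : Good mm PP QQ bb D22 := ⟨c22, g21⟩

def d23 : Lev := ⟨537, 745917405, 685, 5, [(207188,[(246,2),(180,1)]),(241704021,[(537,1),(41,3),(7,3),(1,4)]),(1454044,[(537,1),(46,3),(9,1),(1,1)]),(143973450,[(178,1),(169,3)]),(12924957,[(537,1),(42,2),(8,8)]),(32750938,[(537,1),(42,3),(7,3)]),(1679280,[(184,3),(7,19)]),(29283237,[(537,1),(41,3)]),(1082250,[(537,1),(48,3),(1,4)]),(1268147,[(537,1),(55,1),(42,2),(9,1)]),(7280013,[(537,1),(44,2),(42,1),(9,2)]),(1688278,[(171,4),(1,1)]),(89936382,[(169,4)]),(194845,[(184,3),(42,3),(7,1)]),(574910,[(182,3),(41,3),(9,1)]),(9182714,[(195,3),(41,2),(8,2),(1,2)]),(1789225,[(192,3),(44,2)]),(558660,[(207,3),(42,1),(7,3)]),(1334494,[(192,1),(180,2),(44,3)]),(93525,[(180,3),(41,3)]),(446812,[(222,3),(8,2)]),(1836543,[(227,3),(1,4)]),(585295,[(203,3),(44,1),(8,4)]),(418169804,[(537,1)])]⟩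
def D23 : List Lev := d23 :: D22
theorem c23 : checkLev mm PP QQ bb d23 D22 = true := by decide +kernel
theorem g23 : Good mm PP QQ bb D23 := ⟨c23, g22⟩

def d24 : Lev := ⟨563, 1433834, 699, 5, [(207188,[(246,2),(195,1)]),(241738552,[(537,1),(41,3),(7,3),(1,4)]),(1454044,[(537,1),(46,3),(9,1),(1,1)]),(143973450,[(178,1),(169,3)]),(12942222,[(537,1),(42,2),(8,8)]),(33472527,[(537,1),(42,3),(7,3)]),(800847,[(537,1),(7,23)]),(29963182,[(537,1),(41,3)]),(1082250,[(537,1),(48,3),(1,4)]),(5622372,[(184,1),(169,3)]),(8201541,[(537,1),(44,2),(42,1),(9,2)]),(1688278,[(171,4),(1,1)]),(78610243,[(169,4)]),(1490243,[(537,1),(44,3)]),(1724730,[(182,1),(169,3)]),(9113652,[(195,3),(41,2),(8,2),(1,2)]),(6702168,[(192,1),(169,3)]),(558660,[(207,3),(42,1),(7,3)]),(1268147,[(537,1),(55,1),(44,1),(7,9)]),(1578375,[(180,2),(169,2)]),(446812,[(222,3),(8,2)]),(1836543,[(227,3),(1,4)]),(585295,[(203,3),(44,1),(8,4)]),(413503855,[(537,1)]),(1433835,[(563,1)])]⟩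
def D24 : List Lev := d24 :: D23
theorem c24 : checkLev mm PP QQ bb d24 D23 = true := by decide +kernel
theorem g24 : Good mm PP QQ bb D24 := ⟨c24, g23⟩

def d25 : Lev := ⟨569, 2295678, 702, 5, [(207188,[(246,2),(203,1)]),(246295377,[(537,1),(41,3),(7,3),(1,4)]),(1454044,[(537,1),(46,3),(9,1),(1,1)]),(143973450,[(178,1),(169,3)]),(15255166,[(537,1),(42,2),(8,8)]),(31930564,[(537,1),(42,3),(7,3)]),(407604,[(537,1),(7,23)]),(31482124,[(537,1),(41,3)]),(1082250,[(537,1),(48,3),(1,4)]),(5622372,[(184,1),(169,3)]),(8201541,[(537,1),(44,2),(42,1),(9,2)]),(1688278,[(171,4),(1,1)]),(57949137,[(169,4)]),(1513264,[(537,1),(44,3)]),(1724730,[(182,1),(169,3)]),(27548142,[(195,1),(169,3)]),(6702168,[(192,1),(169,3)]),(558660,[(207,3),(42,1),(7,3)]),(1268147,[(537,1),(55,1),(44,1),(7,9)]),(1578375,[(180,2),(169,2)]),(446812,[(222,3),(8,2)]),(1836543,[(227,3),(1,4)]),(516232,[(203,3),(44,1),(8,4)]),(407027329,[(537,1)]),(1433835,[(563,1)]),(2295679,[(569,1)])]⟩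
def D25 : List Lev := d25 :: D24
theorem c25 : checkLev mm PP QQ bb d25 D24 = true := by decide +kernel
theorem g25 : Good mm PP QQ bb D25 := ⟨c25, g24⟩

def d26 : Lev := ⟨576, 143054621, 706, 5, [(207188,[(246,2),(180,1),(9,3),(7,1)]),(538461,[(195,3),(41,2),(9,4),(1,3)]),(4362131,[(46,1),(41,16),(1,4)]),(558660,[(207,3),(55,1),(9,3),(1,3)]),(123038,[(8,88),(1,2)]),(14463937,[(42,9),(41,8)]),(4060424,[(41,17),(9,1)]),(7494434,[(195,3),(41,2),(8,4),(1,7)]),(3246750,[(48,1),(41,16),(1,2)]),(1688278,[(171,4),(9,2),(1,4)]),(44962728,[(576,1),(7,18),(1,4)]),(11437118,[(169,4),(7,4),(1,2)]),(745917406,[(537,1),(169,1)]),(1420454,[(44,16),(1,2)]),(1724730,[(195,2),(182,1),(41,3),(8,1),(1,3)]),(1874124,[(184,3),(41,2),(8,9)]),(149043,[(192,3),(41,3),(1,7)]),(2085013,[(192,3),(41,2),(8,6)]),(20699,[(55,6),(41,9),(7,1)]),(983188,[(180,3),(41,4),(1,2)]),(446812,[(222,3),(8,5)]),(1836543,[(227,3),(9,2),(7,1)]),(585295,[(203,3),(55,1),(42,1)]),(47991150,[(178,3),(41,4),(8,1)]),(1433835,[(563,1),(42,3),(8,2),(1,1)]),(2295679,[(569,1),(41,3),(9,1),(1,5)]),(98091894,[(576,1),(41,3),(1,7)])]⟩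
def D26 : List Lev := d26 :: D25
theorem c26 : checkLev mm PP QQ bb d26 D25 = true := by decide +kernel
theorem g26 : Good mm PP QQ bb D26 := ⟨c26, g25⟩

def d27 : Lev := ⟨578, 1730102, 707, 5, [(17535,[(207,3),(44,1),(41,1),(1,1)]),(70787,[(9,78),(1,5)]),(47991150,[(178,3),(169,1),(1,4)]),(1623375,[(207,1),(195,2),(48,2),(7,2)]),(1836543,[(227,3),(7,3),(1,5)]),(4362131,[(576,1),(46,1),(44,1),(41,1)]),(2234056,[(192,3),(41,3),(7,1),(1,1)]),(2295679,[(569,1),(41,3),(7,2),(1,1)]),(743623038,[(537,1),(169,1),(1,1)]),(446812,[(222,3),(41,1)]),(32096451,[(41,16),(8,2),(7,5)]),(422716,[(537,1),(55,3),(1,5)]),(135062224,[(576,1),(42,1),(41,2),(7,1)]),(1,[(537,1),(169,1)]),(3630268,[(576,1),(44,2),(41,1),(1,2)]),(574910,[(182,3),(41,3),(8,3),(7,2)]),(1730103,[(578,1),(7,18),(1,3)]),(1688278,[(171,4),(9,2),(1,5)]),(207188,[(246,2),(195,1),(7,2),(1,6)]),(7826,[(1,707)]),(1052250,[(180,3),(41,4),(1,3)]),(5008052,[(7,101)]),(8031402,[(195,3),(41,2),(8,5)]),(585295,[(203,3),(44,2),(8,1),(1,2)]),(1871653,[(537,1),(44,3),(9,4),(1,2)]),(1433835,[(563,1),(44,3),(9,1),(1,3)]),(1874124,[(184,3),(41,3),(7,4),(1,4)]),(208409,[(8,88),(1,3)]),(12922,[(169,4),(9,3),(1,4)])]⟩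
def D27 : List Lev := d27 :: D26
theorem c27 : checkLev mm PP QQ bb d27 D26 = true := by decide +kernel
theorem g27 : Good mm PP QQ bb D27 := ⟨c27, g26⟩

def d28 : Lev := ⟨580, 1423233, 708, 5, [(837990,[(207,2),(195,1),(42,2),(8,1),(7,1)]),(6104348,[(169,4),(9,2),(7,2)]),(3985888,[(169,4),(8,4)]),(1433835,[(563,1),(48,2),(42,1),(7,1)]),(3115546,[(537,1),(42,3),(9,1),(8,1),(7,4)]),(6702168,[(192,1),(178,1),(169,2)]),(5622372,[(184,1),(178,1),(169,2),(8,1)]),(585295,[(203,3),(42,2),(8,1),(7,1)]),(174523855,[(537,1),(169,1),(1,1)]),(446812,[(222,3),(42,1)]),(4779058,[(227,1),(195,2),(42,2),(7,1)]),(3728057,[(537,1),(46,1),(42,2),(41,1)]),(96536321,[(576,1),(42,1),(41,2),(8,1)]),(6422349,[(576,1),(44,3)]),(144298831,[(537,1),(41,4),(7,1)]),(1730103,[(578,1),(44,2),(7,6)]),(6753112,[(537,1),(171,1)]),(207188,[(246,2),(195,1),(7,3)]),(40095953,[(576,1),(41,1),(7,13)]),(2295679,[(569,1),(42,2),(41,1),(7,2)]),(65824456,[(178,2),(169,2),(7,2)]),(5648284,[(195,3),(41,3)]),(1724730,[(182,1),(180,1),(169,2),(8,1)]),(1432020,[(180,1),(169,3),(7,3)]),(126361,[(537,1),(48,3),(9,3)]),(412737573,[(537,1),(169,1),(1,2)]),(1423234,[(580,1),(42,2),(9,1),(7,5)]),(243524,[(227,3),(9,3)]),(634074,[(537,1),(55,2),(46,1),(8,1),(7,1)])]⟩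
def D28 : List Lev := d28 :: D27
theorem c28 : checkLev mm PP QQ bb d28 D27 = true := by decide +kernel
theorem g28 : Good mm PP QQ bb D28 := ⟨c28, g27⟩

def d29 : Lev := ⟨589, 8785261, 713, 5, [(19258751,[(41,17),(8,2)]),(569283,[(227,3),(9,3),(1,5)]),(1268147,[(192,3),(55,1),(41,2)]),(672930,[(192,3),(48,2),(41,1)]),(83614705,[(576,1),(41,3),(8,1),(1,6)]),(1433835,[(563,1),(44,3),(8,2),(1,2)]),(558660,[(207,3),(41,2),(1,10)]),(1755883,[(203,1),(169,3),(1,3)]),(8785262,[(589,1),(41,3),(1,1)]),(446812,[(222,3),(41,1),(1,6)]),(285277,[(44,16),(7,1),(1,2)]),(1357295,[(184,2),(169,2),(1,7)]),(1423234,[(580,1),(44,3),(1,1)]),(2295679,[(569,1),(41,3),(7,3)]),(223917,[(192,3),(41,3),(7,2)]),(1730103,[(578,1),(41,3),(9,1),(1,3)]),(1425216,[(171,4),(7,4),(1,1)]),(207188,[(246,2),(192,1),(7,4),(1,1)]),(8214566,[(41,17),(1,16)]),(4820584,[(195,3),(44,1),(41,2),(1,2)]),(9441559,[(169,4),(7,5),(1,2)]),(1900891,[(227,2),(48,1),(44,2),(41,3)]),(574910,[(182,3),(41,4),(1,3)]),(1052250,[(180,3),(171,1),(1,2)]),(969262,[(184,3),(44,1),(41,2),(7,5)]),(35993363,[(178,4),(1,1)]),(4362131,[(195,3),(46,1),(41,2)]),(14419176,[(576,1),(41,3),(9,1),(1,5)]),(745917406,[(537,1),(169,1),(7,1)]),(45020742,[(576,1),(42,3),(7,1),(1,4)])]⟩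
def D29 : List Lev := d29 :: D28
theorem c29 : checkLev mm PP QQ bb d29 D28 = true := by decide +kernel
theorem g29 : Good mm PP QQ bb D29 := ⟨c29, g28⟩

def d30 : Lev := ⟨591, 1639979, 714, 5, [(6991992,[(195,3),(41,3),(1,6)]),(28154133,[(178,4),(1,2)]),(791032,[(576,1),(46,3)]),(3631549,[(576,1),(41,3),(1,15)]),(120623740,[(576,1),(41,3),(7,2),(1,1)]),(1623375,[(576,1),(48,2),(42,1)]),(7575750,[(576,1),(44,3),(1,6)]),(4816286,[(227,1),(195,1),(169,1),(41,3)]),(8785262,[(589,1),(41,3),(1,1)]),(1340434,[(222,1),(41,12)]),(10921596,[(169,3),(42,2),(41,3)]),(614164420,[(537,1),(169,1),(7,1),(1,1)]),(1423234,[(580,1),(41,3),(9,1),(1,2)]),(5551995,[(576,1),(42,3),(9,1)]),(1989037,[(576,1),(46,1),(41,2),(9,1),(1,1)]),(1268147,[(576,1),(55,1),(42,1),(41,1)]),(338044,[(184,2),(182,1),(41,4)]),(207188,[(246,2),(180,1),(41,1),(1,1)]),(4946285,[(192,1),(184,1),(169,2)]),(1675980,[(207,1),(169,3)]),(1730103,[(578,1),(41,3),(7,1),(1,6)]),(809586,[(180,1),(178,3)]),(693344,[(227,1),(182,2),(41,3)]),(6753112,[(537,1),(171,1),(1,6)]),(2295679,[(569,1),(42,3),(9,2),(1,1)]),(1433835,[(563,1),(41,3),(9,3)]),(2139977,[(180,1),(41,13)]),(124999875,[(537,1),(169,1),(8,1)]),(1755883,[(203,1),(195,1),(192,1),(41,3)]),(28928164,[(178,1),(42,3),(41,10)]),(1639980,[(591,1),(41,3)])]⟩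
def D30 : List Lev := d30 :: D29
theorem c30 : checkLev mm PP QQ bb d30 D29 = true := by decide +kernel
theorem g30 : Good mm PP QQ bb D30 := ⟨c30, g29⟩

def d31 : Lev := ⟨593, 1275621, 715, 5, [(1050572,[(192,1),(169,2),(48,3),(41,1)]),(17857125,[(537,1),(169,1),(9,1)]),(2692108,[(589,1),(44,1),(41,2)]),(296141062,[(537,1),(169,1),(7,1),(1,2)]),(143054622,[(576,1),(41,3),(7,2),(1,1)]),(2200644,[(569,1),(41,1),(7,15)]),(20035143,[(169,3),(44,1),(41,4)]),(1340434,[(227,1),(222,1),(184,1),(41,2)]),(6093154,[(589,1),(41,3),(1,3)]),(1675980,[(207,1),(169,3)]),(45020742,[(169,3),(42,3),(41,2)]),(119949086,[(537,1),(169,1),(7,1),(1,1)]),(4281939,[(192,1),(184,1),(169,2)]),(831638,[(203,1),(169,2),(46,2),(41,2)]),(6753112,[(537,1),(171,1),(7,1)]),(3120517,[(227,1),(195,1),(169,1),(41,3)]),(37613356,[(537,1),(41,4),(7,2)]),(414375,[(246,1),(169,2),(41,3),(7,1)]),(586556,[(227,1),(195,1),(169,1),(5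5,2),(7,2)]),(462123,[(227,1),(203,2),(41,2)]),(1730103,[(578,1),(41,3),(7,2)]),(3156750,[(180,1),(169,3),(7,4)]),(1724730,[(195,1),(182,1),(169,2)]),(1423234,[(580,1),(46,1),(41,2),(7,1)]),(7372113,[(195,3),(41,3),(7,1)]),(1369658,[(192,1),(178,1),(169,2),(7,1)]),(142603793,[(537,1),(178,1)]),(124999876,[(537,1),(169,1),(8,1),(1,1)]),(95035,[(569,1),(55,1),(48,1),(41,1)]),(1433835,[(563,1),(41,3),(7,4),(1,1)]),(1639980,[(591,1),(41,3)]),(1275622,[(593,1),(46,1),(41,1),(7,5)])]⟩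
def D31 : List Lev := d31 :: D30
theorem c31 : checkLev mm PP QQ bb d31 D30 = true := by decide +kernel
theorem g31 : Good mm PP QQ bb D31 := ⟨c31, g30⟩

def d32 : Lev := ⟨603, 1367579, 720, 5, [(1852662,[(589,1),(48,1),(42,1),(41,1)]),(17857125,[(537,1),(169,1),(9,1)]),(1724730,[(537,1),(182,1)]),(373783333,[(537,1),(169,1),(7,1),(1,2)]),(127432460,[(576,1),(41,3),(7,2),(1,1)]),(2295679,[(569,1),(41,3),(7,4)]),(11260032,[(576,1),(44,2),(42,1),(7,2)]),(502444,[(222,1),(203,2),(41,2)]),(1275622,[(593,1),(41,3)]),(55730128,[(537,1),(169,1),(7,2)]),(1433835,[(563,1),(42,3),(7,4)]),(9671992,[(195,2),(41,8)]),(5415185,[(184,1),(41,13)]),(5962223,[(42,16),(41,1),(7,1)]),(6753112,[(537,1),(171,1),(7,1)]),(5509629,[(227,1),(41,12)]),(21095654,[(537,1),(41,4),(7,2)]),(207188,[(246,2),(184,1),(44,1)]),(6932600,[(589,1),(42,1),(41,2),(7,1)]),(750996,[(203,1),(195,2),(42,3)]),(1730103,[(578,1),(41,3),(7,2)]),(36462,[(603,1),(42,2)]),(4362131,[(576,1),(46,1),(42,2),(7,2)]),(1423234,[(580,1),(42,3),(7,2)]),(3156750,[(180,1),(169,1),(41,9)]),(6702168,[(195,1),(192,1),(169,1),(41,4)]),(143973450,[(537,1),(178,1)]),(124999875,[(537,1),(169,1),(8,1),(1,1)]),(634074,[(603,1),(55,2),(7,1)]),(52359125,[(169,4),(41,1)]),(1639980,[(591,1),(41,3)]),(837990,[(222,1),(207,2),(41,2)]),(697045,[(603,1),(48,2),(7,3)])]⟩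
def D32 : List Lev := d32 :: D31
theorem c32 : checkLev mm PP QQ bb d32 D31 = true := by decide +kernel
theorem g32 : Good mm PP QQ bb D32 := ⟨c32, g31⟩

def d33 : Lev := ⟨618, 1302427, 728, 5, [(3246750,[(589,1),(48,1),(42,1),(41,1)]),(17857125,[(537,1),(169,1),(9,1)]),(1724730,[(537,1),(182,1)]),(273476819,[(537,1),(169,1),(7,1),(1,2)]),(95297766,[(576,1),(41,3),(7,2),(1,1)]),(3053330,[(227,1),(169,1),(41,8)]),(11363626,[(576,1),(44,2),(42,1),(7,2)]),(1340434,[(222,1),(169,2),(41,4)]),(1275622,[(593,1),(41,3)]),(171509924,[(537,1),(169,1),(7,2)]),(8846638,[(576,1),(42,3),(1,26)]),(390160,[(227,2),(192,1),(41,2)]),(5622372,[(537,1),(184,1)]),(23184464,[(576,1),(42,3)]),(6753112,[(537,1),(171,1),(7,1)]),(1661606,[(569,1),(42,3)]),(634074,[(569,1),(55,2),(42,1)]),(207188,[(246,2),(192,1),(42,1)]),(5538512,[(589,1),(42,1),(41,2),(7,1)]),(4348938,[(192,1),(41,13)]),(1730103,[(578,1),(41,3),(7,2)]),(1433835,[(563,1),(41,4)]),(4362131,[(576,1),(46,1),(42,2),(7,2)]),(1423234,[(580,1),(42,3),(7,2)]),(3156750,[(180,1),(169,3),(41,1)]),(1755883,[(203,1),(192,1),(169,1),(41,4)]),(143973450,[(537,1),(178,1)]),(124999875,[(537,1),(169,1),(8,1),(1,1)]),(1675980,[(227,1),(207,1),(169,1),(41,3)]),(46296457,[(169,4),(41,1)]),(1639980,[(591,1),(41,3)]),(27548142,[(195,1),(41,13)]),(1367580,[(603,1),(41,3),(1,2)]),(1302428,[(618,1),(41,2)])]⟩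
def D33 : List Lev := d33 :: D32
theorem c33 : checkLev mm PP QQ bb d33 D32 = true := by decide +kernel
theorem g33 : Good mm PP QQ bb D33 := ⟨c33, g32⟩

def d34 : Lev := ⟨636, 1960728, 738, 5, [(3246750,[(589,1),(48,1),(42,1),(41,1)]),(17857125,[(537,1),(169,1),(9,1)]),(1724730,[(537,1),(182,1)]),(199824005,[(537,1),(169,1),(7,1),(1,2)]),(92721667,[(576,1),(41,3),(7,2),(1,1)]),(5509629,[(227,1),(169,3)]),(11363626,[(576,1),(44,2),(42,1),(7,2)]),(1340434,[(222,1),(169,3)]),(1275622,[(593,1),(41,3)]),(210912430,[(537,1),(169,1),(7,2)]),(14611319,[(576,1),(42,3),(1,26)]),(6702168,[(537,1),(192,1)]),(5622372,[(537,1),(184,1)]),(19361808,[(576,1),(42,3)]),(6753112,[(537,1),(171,1),(7,1)]),(2295679,[(569,1),(169,1)]),(634074,[(576,1),(55,2),(41,1)]),(138125,[(246,3)]),(5538512,[(589,1),(42,1),(41,2),(7,1)]),(24910989,[(41,18)]),(1730103,[(578,1),(41,3),(7,2)]),(1433835,[(563,1),(169,1)]),(4362131,[(576,1),(46,1),(42,2),(7,2)]),(1423234,[(580,1),(42,3),(7,2)]),(3156750,[(180,1),(169,3),(41,1)]),(79904,[(207,1),(203,2),(41,3)]),(143973450,[(537,1),(178,1)]),(124999875,[(537,1),(169,1),(8,1),(1,1)]),(1596077,[(207,1),(203,1),(41,8)]),(51080624,[(169,4),(41,1)]),(1639980,[(591,1),(41,3)]),(27548142,[(537,1),(195,1)]),(1367580,[(603,1),(41,3),(1,2)]),(1302428,[(618,1),(41,2)]),(1960729,[(636,1),(41,2)])]⟩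
def D34 : List Lev := d34 :: D33
theorem c34 : checkLev mm PP QQ bb d34 D33 = true := by decide +kernel
theorem g34 : Good mm PP QQ bb D34 := ⟨c34, g33⟩

def d35 : Lev := ⟨640, 8991644, 740, 5, [(1302428,[(618,1),(48,2),(1,26)]),(1423234,[(580,1),(42,3)]),(1724730,[(537,1),(182,1)]),(320948,[(640,1),(48,2),(1,4)]),(143054622,[(576,1),(41,4)]),(5509629,[(227,1),(169,3)]),(1688278,[(171,4),(42,1),(9,1),(1,5)]),(1340434,[(222,1),(169,3)]),(2020862,[(537,1),(42,4),(1,35)]),(428571000,[(537,1),(169,1),(7,2)]),(1600025,[(589,1),(42,3),(8,3),(1,1)]),(6702168,[(537,1),(192,1)]),(5622372,[(537,1),(184,1)]),(15113283,[(42,2),(41,16)]),(1969969,[(537,1),(169,1),(9,2),(8,2)]),(2295679,[(569,1),(169,1)]),(4362131,[(589,1),(46,1),(44,2),(9,1),(8,1)]),(207188,[(246,2),(207,1),(41,1)]),(537171,[(591,1),(44,3),(1,17)]),(1730103,[(578,1),(44,3),(1,30)]),(1367580,[(603,1),(42,3)]),(1433835,[(563,1),(169,1)])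,(1268147,[(589,1),(55,1),(44,2),(8,1)]),(51914907,[(169,4),(42,1)]),(1578375,[(180,2),(169,2),(42,1)]),(1755883,[(537,1),(203,1)]),(143973450,[(537,1),(178,1)]),(110629586,[(537,1),(169,1),(8,1),(1,1)]),(1468793,[(207,1),(41,13)]),(15399248,[(537,1),(169,1),(1,34)]),(1102810,[(591,1),(42,3),(9,2),(1,5)]),(27548142,[(537,1),(195,1)]),(1554960,[(589,1),(44,3),(9,2),(1,1)]),(1275622,[(593,1),(42,3),(9,2),(1,3)]),(1960729,[(636,1),(42,2),(1,20)]),(8670698,[(640,1),(42,2),(1,16)])]⟩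
def D35 : List Lev := d35 :: D34
theorem c35 : checkLev mm PP QQ bb d35 D34 = true := by decide +kernel
theorem g35 : Good mm PP QQ bb D35 := ⟨c35, g34⟩

def d36 : Lev := ⟨644, 2806885, 742, 5, [(1302428,[(618,1),(42,1),(41,2)]),(789160,[(580,1),(46,1),(42,2),(8,4)]),(1724730,[(537,1),(182,1)]),(1623375,[(640,1),(48,2),(1,4)]),(129544272,[(576,1),(41,4)]),(5509629,[(227,1),(169,3)]),(634074,[(580,1),(55,2),(44,1),(8,1)]),(1340434,[(222,1),(169,3)]),(1675980,[(207,1),(178,3),(1,1)]),(427887211,[(537,1),(169,1),(7,2)]),(5820212,[(589,1),(42,3),(8,3),(1,1)]),(6702168,[(537,1),(192,1)]),(5622372,[(537,1),(184,1)]),(1190991,[(591,1),(46,3),(8,1),(1,5)]),(8928563,[(537,1),(169,1),(9,2),(8,2)]),(2295679,[(569,1),(169,1)]),(1275622,[(593,1),(44,3),(8,2),(1,1)]),(138125,[(246,3),(1,4)]),(448990,[(591,1),(44,3),(1,17)]),(1252085,[(537,1),(178,1),(8,3),(1,3)]),(1367580,[(603,1),(44,3),(7,1)]),(143383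5,[(563,1),(169,1)]),(1960729,[(636,1),(44,2),(8,2),(1,2)]),(65771457,[(169,4),(42,1)]),(1578375,[(180,2),(169,2),(42,1)]),(1755883,[(537,1),(203,1)]),(137693427,[(537,1),(178,1)]),(41528916,[(537,1),(169,1),(8,1),(1,1)]),(6753112,[(537,1),(171,1),(8,4),(1,2)]),(22798912,[(537,1),(169,1),(1,34)]),(1730103,[(578,1),(41,4)]),(27548142,[(537,1),(195,1)]),(55721891,[(537,1),(41,5)]),(13510350,[(576,1),(42,2),(41,2)]),(2965050,[(589,1),(44,3),(8,2),(1,5)]),(7368270,[(640,1),(42,2),(1,16)]),(2806886,[(644,1),(42,2)])]⟩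
def D36 : List Lev := d36 :: D35
theorem c36 : checkLev mm PP QQ bb d36 D35 = true := by decide +kernel
theorem g36 : Good mm PP QQ bb D36 := ⟨c36, g35⟩

def d37 : Lev := ⟨650, 7692307, 745, 5, [(1302428,[(618,1),(42,1),(41,2)]),(1423234,[(580,1),(42,1),(41,3)]),(1724730,[(537,1),(182,1)]),(1623375,[(640,1),(48,2),(1,4)]),(22768269,[(178,3),(169,1),(42,1)]),(5509629,[(227,1),(169,3)]),(634074,[(589,1),(55,2),(41,1)]),(1340434,[(222,1),(169,3)]),(1675980,[(537,1),(207,1)]),(426198933,[(537,1),(169,1),(7,2)]),(4711728,[(589,1),(42,3),(8,3),(1,1)]),(6702168,[(537,1),(192,1)]),(5622372,[(537,1),(184,1)]),(1454044,[(591,1),(46,3),(8,1),(1,5)]),(8928563,[(537,1),(169,1),(9,2),(8,2)]),(2295679,[(569,1),(169,1)]),(1275622,[(593,1),(44,3),(8,2),(1,1)]),(138125,[(246,3),(1,4)]),(185937,[(591,1),(44,3),(1,17)]),(26067302,[(537,1),(178,1),(8,3),(1,3)]),(1367580,[(603,1),(44,3),(7,1)]),(1433835,[(563,1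),(169,1)]),(1960729,[(636,1),(44,2),(8,2),(1,2)]),(35298584,[(169,4),(42,1)]),(1578375,[(180,2),(169,2),(42,1)]),(1755883,[(537,1),(203,1)]),(49601344,[(537,1),(178,1)]),(143054622,[(576,1),(169,1)]),(1688278,[(171,4),(42,1),(7,2),(1,5)]),(22084711,[(537,1),(169,1),(1,34)]),(1730103,[(578,1),(41,4)]),(27548142,[(537,1),(195,1)]),(155834762,[(537,1),(41,5)]),(12172523,[(537,1),(42,3),(41,2)]),(3439461,[(589,1),(44,3),(8,2),(1,5)]),(7368270,[(640,1),(42,2),(1,16)]),(2806886,[(644,1),(42,2)]),(7692308,[(650,1),(41,2)])]⟩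
def D37 : List Lev := d37 :: D36
theorem c37 : checkLev mm PP QQ bb d37 D36 = true := by decide +kernel
theorem g37 : Good mm PP QQ bb D37 := ⟨c37, g36⟩

def d38 : Lev := ⟨653, 25781675, 747, 5, [(1302428,[(618,1),(7,18),(1,3)]),(1423234,[(580,1),(7,23),(1,6)]),(431183,[(182,4),(8,2),(1,3)]),(6753112,[(576,1),(171,1)]),(572083,[(576,1),(48,3),(8,3),(1,3)]),(8991645,[(640,1),(44,2),(8,2),(1,3)]),(1268147,[(169,4),(55,1),(9,1),(7,1)]),(446812,[(222,3),(46,1),(7,5)]),(558660,[(207,3),(48,2),(9,3),(1,3)]),(35156381,[(178,4),(7,5)]),(1836543,[(227,3),(7,9),(1,3)]),(6702168,[(537,1),(192,1),(8,2),(1,2)]),(1047135,[(184,4),(8,1),(1,3)]),(25781676,[(653,1),(41,2),(8,1),(1,4)]),(1581321,[(576,1),(44,3),(8,4),(7,1)]),(2295679,[(569,1),(178,1)]),(1275622,[(593,1),(41,3),(8,3),(7,1)]),(138125,[(246,3),(9,1)]),(1305107,[(576,1),(46,3),(8,4),(1,1)]),(13599633,[(537,1),(195,1),(1,15)]),(1367580,[(603,1),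(41,3),(8,2),(1,5)]),(1433835,[(563,1),(184,1)]),(1960729,[(636,1),(41,2),(8,3),(1,5)]),(7131387,[(576,1),(7,24),(1,3)]),(13948509,[(537,1),(195,1),(9,1),(1,6)]),(1755883,[(537,1),(203,1),(7,1)]),(709911215,[(537,1),(169,1),(41,1)]),(75029344,[(576,1),(169,1),(1,2)]),(1914996,[(576,1),(8,21),(1,3)]),(191601,[(1,747)]),(1730103,[(578,1),(7,24),(1,1)]),(8785262,[(589,1),(7,22),(1,4)]),(15001719,[(576,1),(41,4),(7,1)]),(33765556,[(576,1),(42,4),(1,3)]),(1052250,[(180,3),(178,1),(7,4),(1,1)]),(1639980,[(591,1),(7,22),(1,2)]),(2806886,[(644,1),(7,14),(1,5)]),(7692308,[(650,1),(7,13),(1,6)]),(413183,[(169,4),(48,1),(9,2),(1,5)])]⟩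
def D38 : List Lev := d38 :: D37
theorem c38 : checkLev mm PP QQ bb d38 D37 = true := by decide +kernel
theorem g38 : Good mm PP QQ bb D38 := ⟨c38, g37⟩

def d39 : Lev := ⟨655, 1526716, 748, 5, [(1302428,[(618,1),(41,3),(7,1)]),(1423234,[(580,1),(41,4),(1,4)]),(1724730,[(537,1),(182,1),(7,4),(1,1)]),(83593904,[(576,1),(169,1),(1,3)]),(1275622,[(593,1),(41,3),(7,4),(1,4)]),(8991645,[(640,1),(41,2),(7,3),(1,5)]),(70390951,[(537,1),(169,1),(42,1)]),(446812,[(222,3),(41,2)]),(2603294,[(178,4),(9,4)]),(80511,[(9,4),(8,89)]),(5509629,[(227,1),(178,2),(41,4),(1,1)]),(3351084,[(192,2),(178,2),(7,1),(1,1)]),(1405593,[(184,4),(9,1),(1,3)]),(1639980,[(591,1),(41,3),(9,3),(7,1)]),(1960729,[(636,1),(41,2),(7,4),(1,2)]),(2295679,[(569,1),(178,1),(1,1)]),(422716,[(576,1),(55,3),(7,1)]),(138125,[(246,3),(7,1),(1,3)]),(1367580,[(603,1),(42,1),(41,2),(7,3)]),(2051,[(1,748)]),(237717,[(46,16),(9,1),(1,3)]),(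546153964,[(537,1),(169,1),(41,1),(1,1)]),(573345,[(576,1),(48,3),(7,4)]),(89796955,[(537,1),(169,1),(7,6)]),(1433835,[(563,1),(178,1),(7,1)]),(1755883,[(537,1),(203,1),(7,1),(1,1)]),(6753112,[(576,1),(171,1),(1,1)]),(11363626,[(653,1),(44,2),(7,1)]),(27548142,[(537,1),(195,1),(8,2)]),(51711547,[(576,1),(42,1),(41,3),(7,1)]),(1730103,[(578,1),(169,1),(1,1)]),(8785262,[(589,1),(42,1),(41,2),(7,5)]),(558660,[(207,3),(46,1),(9,1),(8,9)]),(14418051,[(653,1),(41,2),(7,1),(1,6)]),(3156750,[(537,1),(180,1),(8,3),(7,1)]),(26679827,[(178,4),(8,1),(7,4)]),(2806886,[(644,1),(42,1),(41,1),(7,3)]),(7692308,[(650,1),(41,2),(7,2),(1,2)]),(5390033,[(537,1),(178,1),(8,4),(1,1)]),(1526717,[(655,1),(48,1),(41,1),(1,4)])]⟩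
def D39 : List Lev := d39 :: D38
theorem c39 : checkLev mm PP QQ bb d39 D38 = true := by decide +kernel
theorem g39 : Good mm PP QQ bb D39 := ⟨c39, g38⟩

def d40 : Lev := ⟨659, 1287603, 750, 5, [(1302428,[(618,1),(42,1),(41,2),(8,1)]),(1423234,[(580,1),(169,1)]),(862365,[(182,2),(169,2),(48,1)]),(112192347,[(576,1),(169,1),(1,3)]),(7475,[(593,1),(48,2),(46,1),(8,1),(7,1)]),(1287604,[(659,1),(41,2),(9,1)]),(11418020,[(537,1),(169,1),(42,1)]),(1340434,[(222,1),(169,3),(7,3)]),(572764,[(563,1),(178,1),(8,1)]),(4667348,[(537,1),(184,1),(8,1),(7,3)]),(861071,[(563,1),(180,1),(7,1)]),(24887574,[(653,1),(41,2),(8,1),(7,1)]),(1675980,[(207,1),(203,1),(169,2)]),(1559793,[(169,4),(46,1),(7,4)]),(1960729,[(636,1),(41,2),(8,4)]),(207188,[(246,2),(169,1),(48,1),(41,1)]),(67144,[(178,1),(169,3),(41,1),(8,3)]),(6753112,[(537,1),(171,1),(42,1)]),(1367580,[(603,1),(41,3),(8,3)]),(1268147,[(593,1),(55,1),(4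8,1),(46,1),(8,1)]),(2295679,[(569,1),(180,1)]),(430514528,[(537,1),(169,1),(41,1),(1,1)]),(8785262,[(589,1),(41,3),(8,3),(7,2)]),(79904,[(537,1),(203,1),(8,1)]),(955025,[(184,1),(178,2),(169,1),(41,1)]),(6702168,[(537,1),(192,1),(7,3)]),(894103,[(653,1),(48,1),(41,1),(8,1)]),(14292753,[(576,1),(44,1),(41,3),(7,1)]),(8434498,[(537,1),(169,1),(44,1)]),(8991645,[(640,1),(41,2),(7,4)]),(1730103,[(578,1),(169,1),(1,1)]),(115588666,[(537,1),(169,1),(42,1),(1,2)]),(135913865,[(537,1),(178,1),(7,5)]),(1526717,[(655,1),(46,1),(41,1),(8,1)]),(16569522,[(576,1),(41,4),(9,1)]),(5509629,[(227,1),(178,1),(169,2),(7,1)]),(2806886,[(644,1),(41,2),(8,3)]),(1639980,[(591,1),(41,3),(8,1),(7,4)]),(25845303,[(537,1),(41,5),(8,1)]),(27548142,[(195,1),(169,3),(41,1),(7,1)]),(7692308,[(650,1),(41,2),(8,2)])]⟩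
def D40 : List Lev := d40 :: D39
theorem c40 : checkLev mm PP QQ bb d40 D39 = true := by decide +kernel
theorem g40 : Good mm PP QQ bb D40 := ⟨c40, g39⟩

def d41 : Lev := ⟨663, 1577975, 752, 5, [(1302428,[(618,1),(42,1),(41,2),(8,1)]),(1423234,[(580,1),(169,1)]),(8110558,[(589,1),(41,3),(9,2),(7,3)]),(3156750,[(537,1),(180,1),(7,5)]),(83887,[(169,4),(41,1),(7,5)]),(1287604,[(659,1),(41,2),(9,1)]),(143054622,[(576,1),(169,1),(7,1)]),(6753112,[(537,1),(171,1),(41,1),(1,3)]),(2295679,[(569,1),(169,1),(7,2)]),(1268147,[(169,4),(55,1),(7,3)]),(1433835,[(563,1),(182,1),(7,1)]),(25781676,[(653,1),(41,2),(8,1),(7,1)]),(1275622,[(593,1),(41,3),(7,5),(1,1)]),(1755883,[(203,1),(169,3),(41,1)]),(1844593,[(636,1),(41,2),(7,4)]),(138125,[(246,3),(7,2)]),(3991044,[(537,1),(184,1),(7,4)]),(4053436,[(227,1),(178,2),(169,1)]),(1367580,[(603,1),(41,3),(8,3)]),(76302088,[(537,1),(169,1),(41,1),(1,5)]),(134043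4,[(222,1),(184,1),(169,2),(7,1)]),(327703915,[(537,1),(169,1),(41,1),(1,1)]),(674705,[(589,1),(41,3),(8,3),(7,2)]),(1675980,[(537,1),(207,1),(8,1)]),(4362131,[(537,1),(169,1),(46,1)]),(290895,[(184,1),(182,1),(169,2),(41,1),(7,1)]),(26820045,[(195,1),(178,1),(169,2),(41,1)]),(116136,[(636,1),(41,2),(9,3),(7,1)]),(22727250,[(537,1),(169,1),(44,1)]),(8991645,[(640,1),(41,2),(7,4)]),(1730103,[(578,1),(169,1),(1,1)]),(133759796,[(537,1),(169,1),(42,1),(1,2)]),(109046535,[(537,1),(178,1),(7,5)]),(1526717,[(655,1),(41,2),(8,1),(7,1)]),(6702168,[(537,1),(192,1),(8,2),(7,1)]),(1668775,[(169,4),(48,1),(7,4)]),(2806886,[(644,1),(41,2),(8,3)]),(1639980,[(591,1),(41,3),(8,1),(7,4)]),(49736642,[(537,1),(41,5),(8,1)]),(728097,[(227,2),(195,1),(41,2),(7,3)]),(7692308,[(650,1),(41,2),(8,2)]),(1577976,[(663,1),(48,1),(41,1)])]⟩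
def D41 : List Lev := d41 :: D40
theorem c41 : checkLev mm PP QQ bb d41 D40 = true := by decide +kernel
theorem g41 : Good mm PP QQ bb D41 := ⟨c41, g40⟩

def d42 : Lev := ⟨667, 6154821, 754, 5, [(917995,[(653,1),(48,2),(1,5)]),(8694556,[(589,1),(41,4),(1,1)]),(1287604,[(659,1),(44,2),(1,7)]),(2165665,[(653,1),(46,2),(9,1)]),(745917406,[(537,1),(169,1),(41,1),(7,1)]),(8991645,[(640,1),(42,2),(1,30)]),(446812,[(222,3),(55,1),(9,3),(1,6)]),(1332470,[(171,4),(42,1),(7,4)]),(570949,[(569,1),(42,4),(9,1),(1,8)]),(1901180,[(653,1),(44,2),(9,1),(1,4)]),(918829,[(563,1),(178,1),(9,1),(1,4)]),(20796837,[(653,1),(41,2),(8,2),(1,3)]),(1730103,[(578,1),(42,4),(1,8)]),(138125,[(246,3),(9,1),(7,1)]),(477701,[(1,754)]),(515007,[(563,1),(184,1),(7,1)]),(8582926,[(169,4),(41,1),(8,4),(1,5)]),(1836543,[(227,3),(41,1),(8,4)]),(821336,[(655,1),(55,1),(44,1)]),(1423234,[(580,1),(171,1),(1,3)]),(3691566,[(42,17)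,(1,40)]),(900611,[(7,107),(1,5)]),(1577976,[(663,1),(42,2),(7,1)]),(207910,[(207,3),(41,3),(8,1),(1,2)]),(585295,[(203,3),(42,3),(9,2),(1,1)]),(1724730,[(569,1),(182,1),(1,3)]),(1960729,[(636,1),(42,2),(8,4),(1,2)]),(1367580,[(603,1),(42,3),(9,2),(7,1)]),(2806886,[(644,1),(42,2),(9,2),(8,1)]),(1276842,[(184,4),(7,2),(1,4)]),(1275622,[(593,1),(42,3),(8,4),(1,3)]),(7692308,[(650,1),(44,2),(8,2)]),(90706,[(589,1),(42,3),(8,4),(7,1)]),(705381,[(655,1),(48,2),(1,3)]),(2234056,[(192,3),(169,1),(7,1),(1,2)]),(1302428,[(618,1),(42,3),(9,1),(1,1)]),(36817,[(8,94),(1,2)]),(1052250,[(207,1),(180,3),(7,1)]),(143054622,[(576,1),(178,1)]),(10267,[(46,3),(44,14)]),(1639980,[(591,1),(42,3),(8,4),(1,5)]),(9182714,[(195,3),(169,1)]),(6154822,[(667,1),(42,2),(1,3)])]⟩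
def D42 : List Lev := d42 :: D41
theorem c42 : checkLev mm PP QQ bb d42 D41 = true := by decide +kernel
theorem g42 : Good mm PP QQ bb D42 := ⟨c42, g41⟩

def d43 : Lev := ⟨669, 1494766, 755, 5, [(5678588,[(640,1),(41,2),(7,4),(1,5)]),(1960729,[(636,1),(41,2),(9,1),(7,4)]),(1561036,[(195,1),(171,3),(46,1),(1,1)]),(2673617,[(195,1),(169,3),(46,1),(7,1)]),(1730103,[(578,1),(48,1),(44,2),(41,1)]),(1663347,[(192,2),(184,2),(1,3)]),(1526717,[(655,1),(41,2),(7,2),(1,4)]),(7692308,[(650,1),(41,2),(9,1),(7,2)]),(647213,[(192,3),(178,1),(1,1)]),(38836731,[(576,1),(169,1),(7,1),(1,3)]),(9088384,[(178,4),(41,1),(1,2)]),(104217891,[(576,1),(178,1),(1,1)]),(7771164,[(195,3),(44,2),(41,2)]),(1423234,[(580,1),(171,1),(1,4)]),(574910,[(182,3),(44,1),(42,1),(41,3)]),(1433835,[(563,1),(192,1)]),(1367580,[(603,1),(42,1),(41,2),(7,4)]),(24334250,[(653,1),(41,2),(7,2),(1,6)]),(578188,[(55,1),(7,100)]),(1755883,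[(537,1),(203,1),(7,2),(1,1)]),(127479,[(207,3),(46,1),(44,2)]),(443492,[(180,4),(7,5)]),(8785262,[(589,1),(41,4),(1,2)]),(488848800,[(537,1),(169,1),(41,1),(7,1),(1,1)]),(2295679,[(569,1),(184,1),(1,2)]),(207188,[(246,2),(222,1),(41,1)]),(1382785,[(180,1),(41,14),(1,1)]),(58343,[(593,1),(55,2),(48,1),(1,4)]),(2754815,[(227,2),(178,1),(41,3)]),(377749,[(222,3),(41,2),(7,1)]),(2806886,[(644,1),(42,1),(41,1),(7,4)]),(1447427,[(653,1),(44,2),(7,2)]),(130312849,[(537,1),(169,1),(42,1),(7,1)]),(573275,[(618,1),(55,1),(41,2)]),(1577976,[(663,1),(41,2),(9,1),(1,1)]),(729153,[(618,1),(48,2),(41,1)]),(3313057,[(640,1),(41,2),(9,2),(7,2),(1,1)]),(1287604,[(659,1),(41,2),(7,2)]),(646773,[(207,2),(171,1),(169,1),(1,1)]),(1217280,[(593,1),(41,3),(7,5),(1,4)]),(1639980,[(591,1),(41,4)]),(124999875,[(537,1),(169,1),(41,1),(8,1)]),(6154822,[(667,1),(41,2),(1,6)]),(1494767,[(669,1),(41,2),(1,4)])]⟩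
def D43 : List Lev := d43 :: D42
theorem c43 : checkLev mm PP QQ bb d43 D42 = true := by decide +kernel
theorem g43 : Good mm PP QQ bb D43 := ⟨c43, g42⟩

def d44 : Lev := ⟨676, 1900929, 759, 5, [(2728869,[(640,1),(41,2),(8,2),(7,3)]),(2295679,[(569,1),(184,1),(1,6)]),(115898294,[(537,1),(178,1),(42,1),(1,2)]),(132703,[(246,1),(195,2),(41,3)]),(1730103,[(578,1),(180,1),(1,1)]),(1423234,[(580,1),(178,1),(1,1)]),(1526717,[(655,1),(41,2),(7,2),(1,4)]),(4985026,[(227,1),(192,1),(171,1),(169,1)]),(242931,[(227,1),(192,1),(169,2)]),(1724730,[(576,1),(182,1)]),(283541,[(207,2),(171,2),(1,3)]),(26651924,[(576,1),(178,1),(1,1)]),(2842121,[(640,1),(41,2),(1,37)]),(22727250,[(653,1),(44,1),(41,1),(7,3)]),(1960729,[(636,1),(41,3)]),(113251321,[(576,1),(169,1),(7,2)]),(1367580,[(603,1),(42,1),(41,2),(7,4)]),(3054426,[(653,1),(41,2),(7,2),(1,6)]),(1391502,[(650,1),(41,2),(9,3)]),(1474211,[(203,1),(195,1)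,(192,1),(169,1)]),(1108898,[(207,1),(184,3)]),(3420656,[(640,1),(41,2),(9,4),(1,1)]),(8785262,[(589,1),(169,1)]),(525835655,[(537,1),(169,1),(41,1),(7,1),(1,1)]),(10385840,[(195,2),(41,9)]),(281672,[(246,1),(227,1),(203,1),(41,2)]),(392450,[(663,1),(55,1),(41,1)]),(1426648,[(576,1),(180,1),(1,3)]),(1275622,[(593,1),(41,4),(1,2)]),(1340434,[(537,1),(222,1)]),(2806886,[(644,1),(42,1),(41,1),(7,4)]),(8501380,[(169,4),(42,1),(41,1)]),(1201004,[(195,3),(171,1)]),(1302428,[(618,1),(41,3),(8,2),(1,2)]),(1900930,[(676,1),(41,2),(1,1)]),(1185527,[(663,1),(48,2)]),(2181066,[(650,1),(46,2),(8,2),(1,1)]),(1287604,[(659,1),(41,2),(7,2)]),(875698,[(650,1),(55,1),(48,1),(1,6)]),(1433835,[(563,1),(195,1)]),(1639980,[(591,1),(41,4)]),(102843024,[(537,1),(169,1),(41,1),(8,1)]),(6154822,[(667,1),(41,2),(1,6)]),(1494767,[(669,1),(41,2),(1,4)]),(3244044,[(650,1),(42,2),(8,3),(1,1)])]⟩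
def D44 : List Lev := d44 :: D43
theorem c44 : checkLev mm PP QQ bb d44 D43 = true := by decide +kernel
theorem g44 : Good mm PP QQ bb D44 := ⟨c44, g43⟩

def d45 : Lev := ⟨691, 1244233, 767, 5, [(7692308,[(650,1),(41,2),(8,4),(1,3)]),(1433835,[(563,1),(203,1)]),(133973333,[(537,1),(178,1),(42,1),(1,2)]),(46164,[(246,2),(192,1),(42,1),(41,1)]),(1730103,[(578,1),(180,1),(1,1)]),(1423234,[(580,1),(178,1),(1,1)]),(667506,[(618,1),(48,3)]),(1675980,[(207,1),(195,2),(169,1)]),(634074,[(655,1),(55,2),(1,2)]),(1373107,[(576,1),(182,1)]),(959378,[(171,4),(42,1),(41,1)]),(5509629,[(537,1),(227,1),(1,3)]),(5046587,[(537,1),(184,1),(41,1)]),(13076627,[(653,1),(44,1),(41,1),(7,3)]),(1960729,[(636,1),(41,3)]),(140254868,[(576,1),(169,1),(7,2)]),(1367580,[(603,1),(41,4)]),(1595423,[(653,1),(41,2),(1,32)]),(2295679,[(569,1),(195,1)]),(41676,[(169,4),(42,2)]),(1639980,[(591,1),(171,1),(1,5)]),(575786,[(537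,1),(184,1),(44,1),(1,2)]),(8785262,[(589,1),(169,1)]),(514833148,[(537,1),(169,1),(41,1),(7,1),(1,1)]),(351624,[(537,1),(182,1),(41,1),(7,1)]),(8576885,[(178,1),(169,3),(41,2)]),(9074839,[(195,2),(169,1),(44,1),(41,4)]),(1426648,[(576,1),(180,1),(1,3)]),(1275622,[(593,1),(171,1)]),(1340434,[(537,1),(222,1)]),(2806886,[(644,1),(41,3)]),(892643,[(655,1),(41,2),(8,2),(7,2)]),(3428780,[(195,1),(192,1),(169,2),(41,1)]),(634922,[(618,1),(41,3),(8,2),(1,2)]),(1900930,[(676,1),(41,2),(1,1)]),(8928563,[(653,1),(41,2),(9,2),(7,2)]),(2181066,[(653,1),(46,2),(1,22)]),(1287604,[(659,1),(41,2),(7,2)]),(1244234,[(691,1),(48,1),(8,3),(1,4)]),(322048,[(246,1),(203,1),(195,1),(41,3)]),(3227225,[(192,1),(41,14)]),(84286869,[(537,1),(169,1),(41,1),(8,1)]),(6154822,[(667,1),(41,2),(1,6)]),(1494767,[(669,1),(41,2),(1,4)]),(8991645,[(640,1),(41,3)]),(1577976,[(663,1),(41,2),(8,2),(1,6)])]⟩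
def D45 : List Lev := d45 :: D44
theorem c45 : checkLev mm PP QQ bb d45 D44 = true := by decide +kernel
theorem g45 : Good mm PP QQ bb D45 := ⟨c45, g44⟩

def d46 : Lev := ⟨702, 1463059, 773, 5, [(27548142,[(537,1),(195,1),(41,1)]),(115393,[(246,1),(178,2),(171,1)]),(120631816,[(537,1),(178,1),(42,1),(1,2)]),(149491,[(246,2),(192,1),(42,1),(41,1)]),(1308477,[(180,2),(41,10)]),(1423234,[(580,1),(178,1),(1,1)]),(1082251,[(618,1),(48,3)]),(4934987,[(537,1),(192,1),(44,1)]),(6154822,[(667,1),(44,1),(41,1),(7,3)]),(7692308,[(650,1),(41,3)]),(930530,[(171,4),(42,1),(41,1)]),(5509629,[(537,1),(227,1),(1,3)]),(1433835,[(563,1),(207,1)]),(2172917,[(653,1),(44,1),(41,1),(7,3)]),(1960729,[(636,1),(41,3)]),(143054622,[(576,1),(169,1),(7,2)]),(1367580,[(603,1),(41,4)]),(5864296,[(653,1),(41,2),(1,32)]),(1730103,[(578,1),(41,4),(8,3),(7,1)]),(6634837,[(653,1),(42,2),(8,1),(7,4)]),(1639980,[(591,1),(171,1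),(1,5)]),(5622372,[(537,1),(184,1),(44,1),(1,2)]),(8785262,[(589,1),(169,1)]),(473888598,[(537,1),(169,1),(41,1),(7,1),(1,1)]),(1724730,[(537,1),(182,1),(41,1),(7,1)]),(21687616,[(178,1),(169,3),(41,2)]),(3842153,[(537,1),(44,1),(41,4),(7,4)]),(539796,[(569,1),(180,1),(8,3)]),(1275622,[(593,1),(171,1)]),(1340434,[(537,1),(222,1)]),(2806886,[(644,1),(41,3)]),(1526717,[(655,1),(41,2),(8,2),(7,2)]),(194914,[(702,1),(41,1)]),(220178,[(618,1),(41,3),(8,2),(1,2)]),(1900930,[(676,1),(41,2),(1,1)]),(8928563,[(653,1),(41,2),(9,2),(7,2)]),(2181066,[(653,1),(46,2),(1,22)]),(1287604,[(659,1),(41,2),(7,2)]),(1244234,[(691,1),(41,2)]),(1755883,[(569,1),(203,1)]),(1617690,[(192,1),(41,14)]),(100874548,[(537,1),(169,1),(41,1),(8,1)]),(80715,[(207,3),(42,1),(41,2),(7,4)]),(1494767,[(669,1),(41,2),(8,1),(7,2)]),(8991645,[(640,1),(41,3)]),(1577976,[(663,1),(41,2),(8,2),(1,6)]),(1268147,[(702,1),(55,1),(8,2)])]⟩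
def D46 : List Lev := d46 :: D45
theorem c46 : checkLev mm PP QQ bb d46 D45 = true := by decide +kernel
theorem g46 : Good mm PP QQ bb D46 := ⟨c46, g45⟩

def d47 : Lev := ⟨708, 1599965, 776, 5, [(27548142,[(537,1),(195,1),(41,1)]),(385431,[(246,1),(178,2),(171,1)]),(107172537,[(537,1),(178,1),(42,1),(1,2)]),(1433835,[(563,1),(169,1),(41,1)]),(5622372,[(537,1),(184,1),(42,1),(8,1),(1,5)]),(1423234,[(580,1),(178,1),(1,1)]),(239046,[(537,1),(46,5),(7,1)]),(6702168,[(537,1),(192,1),(44,1)]),(6154822,[(667,1),(44,1),(41,1),(7,3)]),(7692308,[(650,1),(41,3)]),(863020,[(171,4),(42,1),(41,1)]),(5509629,[(537,1),(227,1),(1,3)]),(1268147,[(537,1),(169,1),(55,1),(9,1),(1,6)]),(25781676,[(653,1),(41,3)]),(636493,[(537,1),(178,1),(46,1),(7,2)]),(143054622,[(576,1),(169,1),(7,2)]),(1367580,[(603,1),(169,1),(1,4)]),(28944,[(246,1),(44,12),(1,2)]),(1730103,[(578,1),(41,4),(8,3),(7,1)]),(877942,[(203,2),(41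,9)]),(1639980,[(591,1),(171,1),(1,5)]),(11835718,[(537,1),(178,1),(41,1),(1,20)]),(8785262,[(589,1),(169,1)]),(455994692,[(537,1),(169,1),(41,1),(7,1),(1,1)]),(1724730,[(537,1),(182,1),(41,1),(7,1)]),(22134610,[(178,1),(169,3),(41,2)]),(3640756,[(537,1),(44,1),(41,4),(7,4)]),(16784486,[(537,1),(169,1),(42,1),(7,4)]),(1275622,[(593,1),(171,1)]),(1340434,[(537,1),(222,1)]),(2806886,[(644,1),(41,3)]),(1526717,[(655,1),(41,2),(8,2),(7,2)]),(1287604,[(659,1),(48,2),(7,3)]),(619699,[(569,1),(41,5)]),(1900930,[(676,1),(41,2),(1,1)]),(3156750,[(537,1),(180,1),(42,1),(9,1),(8,1)]),(1463060,[(702,1),(42,1),(8,4)]),(1302428,[(618,1),(41,3),(9,3),(8,1)]),(1244234,[(691,1),(41,2)]),(167886,[(537,1),(48,4),(46,1)]),(2362526,[(537,1),(169,1),(46,1),(9,2),(1,6)]),(94210903,[(537,1),(169,1),(41,1),(8,1)]),(1675980,[(569,1),(207,1)]),(1494767,[(669,1),(41,2),(8,1),(7,2)]),(8991645,[(640,1),(41,3)]),(1577976,[(663,1),(41,2),(8,2),(1,6)]),(1960729,[(636,1),(44,3),(8,1)]),(1599966,[(708,1),(41,1),(9,3)])]⟩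
def D47 : List Lev := d47 :: D46
theorem c47 : checkLev mm PP QQ bb d47 D46 = true := by decide +kernel
theorem g47 : Good mm PP QQ bb D47 := ⟨c47, g46⟩

def d48 : Lev := ⟨727, 2060050, 786, 5, [(27548142,[(537,1),(195,1),(41,1)]),(414375,[(246,1),(178,2),(171,1)]),(88722461,[(537,1),(178,1),(42,1),(1,2)]),(1433835,[(563,1),(169,1),(41,1)]),(5622372,[(537,1),(184,1),(42,1),(8,1),(1,5)]),(1423234,[(580,1),(178,1),(1,1)]),(59819,[(636,1),(7,21)]),(6702168,[(537,1),(192,1),(44,1)]),(6154822,[(667,1),(44,1),(41,1),(7,3)]),(7692308,[(650,1),(41,3)]),(480260,[(171,4),(42,1),(41,1)]),(5509629,[(537,1),(227,1),(1,3)]),(32030949,[(576,1),(169,1),(41,1)]),(25781676,[(653,1),(41,3)]),(4362131,[(537,1),(178,1),(46,1),(7,2)]),(111023673,[(576,1),(169,1),(7,2)]),(1367580,[(603,1),(169,1),(1,4)]),(1526717,[(655,1),(44,2),(41,1)]),(1287604,[(659,1),(41,3)]),(1268147,[(178,4),(55,1),(7,2)]),(1639980,[(591,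1),(171,1),(1,5)]),(16455893,[(537,1),(178,1),(41,1),(1,20)]),(8785262,[(589,1),(169,1)]),(431801105,[(537,1),(169,1),(41,1),(7,1),(1,1)]),(1724730,[(537,1),(182,1),(41,1),(7,1)]),(17926585,[(178,1),(169,3),(41,2)]),(228006,[(578,1),(180,1)]),(37308388,[(537,1),(169,1),(42,1),(7,4)]),(1275622,[(593,1),(171,1)]),(1340434,[(537,1),(222,1)]),(2806886,[(644,1),(41,3)]),(1502097,[(578,1),(171,1),(9,4)]),(1755883,[(537,1),(203,1),(44,1)]),(2295679,[(569,1),(178,1),(7,5)]),(1900930,[(676,1),(41,2),(1,1)]),(2928744,[(537,1),(180,1),(42,1),(9,1),(8,1)]),(1463060,[(702,1),(41,2)]),(1302539,[(178,4),(44,1),(7,4)]),(1244234,[(691,1),(41,2)]),(1082250,[(636,1),(48,3)]),(1302428,[(618,1),(44,1),(41,3)]),(114135333,[(537,1),(169,1),(41,1),(8,1)]),(837990,[(207,2),(178,2),(7,2)]),(1494767,[(669,1),(41,2),(8,1),(7,2)]),(8991645,[(640,1),(41,3)]),(1577976,[(663,1),(41,3)]),(818661,[(636,1),(44,3),(8,1)]),(1599966,[(708,1),(41,1),(9,3)]),(2060051,[(727,1),(41,1),(9,2)])]⟩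
def D48 : List Lev := d48 :: D47
theorem c48 : checkLev mm PP QQ bb d48 D47 = true := by decide +kernel
theorem g48 : Good mm PP QQ bb D48 := ⟨c48, g47⟩

def d49 : Lev := ⟨770, 3063700, 809, 5, [(27548142,[(537,1),(195,1),(41,1)]),(414375,[(246,1),(178,2),(171,1)]),(70792706,[(537,1),(178,1),(42,1),(1,2)]),(1433835,[(563,1),(169,1),(41,1)]),(5622372,[(537,1),(184,1),(42,1),(8,1),(1,5)]),(1423234,[(580,1),(178,1),(1,1)]),(1302428,[(618,1),(169,1)]),(3896170,[(537,1),(192,1),(44,1)]),(6154822,[(667,1),(44,1),(41,1),(7,3)]),(7692308,[(650,1),(41,3)]),(645940,[(644,1),(48,3)]),(5509629,[(537,1),(227,1),(1,3)]),(85168586,[(576,1),(169,1),(41,1)]),(25781676,[(653,1),(41,3)]),(4362131,[(537,1),(178,1),(46,1),(7,2)]),(57886036,[(576,1),(169,1),(7,2)]),(1367580,[(603,1),(169,1),(1,4)]),(1526717,[(655,1),(44,2),(41,1)]),(1287604,[(659,1),(41,3)]),(1268147,[(178,4),(55,1),(7,2)]),(1639980,[(591,1),(1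71,1),(1,5)]),(18342974,[(537,1),(178,1),(41,1),(1,20)]),(8785262,[(589,1),(169,1)]),(429919006,[(537,1),(169,1),(41,1),(7,1),(1,1)]),(1724730,[(537,1),(182,1),(41,1),(7,1)]),(7711638,[(178,1),(169,3),(41,2)]),(1730103,[(578,1),(180,1)]),(57220499,[(537,1),(169,1),(42,1),(7,4)]),(1275622,[(593,1),(171,1)]),(1340434,[(537,1),(222,1)]),(1583218,[(644,1),(41,3)]),(365602,[(171,4),(48,2)]),(1755883,[(537,1),(203,1),(44,1)]),(2295679,[(569,1),(178,1),(7,5)]),(1900930,[(676,1),(41,2),(1,1)]),(1426648,[(537,1),(180,1),(42,1),(9,1),(8,1)]),(1463060,[(702,1),(41,2)]),(7866945,[(178,4),(44,1),(7,4)]),(1244234,[(691,1),(41,2)]),(577730,[(644,1),(48,1),(9,13)]),(8991645,[(640,1),(169,1)]),(116456090,[(537,1),(169,1),(41,1),(8,1)]),(837990,[(207,2),(178,2),(7,2)]),(1494767,[(669,1),(41,2),(8,1),(7,2)]),(701500,[(192,4),(7,5)]),(1577976,[(663,1),(41,3)]),(1960729,[(636,1),(171,1)]),(1599966,[(708,1),(41,1),(9,3)]),(2060051,[(727,1),(41,1),(9,2)]),(3063701,[(770,1)])]⟩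
def D49 : List Lev := d49 :: D48
theorem c49 : checkLev mm PP QQ bb d49 D48 = true := by decide +kernel
theorem g49 : Good mm PP QQ bb D49 := ⟨c49, g48⟩

def d50 : Lev := ⟨789, 2624798, 819, 5, [(27548142,[(537,1),(195,1),(41,1)]),(414375,[(246,1),(178,2),(171,1)]),(61254158,[(537,1),(178,1),(42,1),(1,2)]),(1433835,[(563,1),(169,1),(41,1)]),(5622372,[(537,1),(184,1),(42,1),(8,1),(1,5)]),(1423234,[(580,1),(178,1),(1,1)]),(1302428,[(618,1),(169,1)]),(7692308,[(650,1),(169,1)]),(5887349,[(667,1),(44,1),(41,1),(7,3)]),(87150,[(653,1),(9,18)]),(267474,[(667,1),(48,2),(7,8)]),(5509629,[(537,1),(227,1),(1,3)]),(130600244,[(576,1),(169,1),(41,1)]),(24353746,[(653,1),(41,3)]),(4362131,[(537,1),(178,1),(46,1),(7,2)]),(12454378,[(576,1),(169,1),(7,2)]),(1367580,[(603,1),(169,1),(1,4)]),(536417,[(655,1),(7,23)]),(1287604,[(659,1),(41,3)]),(422716,[(653,1),(55,3)]),(1639980,[(591,1),(171,1),(1,5)]),(19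141970,[(537,1),(178,1),(41,1),(1,20)]),(8785262,[(589,1),(169,1)]),(433016179,[(537,1),(169,1),(41,1),(7,1),(1,1)]),(1724730,[(537,1),(182,1),(41,1),(7,1)]),(990300,[(655,1),(48,2),(9,6),(7,2)]),(1730103,[(578,1),(180,1)]),(66759047,[(537,1),(169,1),(42,1),(7,4)]),(1275622,[(593,1),(171,1)]),(1340434,[(537,1),(222,1)]),(2806886,[(644,1),(169,1)]),(365602,[(171,4),(48,2)]),(1755883,[(537,1),(203,1),(44,1)]),(2295679,[(569,1),(178,1),(7,5)]),(1900930,[(676,1),(41,2),(1,1)]),(1426648,[(537,1),(180,1),(42,1),(9,1),(8,1)]),(1463060,[(702,1),(41,2)]),(13247889,[(178,4),(44,1),(7,4)]),(1244234,[(691,1),(41,2)]),(918066,[(653,1),(44,2),(7,11)]),(8991645,[(640,1),(169,1)]),(116456090,[(537,1),(169,1),(41,1),(8,1)]),(837990,[(207,2),(178,2),(7,2)]),(1494767,[(669,1),(41,2),(8,1),(7,2)]),(1675542,[(192,4),(7,5)]),(1577976,[(663,1),(41,3)]),(1960729,[(636,1),(171,1)]),(1599966,[(708,1),(41,1),(9,3)]),(2060051,[(727,1),(41,1),(9,2)]),(3063701,[(770,1)]),(2624799,[(789,1)])]⟩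
def D50 : List Lev := d50 :: D49
theorem c50 : checkLev mm PP QQ bb d50 D49 = true := by decide +kernel
theorem g50 : Good mm PP QQ bb D50 := ⟨c50, g49⟩

def d51 : Lev := ⟨795, 6445418, 822, 5, [(27548142,[(537,1),(195,1),(41,1)]),(414375,[(537,1),(246,1),(9,4)]),(57254537,[(537,1),(178,1),(42,1),(1,2)]),(1433835,[(563,1),(169,1),(41,1)]),(5622372,[(537,1),(184,1),(42,1),(8,1),(1,5)]),(1423234,[(580,1),(178,1),(1,1)]),(1302428,[(618,1),(169,1)]),(7692308,[(650,1),(169,1)]),(6154822,[(667,1),(41,3),(7,4)]),(1275622,[(593,1),(178,1),(44,1),(7,1)]),(2060051,[(727,1),(41,2),(7,1)]),(5509629,[(537,1),(227,1),(1,3)]),(143054622,[(576,1),(169,1),(41,1)]),(784286,[(537,1),(178,1),(41,2),(7,3)]),(1049245,[(537,1),(178,1),(46,1),(7,2)]),(1639980,[(591,1),(178,1),(9,2),(7,5)]),(1367580,[(603,1),(169,1),(1,4)]),(1526717,[(655,1),(41,4)]),(1287604,[(659,1),(41,3)]),(927820,[(169,4),(46,3),(1,8)]),(1764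76,[(171,4),(46,3)]),(21398092,[(537,1),(178,1),(41,1),(1,20)]),(8785262,[(589,1),(169,1)]),(396670308,[(537,1),(169,1),(41,1),(7,1),(1,1)]),(1724730,[(537,1),(182,1),(41,1),(7,1)]),(25781676,[(653,1),(169,1)]),(1730103,[(578,1),(178,1),(41,1),(7,3)]),(72185315,[(537,1),(169,1),(42,1),(7,4)]),(3156750,[(537,1),(180,1),(41,2),(7,3)]),(1340434,[(537,1),(222,1)]),(2806886,[(644,1),(169,1)]),(634074,[(537,1),(171,1),(55,2)]),(1755883,[(537,1),(203,1),(41,2)]),(2295679,[(569,1),(171,1),(41,2)]),(1900930,[(676,1),(41,2),(1,1)]),(785386,[(537,1),(171,1),(48,2),(9,2)]),(1463060,[(702,1),(41,2)]),(8991682,[(178,4),(41,2),(7,4)]),(1244234,[(691,1),(41,2)]),(21451629,[(537,1),(178,1),(44,1),(41,1),(7,3)]),(8991645,[(640,1),(169,1)]),(117882737,[(537,1),(169,1),(41,1),(8,1)]),(1675980,[(537,1),(207,1),(48,1),(9,1),(7,3)]),(1494767,[(669,1),(41,2),(8,1),(7,2)]),(6702168,[(537,1),(192,1),(41,2),(9,1)]),(1577976,[(663,1),(41,3)]),(1960729,[(636,1),(171,1)]),(1599966,[(708,1),(41,2),(7,4)]),(371344,[(537,1),(171,1),(41,1),(9,8)]),(3063701,[(770,1)]),(2624799,[(789,1)]),(6445419,[(795,1)])]⟩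
def D51 : List Lev := d51 :: D50
theorem c51 : checkLev mm PP QQ bb d51 D50 = true := by decide +kernel
theorem g51 : Good mm PP QQ bb D51 := ⟨c51, g50⟩

def d52 : Lev := ⟨821, 2636778, 836, 5, [(27548142,[(537,1),(195,1),(41,1)]),(414375,[(537,1),(246,1),(9,4)]),(54881002,[(537,1),(178,1),(42,1),(1,2)]),(1433835,[(563,1),(169,1),(41,1)]),(5622372,[(537,1),(184,1),(42,1),(8,1),(1,5)]),(1423234,[(580,1),(178,1),(1,1)]),(1302428,[(618,1),(169,1)]),(7692308,[(650,1),(169,1)]),(6154822,[(667,1),(169,1)]),(1275622,[(593,1),(178,1),(44,1),(7,1)]),(2060051,[(727,1),(41,2),(7,1)]),(5509629,[(537,1),(227,1),(1,3)]),(143054622,[(576,1),(169,1),(41,1)]),(35336848,[(537,1),(178,1),(41,2),(7,3)]),(1526717,[(655,1),(169,1)]),(1639980,[(591,1),(178,1),(9,2),(7,5)]),(1367580,[(603,1),(169,1),(1,4)]),(3362837,[(169,4),(42,3),(1,34)]),(1287604,[(659,1),(169,1)]),(1454044,[(169,4),(46,3),(1,8)]),(176476,[(17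1,4),(42,3),(1,26)]),(16371664,[(537,1),(178,1),(41,1),(1,20)]),(8785262,[(589,1),(169,1)]),(378811353,[(537,1),(169,1),(41,1),(7,1),(1,1)]),(1724730,[(537,1),(182,1),(41,1),(7,1)]),(25781676,[(653,1),(169,1)]),(1730103,[(578,1),(178,1),(41,1),(7,3)]),(63940915,[(537,1),(169,1),(42,1),(7,4)]),(3156750,[(537,1),(180,1),(41,2),(7,3)]),(1340434,[(537,1),(222,1)]),(2806886,[(644,1),(169,1)]),(634074,[(537,1),(171,1),(55,2)]),(1755883,[(537,1),(203,1),(41,2)]),(2295679,[(569,1),(171,1),(41,2)]),(1900930,[(676,1),(41,2),(1,1)]),(785386,[(537,1),(171,1),(48,2),(9,2)]),(1463060,[(702,1),(41,2)]),(2465843,[(178,4),(41,2),(7,4)]),(1244234,[(691,1),(41,2)]),(21451629,[(537,1),(178,1),(44,1),(41,1),(7,3)]),(8991645,[(640,1),(169,1)]),(117882737,[(537,1),(169,1),(41,1),(8,1)]),(1675980,[(537,1),(207,1),(48,1),(9,1),(7,3)]),(1494767,[(669,1),(41,2),(8,1),(7,2)]),(6702168,[(537,1),(192,1),(41,2),(9,1)]),(1577976,[(663,1),(169,1)]),(1960729,[(636,1),(171,1)]),(1599966,[(708,1),(41,2),(7,4)]),(371344,[(537,1),(171,1),(41,1),(9,8)]),(3063701,[(770,1)]),(2624799,[(789,1)]),(6445419,[(795,1)]),(2636779,[(821,1)])]⟩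
def D52 : List Lev := d52 :: D51
theorem c52 : checkLev mm PP QQ bb d52 D51 = true := by decide +kernel
theorem g52 : Good mm PP QQ bb D52 := ⟨c52, g51⟩

def d53 : Lev := ⟨838, 1995719, 845, 5, [(27548142,[(537,1),(195,1),(41,1)]),(414375,[(591,1),(246,1),(1,8)]),(49941189,[(537,1),(178,1),(42,1),(1,2)]),(1433835,[(563,1),(169,1),(41,1)]),(5622372,[(537,1),(184,1),(42,1),(8,1),(1,5)]),(1423234,[(580,1),(178,1),(1,1)]),(1302428,[(618,1),(169,1)]),(7692308,[(650,1),(169,1)]),(6154822,[(667,1),(169,1)]),(1275622,[(593,1),(178,1),(44,1),(7,1)]),(2060051,[(727,1),(41,2),(7,1)]),(5509629,[(537,1),(227,1),(1,3)]),(143054622,[(576,1),(169,1),(41,1)]),(4445,[(48,17),(1,29)]),(48814617,[(537,1),(178,1),(41,2),(7,3)]),(1526717,[(655,1),(169,1)]),(165255,[(591,1),(42,6),(1,2)]),(1367580,[(603,1),(169,1),(1,4)]),(688818,[(537,1),(46,3),(42,4),(1,2)]),(1287604,[(659,1),(169,1)]),(1060352,[(591,1),(169,1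),(48,1),(1,37)]),(1494767,[(669,1),(171,1),(1,5)]),(19337061,[(537,1),(178,1),(41,1),(1,20)]),(8785262,[(589,1),(169,1)]),(364081432,[(537,1),(169,1),(41,1),(7,1),(1,1)]),(1724730,[(537,1),(182,1),(41,1),(7,1)]),(25781676,[(653,1),(169,1)]),(1730103,[(578,1),(178,1),(41,1),(7,3)]),(62778270,[(537,1),(169,1),(42,1),(7,4)]),(3156750,[(537,1),(180,1),(41,2),(7,3)]),(1340434,[(537,1),(222,1)]),(2806886,[(644,1),(169,1)]),(634074,[(537,1),(171,1),(55,2)]),(1755883,[(537,1),(203,1),(41,2)]),(3559307,[(537,1),(171,1),(42,3),(1,11)]),(1900930,[(676,1),(169,1)]),(217428,[(537,1),(171,1),(48,2),(9,2)]),(1463060,[(702,1),(41,2)]),(5459034,[(169,5)]),(1244234,[(691,1),(41,2)]),(21451629,[(537,1),(178,1),(44,1),(41,1),(7,3)]),(8991645,[(640,1),(169,1)]),(119377504,[(537,1),(169,1),(41,1),(8,1)]),(1675980,[(537,1),(207,1),(48,1),(9,1),(7,3)]),(2295679,[(569,1),(169,1),(46,1),(42,1),(9,2),(1,1)]),(6702168,[(537,1),(192,1),(41,2),(9,1)]),(1577976,[(663,1),(169,1)]),(847537,[(636,1),(171,1)]),(1599966,[(708,1),(41,2),(7,4)]),(1113192,[(636,1),(169,1),(9,4),(1,4)]),(3063701,[(770,1)]),(2624799,[(789,1)]),(6445419,[(795,1)]),(2636779,[(821,1)]),(1995720,[(838,1)])]⟩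
def D53 : List Lev := d53 :: D52
theorem c53 : checkLev mm PP QQ bb d53 D52 = true := by decide +kernel
theorem g53 : Good mm PP QQ bb D53 := ⟨c53, g52⟩

def d54 : Lev := ⟨981, 502731239, 1441, 6, [(12890838,[(653,2),(41,3)]),(763359,[(655,2),(48,1),(41,2)]),(332201806,[(537,2),(169,2)]),(22666663,[(981,1),(195,1),(178,1),(41,2)]),(1755883,[(981,1),(203,1),(171,1),(42,2)]),(711617,[(580,2),(169,1),(42,2),(7,4)]),(827798,[(640,2),(48,3)]),(2777164,[(981,1),(192,2),(44,1),(8,4)]),(2047386,[(667,2),(44,2)]),(1001905,[(650,2),(44,3)]),(2060051,[(727,1),(667,1),(44,1)]),(3063701,[(770,1),(650,1),(7,3)]),(1141375,[(838,1),(563,1)]),(854346,[(838,1),(576,1)]),(64888241,[(576,2),(178,1),(42,1),(41,1),(7,4)]),(2811186,[(981,1),(184,2),(44,1),(41,1),(7,1)]),(683790,[(603,2),(227,1)]),(747384,[(669,2),(42,2)]),(643802,[(659,2),(41,3)]),(819990,[(591,2),(178,1),(41,1)]),(1147840,[(569,2),(192,1),(42,2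)]),(33875298,[(537,2),(169,2),(1,29)]),(8785262,[(589,1),(576,1),(178,1),(42,2),(7,2)]),(22383550,[(981,1),(41,11)]),(1724730,[(981,1),(195,1),(182,1),(41,2)]),(292461,[(691,1),(563,1),(169,1)]),(1730103,[(821,1),(578,1),(7,6)]),(40707896,[(981,1),(41,9),(7,13)]),(651214,[(618,2),(169,1)]),(3156750,[(981,1),(195,1),(180,1),(41,2)]),(2806886,[(795,1),(644,1)]),(951773,[(691,1),(537,1),(207,1),(1,6)]),(3668026,[(640,2),(42,3),(7,5)]),(2103607,[(981,1),(178,2),(46,2)]),(950465,[(676,2),(41,2),(7,1)]),(3638534,[(795,1),(576,1)]),(731530,[(702,2),(8,2),(7,3)]),(20984136,[(981,1),(178,2)]),(154917,[(981,1),(207,2),(46,1)]),(640040,[(981,1),(44,10)]),(2412920,[(981,1),(227,2)]),(2498615,[(981,1),(171,2)]),(637811,[(593,2),(178,1),(41,1)]),(5952375,[(537,2),(169,2),(9,3),(1,2)]),(60245,[(981,1),(55,6),(41,3),(7,1)]),(788988,[(663,2),(44,2)]),(414375,[(981,1),(246,1),(207,1),(7,1)]),(799983,[(708,2)]),(980365,[(636,2),(169,1)]),(3652661,[(981,1),(42,9),(41,2)]),(2624799,[(789,1),(650,1)]),(22485632,[(981,1),(169,2),(41,2),(8,5)]),(906677,[(821,1),(537,1),(55,1),(7,4)]),(670217,[(981,1),(222,2)]),(348670061,[(981,1)])]⟩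
def D54 : List Lev := d54 :: D53
theorem c54 : checkLev mm PP QQ bb d54 D53 = true := by decide +kernel
theorem g54 : Good mm PP QQ bb D54 := ⟨c54, g53⟩

def d55 : Lev := ⟨1126, 222581053, 1518, 6, [(1275622,[(593,1),(537,1),(178,1),(169,1),(41,1)]),(1960729,[(636,1),(537,1),(169,2),(7,1)]),(20085906,[(537,2),(169,2),(41,2),(8,3)]),(26144699,[(1126,1),(195,1),(169,1),(7,4)]),(92041,[(537,1),(203,4),(169,1)]),(931864,[(659,1),(640,1),(178,1),(41,1)]),(4757321,[(537,2),(184,1),(178,1),(41,2)]),(379459,[(669,2),(41,2),(7,14)]),(3077411,[(667,2),(169,1),(7,2),(1,1)]),(6445419,[(795,1),(537,1),(169,1),(9,1),(7,1),(1,1)]),(2060051,[(727,1),(537,1),(169,1),(41,2),(1,3)]),(1578375,[(537,2),(180,2),(41,2),(1,2)]),(1302428,[(618,1),(169,5),(41,1),(7,2)]),(2286992,[(640,1),(537,1),(169,1),(48,1),(41,3),(1,1)]),(25781676,[(653,1),(537,1),(41,8)]),(1675980,[(770,1),(537,1),(207,1),(1,4)]),(22727250,[(1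126,1),(178,1),(169,1),(44,1),(1,1)]),(6702168,[(537,2),(192,1),(169,1),(41,2),(1,1)]),(1724730,[(537,2),(182,1),(178,1),(41,2),(1,2)]),(1639980,[(838,1),(591,1),(41,2),(7,1)]),(35265747,[(537,2),(178,2),(41,2),(1,6)]),(355740,[(838,1),(659,1),(7,3)]),(28087332,[(169,8),(41,4),(1,2)]),(31677219,[(1126,1),(41,9),(8,2),(7,1)]),(865052,[(578,2),(184,1),(178,1)]),(1244234,[(691,1),(589,1),(169,1),(41,1),(7,4)]),(735850,[(821,1),(669,1),(7,4)]),(1147840,[(569,2),(169,2),(7,6)]),(939820,[(1126,1),(169,2),(9,6)]),(124047778,[(1126,1),(169,2),(42,1),(7,1),(1,5)]),(1403443,[(644,2),(195,1),(7,5)]),(502731240,[(981,1),(537,1)]),(11014446,[(537,2),(178,1),(169,1),(42,1),(41,1),(7,2)]),(6753112,[(1126,1),(178,1),(171,1),(41,1),(1,2)]),(5772791,[(650,1),(640,1),(178,1),(41,1),(9,1)]),(1367580,[(603,1),(563,1),(169,2),(7,2)]),(1463060,[(702,1),(537,1),(169,1),(41,2),(7,4)]),(33128,[(563,2),(178,2),(7,5),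(1,1)]),(6358250,[(1126,1),(178,2),(7,5),(1,1)]),(3770515,[(589,2),(169,1),(41,4),(7,1)]),(5509629,[(537,2),(227,1),(169,1),(41,1),(7,1)]),(7778671,[(537,2),(169,2),(41,2),(7,3),(1,3)]),(1387721,[(770,1),(537,1),(203,1),(8,1)]),(959759,[(650,2),(169,1),(48,1),(1,1)]),(2624799,[(789,1),(537,1),(178,1),(7,2)]),(788988,[(663,2),(178,1),(7,2)]),(1900930,[(821,1),(676,1),(7,3)]),(1599966,[(708,1),(537,1),(169,1),(41,2),(7,3),(1,1)]),(763359,[(655,2),(41,5),(1,3)]),(2181066,[(537,2),(169,2),(46,2),(7,2)]),(711617,[(580,2),(178,2),(1,2)]),(414375,[(537,2),(246,1),(169,1),(7,4),(1,1)]),(71527311,[(576,2),(169,2),(7,4)]),(1340434,[(1126,1),(222,1),(169,1),(1,1)]),(253630,[(537,2),(169,1),(55,5)]),(2592496,[(1126,1),(7,56)])]⟩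
def D55 : List Lev := d55 :: D54
theorem c55 : checkLev mm PP QQ bb d55 D54 = true := by decide +kernel
theorem g55 : Good mm PP QQ bb D55 := ⟨c55, g54⟩

def d56 : Lev := ⟨1139, 4878948, 1525, 6, [(1275622,[(593,1),(580,1),(169,2),(7,2)]),(2060051,[(795,1),(727,1)]),(96553267,[(1126,1),(169,2),(41,1),(7,2),(1,6)]),(15148564,[(1126,1),(169,2),(42,1),(8,2)]),(1675980,[(576,1),(537,1),(207,1),(41,5)]),(1730103,[(653,1),(578,1),(169,1),(42,2),(41,1)]),(1463060,[(702,1),(653,1),(169,1),(1,1)]),(52161922,[(537,2),(41,11)]),(2826935,[(667,2),(169,1),(8,1),(7,2)]),(500953,[(838,1),(667,1),(8,2)]),(27548142,[(576,2),(195,1),(169,1),(8,1),(1,1)]),(3156750,[(1126,1),(180,1),(178,1),(41,1)]),(1901688,[(576,2),(169,2),(1,35)]),(4385369,[(795,1),(537,1),(169,1),(8,3)]),(4392631,[(589,2),(169,2),(8,1)]),(3063701,[(770,1),(537,1),(169,1),(41,1),(8,1)]),(22727250,[(1126,1),(169,2),(44,1),(7,2)]),(1599966,[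(708,1),(640,1),(169,1),(8,1)]),(10508201,[(653,1),(576,1),(169,1),(42,3)]),(1494767,[(838,1),(669,1),(8,2)]),(70408351,[(1126,1),(178,2),(41,1),(1,2)]),(1367580,[(603,1),(576,1),(169,2),(8,1)]),(5509629,[(576,1),(537,1),(227,1),(169,1),(8,2)]),(236000,[(636,1),(537,1),(169,2),(8,1)]),(62375,[(644,1),(537,1),(171,2)]),(1433835,[(576,1),(563,1),(169,2),(48,1)]),(1058804,[(821,1),(659,1),(41,1),(1,4)]),(2295679,[(576,1),(569,1),(169,2),(42,1)]),(1340434,[(1126,1),(222,1),(169,1),(8,1)]),(284342,[(537,2),(169,2),(48,2),(8,2)]),(1268147,[(1126,1),(169,2),(55,1),(1,6)]),(155817519,[(981,1),(537,1)]),(2744511,[(644,1),(537,1),(169,2)]),(1724730,[(636,1),(537,1),(182,1),(169,1)]),(7692308,[(650,1),(537,1),(169,2)]),(819990,[(591,2),(169,2),(1,5)]),(4878949,[(1139,1),(169,2),(41,1),(7,1)]),(1755883,[(576,2),(203,1),(169,1)]),(346913722,[(981,1),(537,1),(7,1)]),(12080313,[(653,1),(537,1),(169,1),(41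,4)]),(1526717,[(655,1),(537,1),(169,1),(41,4)]),(23905618,[(169,9),(1,4)]),(7616164,[(1126,1),(169,2),(41,1),(9,2),(1,2)]),(1244234,[(691,1),(576,1),(169,1),(48,1),(41,1)]),(2624799,[(789,1),(537,1),(169,1),(9,1),(7,3)]),(114400,[(659,2),(41,5),(1,2)]),(1577976,[(821,1),(663,1),(41,1)]),(2811186,[(537,2),(184,2),(42,1),(41,1)]),(39910995,[(537,2),(169,2),(42,2),(7,4),(1,1)]),(4362131,[(1126,1),(169,2),(46,1),(8,1),(7,1)]),(73806,[(580,2),(192,1),(169,1),(1,4)]),(6628362,[(576,2),(192,1),(171,1),(8,1),(1,2)]),(21675672,[(576,2),(169,2),(7,4)]),(1302428,[(618,1),(537,1),(169,2),(8,4)]),(414375,[(537,2),(246,1),(41,5)]),(950465,[(676,2),(169,1),(1,4)]),(7391680,[(640,1),(537,1),(169,2),(8,1)])]⟩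
def D56 : List Lev := d56 :: D55
theorem c56 : checkLev mm PP QQ bb d56 D55 = true := by decide +kernel
theorem g56 : Good mm PP QQ bb D56 := ⟨c56, g55⟩

def d57 : Lev := ⟨1150, 4256900, 1531, 6, [(980365,[(636,2),(169,1),(41,2),(8,1)]),(1340434,[(1126,1),(222,1),(169,1),(7,2)]),(2403961,[(770,1),(537,1),(169,1),(48,1),(7,1)]),(5340856,[(650,1),(537,1),(169,2)]),(12428777,[(981,1),(169,3),(42,1),(1,1)]),(950465,[(676,2),(178,1),(1,1)]),(751487,[(838,1),(650,1),(42,1)]),(1639980,[(591,1),(537,1),(227,1),(169,1),(7,1)]),(12030886,[(178,1),(169,8),(1,1)]),(1244234,[(838,1),(691,1),(1,2)]),(2624799,[(789,1),(537,1),(41,5)]),(1724730,[(1139,1),(182,1),(169,1),(41,1)]),(3156750,[(1126,1),(180,1),(169,1),(41,1),(7,2),(1,1)]),(788988,[(663,2),(41,5)]),(1077997,[(1139,1),(171,1),(169,1),(44,1),(7,1),(1,1)]),(2060051,[(727,1),(537,1),(169,1),(42,2),(7,2)]),(25781676,[(653,1),(537,1),(169,2),(1,3)]),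(3077411,[(667,2),(169,1),(7,4)]),(659741,[(770,1),(537,1),(169,1),(41,1),(7,2)]),(865052,[(578,2),(169,1),(42,1),(41,4)]),(3369273,[(640,1),(537,1),(178,1),(169,1),(7,1)]),(6445419,[(795,1),(537,1),(192,1),(7,1)]),(3869649,[(1126,1),(227,1),(178,1)]),(1463060,[(702,1),(537,1),(169,1),(41,3)]),(643802,[(659,2),(171,1),(41,1),(1,1)]),(8928563,[(1126,1),(169,2),(42,1),(9,2),(7,1)]),(1433835,[(589,1),(563,1),(169,2),(41,1)]),(813135,[(580,1),(537,1),(203,1),(169,1),(41,1)]),(2806886,[(644,1),(169,5),(42,1)]),(1302428,[(618,1),(537,1),(207,1),(169,1)]),(90515972,[(537,2),(169,1),(42,1),(41,6)]),(75792802,[(981,1),(537,1),(8,1),(1,5)]),(21392506,[(1126,1),(169,2),(44,1),(8,2),(7,1)]),(1367580,[(603,1),(589,1),(169,2)]),(88221933,[(1126,1),(169,2),(41,1),(7,3),(1,5)]),(1142013,[(821,1),(537,1),(171,1)]),(1702671,[(1139,1),(169,2),(42,1),(8,1)]),(1599966,[(708,1),(650,1),(169,1),(1,4)]),(414509662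,[(981,1),(537,1),(7,1)]),(1494767,[(821,1),(669,1),(41,1)]),(1526717,[(655,1),(537,1),(169,2),(1,1)]),(942749,[(537,2),(203,1),(169,1),(42,2)]),(842790,[(569,2),(169,2),(48,1),(7,1)]),(610099,[(580,1),(569,1),(169,2),(42,1)]),(4362131,[(1126,1),(169,2),(46,1),(7,3)]),(256749,[(1126,1),(192,1),(169,1),(44,1)]),(637811,[(593,2),(169,2),(7,1)]),(61876590,[(1126,1),(178,2),(41,1),(7,1),(1,1)]),(1627614,[(1126,1),(171,2),(42,1),(7,3)]),(373553,[(1139,1),(207,1),(169,1),(8,2)]),(27548142,[(1126,1),(195,1),(169,1),(41,1)]),(4202568,[(537,2),(169,2),(42,2),(7,5)]),(71527311,[(576,2),(169,2),(41,1)]),(634074,[(537,2),(171,1),(169,1),(55,2),(7,1)]),(414375,[(537,2),(246,1),(169,1),(42,1)]),(5622372,[(640,1),(537,1),(184,1),(169,1)]),(2991924,[(589,2),(169,2),(8,1),(7,1)]),(4256901,[(1150,1),(169,2),(41,1)])]⟩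
def D57 : List Lev := d57 :: D56
theorem c57 : checkLev mm PP QQ bb d57 D56 = true := by decide +kernel
theorem g57 : Good mm PP QQ bb D57 := ⟨c57, g56⟩

def d58 : Lev := ⟨1178, 9489312, 1546, 6, [(216131,[(569,2),(195,1),(169,1),(44,1)]),(763359,[(655,2),(195,1),(41,1)]),(6445419,[(795,1),(537,1),(169,1),(42,1),(1,3)]),(4758846,[(653,1),(576,1),(192,1),(42,2),(41,1)]),(1097782,[(537,2),(169,2),(46,2),(42,1)]),(1302428,[(618,1),(589,1),(169,2)]),(1599966,[(838,1),(708,1)]),(4878949,[(1139,1),(195,1),(169,1),(42,1)]),(6154822,[(667,1),(537,1),(169,2),(1,4)]),(1287604,[(659,1),(537,1),(178,1),(169,1),(1,3)]),(2166568,[(537,2),(171,2),(46,1),(42,2)]),(6640122,[(653,2),(195,1),(44,1)]),(2060051,[(727,1),(650,1),(169,1)]),(1675980,[(770,1),(569,1),(207,1)]),(622117,[(691,2),(41,4)]),(395755,[(838,1),(537,1),(171,1)]),(1387721,[(770,1),(653,1),(41,3)]),(683790,[(603,2),(171,1),(169,1)]),(2858133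,[(537,2),(169,2),(42,3)]),(1268147,[(981,1),(169,3),(55,1)]),(11028876,[(981,1),(537,1),(1,28)]),(1340434,[(576,2),(222,1),(171,1)]),(1724730,[(1150,1),(182,1),(169,1),(44,1)]),(1433835,[(981,1),(563,1)]),(1275622,[(702,1),(593,1),(169,1),(41,2)]),(4733340,[(981,1),(227,1),(169,2)]),(2624799,[(789,1),(576,1),(180,1)]),(1412686,[(650,2),(41,6)]),(187439,[(702,1),(569,1),(192,1),(42,1),(41,1)]),(414375,[(981,1),(246,1),(195,1),(42,1),(41,2)]),(1960729,[(636,1),(576,1),(169,1),(42,1),(41,3)]),(124999875,[(981,1),(537,1),(8,1),(1,5)]),(105816656,[(537,2),(178,1),(169,1),(41,3)]),(776289,[(1150,1),(227,1),(169,1)]),(5952375,[(981,1),(537,1),(9,3),(1,1)]),(169772885,[(981,1),(537,1),(7,4)]),(222581054,[(1126,1),(169,2),(41,2)]),(2636779,[(821,1),(640,1),(42,2)]),(176472486,[(981,1),(537,1),(7,1)]),(36869192,[(576,2),(178,1),(169,1),(42,1)]),(3246751,[(537,2),(169,2),(48,1),(42,2)]),(1494767,[(66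9,1),(537,1),(169,2),(1,2)]),(5622372,[(981,1),(184,1),(169,2),(42,1)]),(1577976,[(663,1),(537,1),(169,2),(7,1)]),(2806886,[(650,1),(644,1),(169,1),(42,1),(41,1)]),(4715423,[(537,2),(169,2),(44,3),(1,2)]),(9489313,[(1178,1),(195,1),(169,1)]),(1755883,[(1150,1),(203,1),(192,1)]),(1900930,[(676,1),(576,1),(169,1),(42,2),(41,1)]),(1639980,[(591,1),(576,1),(169,2),(41,1)]),(865052,[(578,2),(195,2)]),(115837,[(580,2),(169,2),(41,1)]),(18647923,[(576,2),(169,2),(41,1)]),(1032677,[(981,1),(195,1),(42,1),(41,8)]),(7247901,[(576,1),(169,5),(42,2),(41,1)]),(531952,[(576,1),(537,1),(180,1),(169,1),(42,2)]),(7482834,[(589,1),(576,1),(169,2),(42,1)]),(6354866,[(653,1),(640,1),(169,1),(42,2)]),(1191560,[(580,1),(576,1),(195,2)])]⟩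
def D58 : List Lev := d58 :: D57
theorem c58 : checkLev mm PP QQ bb d58 D57 = true := by decide +kernel
theorem g58 : Good mm PP QQ bb D58 := ⟨c58, g57⟩

end MP_a18a3c_h2
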