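import Pool.Agent.W_MP_a18a3c_h2.Data0

/-! Numerical data (machine generated): the levels of the list of jobs with their packings. -/

namespace MP_a18a3c_h2

set_option maxRecDepth 100000

def d59 : Lev := ⟨1199, 5704685, 1557, 6, [(1275622,[(789,1),(593,1),(169,1)]),(1902230,[(650,2),(169,1),(41,2)]),(6445419,[(795,1),(537,1),(169,1),(42,1),(1,3)]),(711617,[(580,2),(227,1),(169,1)]),(591726,[(537,2),(169,2),(46,2),(42,1)]),(1960729,[(636,1),(537,1),(169,2),(42,1)]),(1599966,[(838,1),(708,1)]),(1900930,[(676,1),(537,1),(169,2)]),(6154822,[(667,1),(537,1),(169,2),(1,4)]),(1287604,[(659,1),(537,1),(192,1),(169,1)]),(3178679,[(537,2),(171,2),(46,1),(42,2)]),(414375,[(770,1),(537,1),(246,1)]),(4392631,[(589,2),(169,2),(41,1)]),(7261543,[(640,1),(537,1),(169,2),(41,1)]),(622117,[(691,2),(169,1)]),(395755,[(838,1),(537,1),(171,1)]),(76227,[(770,2)]),(141325,[(981,1),(537,1)]),(10305390,[(537,2),(16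9,2),(42,3)]),(1526717,[(655,1),(537,1),(192,1),(169,1)]),(10962525,[(981,1),(537,1),(1,28)]),(1730103,[(640,1),(578,1),(169,2)]),(473989,[(603,1),(537,1),(169,1),(41,6)]),(1433835,[(981,1),(563,1)]),(862292,[(644,1),(537,1),(203,1),(169,1)]),(1268147,[(537,2),(169,2),(55,1),(41,2)]),(15460136,[(537,2),(178,2),(42,3)]),(8909439,[(537,1),(169,6)]),(893592,[(603,1),(537,1),(203,1),(169,1),(41,1)]),(5622372,[(1199,1),(184,1),(169,1)]),(1194446,[(770,1),(537,1),(207,1),(41,1)]),(124999876,[(981,1),(537,1),(8,1),(1,5)]),(107534096,[(537,2),(178,1),(169,1),(41,3)]),(290803,[(591,1),(537,1),(178,1),(169,1),(41,2)]),(5952375,[(981,1),(537,1),(9,3),(1,1)]),(213891007,[(981,1),(537,1),(7,4)]),(222581054,[(1126,1),(169,2),(41,2)]),(2563608,[(821,1),(653,1),(42,1),(41,1)]),(481535,[(644,1),(537,1),(207,1),(169,1)]),(1302428,[(770,1),(618,1),(169,1)]),(3246750,[(537,2),(169,2),(48,1),(42,2)]),(1494767,[(669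,1),(537,1),(169,2),(1,2)]),(4256901,[(1150,1),(195,1),(169,1),(42,1)]),(1577976,[(663,1),(537,1),(169,2),(7,1)]),(73172,[(821,1),(537,1),(195,1)]),(7575750,[(537,2),(169,2),(44,3),(1,2)]),(1724730,[(537,2),(182,1),(169,1),(41,3)]),(1340434,[(537,2),(222,1),(178,1),(42,1),(41,1)]),(1578375,[(537,2),(180,2),(41,3)]),(3887849,[(650,1),(537,1),(192,1),(178,1)]),(1463060,[(702,1),(644,1),(169,1),(42,1)]),(143054622,[(981,1),(576,1)]),(82314,[(1199,1),(169,2)]),(2295679,[(981,1),(569,1)]),(4798012,[(537,2),(227,1),(169,1),(42,2)]),(4878949,[(1139,1),(169,1),(42,3),(41,3)]),(23218069,[(653,1),(537,1),(195,1),(169,1)]),(1349177,[(789,1),(591,1),(169,1)]),(2060051,[(727,1),(537,1),(169,1),(42,1),(41,2)]),(9489313,[(1178,1),(169,2),(41,1)])]⟩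
def D59 : List Lev := d59 :: D58
theorem c59 : checkLev mm PP QQ bb d59 D58 = true := by decide +kernel
theorem g59 : Good mm PP QQ bb D59 := ⟨c59, g58⟩

def d60 : Lev := ⟨1244, 4454719, 1581, 6, [(1275622,[(789,1),(593,1),(169,1)]),(495070,[(650,2),(169,1),(41,2)]),(6445419,[(795,1),(537,1),(169,1),(42,1),(1,3)]),(3057769,[(1199,1),(178,2),(8,3),(1,2)]),(1403443,[(644,2),(46,1),(41,6),(1,1)]),(910139,[(636,1),(603,1),(171,2)]),(1599966,[(838,1),(708,1)]),(73629,[(603,2),(55,6),(44,1)]),(3077411,[(667,2),(41,6)]),(1287604,[(676,1),(659,1),(41,6)]),(8785262,[(981,1),(589,1)]),(451984,[(1139,1),(44,10)]),(414375,[(1139,1),(246,1),(178,1)]),(7261543,[(640,1),(537,1),(169,2),(41,1)]),(622117,[(691,2),(169,1)]),(395755,[(838,1),(537,1),(171,1)]),(91944688,[(537,2),(169,3)]),(891035,[(1199,1),(44,4),(41,5)]),(349452,[(636,2),(48,6)]),(15975,[(655,2),(227,1),(44,1)]),(11097401,[(981,1),(537,1),(1,28)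]),(1730103,[(640,1),(578,1),(169,2)]),(3868836,[(1139,1),(178,2),(41,2)]),(1433835,[(981,1),(563,1)]),(1617327,[(1150,1),(171,2),(44,2)]),(306664,[(676,2),(184,1),(44,1),(1,1)]),(40273935,[(537,2),(178,2),(42,3)]),(731530,[(702,2),(44,4)]),(711617,[(580,2),(178,2),(46,1)]),(1755883,[(1199,1),(203,1),(178,1)]),(1675980,[(770,1),(537,1),(207,1),(41,1)]),(115826569,[(981,1),(537,1),(8,1),(1,5)]),(37645480,[(537,2),(178,1),(169,1),(41,3)]),(290803,[(591,1),(537,1),(178,1),(169,1),(41,2)]),(5952375,[(981,1),(537,1),(9,3),(1,1)]),(214285500,[(981,1),(537,1),(7,4)]),(197920204,[(1126,1),(169,2),(41,2)]),(1754944,[(821,1),(653,1),(42,1),(41,1)]),(788988,[(663,2),(46,1),(44,1),(41,4)]),(693861,[(770,2),(41,1)]),(2657855,[(1126,1),(184,2),(44,1),(41,1)]),(1494767,[(669,1),(655,1),(44,3),(41,3)]),(2639575,[(1150,1),(195,1),(169,1),(42,1)]),(651214,[(618,2),(171,2)]),(881836,[(821,1),(537,1),(195,1)]),(19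256170,[(1126,1),(41,11),(1,4)]),(1724730,[(537,2),(182,1),(169,1),(41,3)]),(1340434,[(537,2),(222,1),(178,1),(42,1),(41,1)]),(1578375,[(537,2),(180,2),(41,3)]),(6702168,[(650,1),(537,1),(192,1),(178,1)]),(155093,[(603,2),(55,1),(46,6),(44,1)]),(143054622,[(981,1),(576,1)]),(143755,[(1139,1),(55,1),(48,8)]),(2295679,[(981,1),(569,1)]),(2746827,[(1126,1),(227,2)]),(175844,[(636,2),(55,3),(46,3)]),(24026732,[(653,1),(537,1),(195,1),(169,1)]),(1349177,[(789,1),(591,1),(169,1)]),(2060051,[(727,1),(537,1),(169,1),(42,1),(41,2)]),(9489313,[(1178,1),(169,2),(41,1)]),(4454720,[(1244,1),(169,1),(41,4)])]⟩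
def D60 : List Lev := d60 :: D59
theorem c60 : checkLev mm PP QQ bb d60 D59 = true := by decide +kernel
theorem g60 : Good mm PP QQ bb D60 := ⟨c60, g59⟩

def d61 : Lev := ⟨1301, 19329107, 1611, 6, [(2624799,[(789,1),(640,1),(169,1)]),(2756853,[(650,2),(169,1),(41,2)]),(1268147,[(1301,1),(171,1),(55,1),(41,2),(1,2)]),(5937844,[(1301,1),(178,1),(44,3)]),(37220,[(727,1),(640,1),(180,1),(7,9),(1,1)]),(862365,[(1126,1),(182,2),(8,15),(1,1)]),(2393622,[(667,2),(171,1),(7,15),(1,1)]),(12890838,[(653,2),(178,1),(41,3),(1,4)]),(354854,[(1126,1),(203,2),(46,1),(7,4),(1,5)]),(4256901,[(1150,1),(178,2),(42,2),(7,3)]),(8785262,[(981,1),(589,1)]),(18363228,[(1126,1),(178,2),(42,3),(1,3)]),(723045,[(640,1),(192,5),(7,1),(1,4)]),(1095651,[(770,1),(655,1),(178,1),(7,1),(1,1)]),(622117,[(691,2),(169,1)]),(27112,[(821,1),(727,1),(48,1)]),(4007277,[(1126,1),(178,2),(46,1),(41,2),(1,1)]),(5704686,[(1199,1),(178,2)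,(42,1),(9,1),(1,5)]),(837990,[(1126,1),(207,2),(42,1),(7,4),(1,1)]),(1046176,[(1126,1),(203,1),(192,1),(41,2),(7,1),(1,1)]),(23302406,[(981,1),(537,1),(1,28)]),(1302428,[(981,1),(618,1),(9,1),(1,3)]),(4878949,[(1139,1),(178,2),(41,2)]),(1433835,[(981,1),(563,1)]),(2413950,[(1244,1),(178,2),(7,1),(1,4)]),(12123117,[(1301,1),(178,1),(42,3),(1,6)]),(50055,[(1126,1),(171,2),(48,2),(7,6),(1,5)]),(1730103,[(981,1),(578,1),(42,1),(9,1)]),(788988,[(663,2),(178,1),(8,13),(1,3)]),(2806886,[(795,1),(644,1),(169,1)]),(651423,[(1126,1),(178,2),(9,14),(1,3)]),(1275622,[(981,1),(593,1),(7,5),(1,2)]),(2482189,[(178,9)]),(1639980,[(981,1),(591,1),(8,4),(7,1)]),(1423234,[(981,1),(580,1),(44,1),(1,6)]),(179943066,[(981,1),(537,1),(7,4)]),(171569559,[(1126,1),(169,2),(41,2)]),(643802,[(659,2),(178,1),(41,2),(7,4),(1,5)]),(799983,[(708,2),(169,1)]),(1968050,[(770,1),(640,1),(169,1)]),(670217,[(1126,1),(222,2),(7,5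),(1,6)]),(1995720,[(838,1),(727,1),(44,1),(1,2)]),(3800349,[(1126,1),(178,2),(8,16),(1,1)]),(731530,[(702,2),(195,1),(8,1),(1,4)]),(13408306,[(1126,1),(195,2),(42,2),(7,1),(1,4)]),(2230308,[(1126,1),(184,2),(8,14),(1,5)]),(747384,[(669,2),(184,1),(44,2),(1,1)]),(1559766,[(1126,1),(180,2),(48,2),(7,4),(1,1)]),(431066,[(821,1),(655,1),(41,3),(7,1),(1,5)]),(2178603,[(821,1),(650,1),(7,20)]),(2040770,[(1244,1),(192,1),(171,1)]),(143054622,[(981,1),(576,1)]),(180890645,[(537,3)]),(2295679,[(981,1),(569,1)]),(2754815,[(1126,1),(227,2)]),(980365,[(636,2),(169,2)]),(950465,[(676,2),(171,1),(41,2),(1,6)]),(136545010,[(981,1),(169,3),(41,3)]),(414375,[(1126,1),(246,1),(184,1),(8,6),(7,1)]),(9489313,[(1178,1),(169,2),(41,1)]),(1367580,[(667,1),(603,1),(169,2)]),(3638534,[(795,1),(640,1),(169,1)])]⟩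
def D61 : List Lev := d61 :: D60
theorem c61 : checkLev mm PP QQ bb d61 D60 = true := by decide +kernel
theorem g61 : Good mm PP QQ bb D61 := ⟨c61, g60⟩

def d62 : Lev := ⟨1342, 30381531, 1633, 6, [(1494767,[(789,1),(669,1),(169,1)]),(7692308,[(981,1),(650,1)]),(1340434,[(655,1),(576,1),(222,1),(178,1)]),(4256901,[(1150,1),(178,2),(42,3)]),(8991645,[(981,1),(640,1)]),(355229,[(1301,1),(178,1),(48,3),(7,1)]),(4955049,[(1178,1),(178,2),(41,2),(9,1),(7,1)]),(17747917,[(653,1),(576,1),(178,2),(41,1)]),(222581054,[(1126,1),(169,3)]),(414375,[(1342,1),(246,1),(42,1)]),(8785262,[(981,1),(589,1)]),(4454720,[(1244,1),(178,1),(169,1),(42,1)]),(695713,[(676,1),(569,1),(178,1),(169,1),(41,1)]),(458310,[(770,1),(653,1),(169,1),(41,1)]),(1024383,[(1342,1),(178,1),(42,2),(7,4)]),(5220223,[(1342,1),(227,1),(41,1),(9,2)]),(144703,[(1178,1),(227,2)]),(1599966,[(708,1),(569,1),(178,2)]),(3077411,[(667,2),(169,1)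,(41,3),(7,1)]),(140159777,[(981,1),(537,1),(41,2)]),(2811186,[(1178,1),(184,2),(41,2)]),(5704686,[(1199,1),(178,1),(171,1),(44,1),(41,1)]),(4187096,[(1139,1),(178,2),(42,3),(7,1)]),(1433835,[(981,1),(563,1),(41,2),(7,1)]),(353701,[(576,1),(537,1),(178,1),(171,2)]),(2555701,[(981,1),(178,3),(41,2)]),(731530,[(702,2),(178,1),(42,1),(9,1)]),(1730103,[(981,1),(578,1),(42,1),(9,1)]),(341025,[(663,1),(576,1),(182,1),(171,1),(41,1)]),(2806886,[(981,1),(644,1)]),(1287604,[(659,1),(576,1),(178,2),(41,1)]),(6702168,[(1342,1),(192,1),(42,2),(7,2)]),(1030026,[(727,2),(178,1)]),(1639980,[(981,1),(591,1),(42,1)]),(12757799,[(1342,1),(195,1),(41,2),(7,2)]),(830726,[(1342,1),(178,1),(42,2),(1,29)]),(40919117,[(576,1),(537,1),(178,1),(169,2)]),(31389,[(821,1),(593,1),(178,1),(41,1)]),(1675980,[(1342,1),(207,1),(41,2)]),(2605391,[(821,1),(770,1),(42,1)]),(1755883,[(1342,1),(203,1),(41,2)]),(1236951,[(663,1),(58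0,1),(178,1),(169,1),(41,1)]),(31249969,[(981,1),(537,1),(42,1),(41,1),(8,4)]),(186283,[(655,1),(580,1),(178,2),(42,1)]),(1244234,[(691,1),(593,1),(178,1),(169,1)]),(1995720,[(838,1),(576,1),(178,1),(41,1)]),(1578375,[(1178,1),(180,2),(42,2)]),(195181594,[(981,1),(537,1),(41,2),(7,4),(1,5)]),(14790344,[(1301,1),(195,1),(42,3)]),(8511283,[(981,1),(537,1),(44,2)]),(1302428,[(981,1),(618,1),(7,4)]),(79069108,[(981,1),(576,1)]),(109635965,[(537,3)]),(2181066,[(1301,1),(178,1),(48,1),(46,2),(7,2)]),(691853,[(1139,1),(182,2),(42,3)]),(1960729,[(981,1),(636,1)]),(2002471,[(1301,1),(178,1),(41,3),(7,4)]),(7658987,[(981,1),(169,3),(41,3)]),(634074,[(981,1),(537,1),(55,2)]),(602609,[(676,2),(178,1),(41,2),(7,3)]),(1367580,[(981,1),(603,1),(41,1)]),(6445419,[(795,1),(653,1),(169,1)]),(1130032,[(789,1),(653,1),(178,1)])]⟩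
def D62 : List Lev := d62 :: D61
theorem c62 : checkLev mm PP QQ bb d62 D61 = true := by decide +kernel
theorem g62 : Good mm PP QQ bb D62 := ⟨c62, g61⟩

def d63 : Lev := ⟨1354, 5829687, 1639, 6, [(1494767,[(789,1),(669,1),(169,1)]),(7692308,[(981,1),(650,1)]),(1526717,[(981,1),(655,1)]),(4256901,[(1150,1),(178,2),(42,3)]),(8991645,[(981,1),(640,1)]),(488268,[(1139,1),(169,2),(48,3),(9,2)]),(6678127,[(1178,1),(178,2),(41,2),(9,1),(7,1)]),(920134,[(770,1),(691,1),(169,1),(9,1)]),(222231579,[(1126,1),(169,3)]),(414375,[(1342,1),(246,1),(42,1)]),(8785262,[(981,1),(589,1)]),(4454720,[(1244,1),(178,1),(169,1),(42,1)]),(695713,[(676,1),(569,1),(178,1),(169,1),(41,1)]),(1005763,[(667,1),(593,1),(207,1),(169,1)]),(20761531,[(1342,1),(178,1),(42,2),(7,4)]),(93981,[(981,1),(169,3),(42,1),(9,12)]),(1781949,[(1354,1),(195,1),(48,1),(42,1)]),(1599966,[(708,1),(569,1),(178,2)]),(114797,[(667,2),(169,1),(41,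3),(7,1)]),(88881548,[(981,1),(537,1),(41,2)]),(2811186,[(1178,1),(184,2),(41,2)]),(5704686,[(1199,1),(178,1),(171,1),(44,1),(41,1)]),(3528317,[(1139,1),(178,2),(42,3),(7,1)]),(1433835,[(981,1),(563,1),(41,2),(7,1)]),(438971,[(821,1),(203,4)]),(3789435,[(795,1),(667,1),(169,1)]),(731530,[(702,2),(178,1),(42,1),(9,1)]),(1730103,[(981,1),(578,1),(42,1),(9,1)]),(349476,[(1126,1),(171,3)]),(2806886,[(981,1),(644,1)]),(1078009,[(795,1),(659,1),(169,1)]),(6702168,[(1342,1),(192,1),(42,2),(7,2)]),(1030026,[(727,2),(178,1)]),(1639980,[(981,1),(591,1),(42,1)]),(4740910,[(195,4),(169,5)]),(2503460,[(1342,1),(178,1),(42,2),(1,29)]),(22356951,[(576,1),(537,1),(178,1),(169,2)]),(1130032,[(789,1),(667,1),(169,1)]),(1423234,[(981,1),(580,1),(42,1),(9,4)]),(2143567,[(821,1),(770,1),(42,1)]),(104798,[(659,2),(169,1),(46,3)]),(110444538,[(981,1),(576,1),(41,2)]),(30561266,[(981,1),(537,1),(42,1),(41,1),(8,4)]),(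2754815,[(981,1),(227,2),(195,1),(8,1)]),(269859,[(691,1),(593,1),(178,1),(169,1)]),(1995720,[(838,1),(576,1),(178,1),(41,1)]),(350750,[(180,9)]),(185479734,[(981,1),(537,1),(41,2),(7,4),(1,5)]),(54242,[(821,1),(691,1),(42,3)]),(8511283,[(981,1),(537,1),(44,2)]),(1302428,[(981,1),(618,1),(7,4)]),(8257413,[(981,1),(576,1)]),(136497518,[(537,3)]),(4047739,[(1354,1),(195,1),(46,1),(42,1)]),(862365,[(1139,1),(182,2),(42,3)]),(1960729,[(981,1),(636,1)]),(19329108,[(1301,1),(169,2)]),(25781676,[(981,1),(653,1)]),(634074,[(981,1),(537,1),(55,2)]),(602609,[(676,2),(178,1),(41,2),(7,3)]),(1367580,[(981,1),(603,1),(41,1)]),(1577976,[(795,1),(663,1),(169,1)]),(5637782,[(178,9)]),(670217,[(981,1),(222,2),(207,1)])]⟩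
def D63 : List Lev := d63 :: D62
theorem c63 : checkLev mm PP QQ bb d63 D62 = true := by decide +kernel
theorem g63 : Good mm PP QQ bb D63 := ⟨c63, g62⟩

def d64 : Lev := ⟨1388, 7969924, 1657, 6, [(1623375,[(981,1),(578,1),(48,2)]),(7692308,[(981,1),(650,1)]),(1526717,[(981,1),(655,1)]),(106728,[(981,1),(578,1),(41,2)]),(8991645,[(981,1),(640,1)]),(454872,[(1178,1),(195,2)]),(1243559,[(789,1),(691,1),(169,1)]),(1494767,[(981,1),(669,1)]),(164616329,[(1126,1),(169,3)]),(414375,[(1342,1),(246,1),(42,1)]),(690620,[(789,2),(44,1),(7,5)]),(4454720,[(1244,1),(178,1),(169,1),(42,1)]),(1366205,[(1199,1),(195,2),(41,1),(9,3)]),(364289,[(1178,1),(192,2),(8,11),(7,1)]),(1693690,[(1178,1),(195,1),(180,1),(46,2)]),(675,[(770,1),(691,1),(195,1)]),(6976463,[(1178,1),(178,2),(41,3)]),(324918,[(981,1),(537,1),(46,3)]),(1476087,[(1342,1),(195,1),(7,17)]),(7345544,[(981,1),(537,1),(44,3),(7,1)]),(55713688,[(1126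,1),(178,2),(169,1)]),(3460540,[(1199,1),(195,2),(41,1)]),(8785262,[(981,1),(589,1),(42,2)]),(1433835,[(981,1),(563,1),(41,2),(7,1)]),(877942,[(1199,1),(203,2),(41,1)]),(1995720,[(838,1),(795,1)]),(1423234,[(981,1),(580,1),(42,2)]),(1275622,[(981,1),(593,1),(41,2)]),(2251038,[(1126,1),(171,3)]),(2806886,[(981,1),(644,1)]),(2224850,[(795,2),(42,1)]),(5973590,[(1342,1),(192,1),(42,2),(7,2)]),(1030026,[(727,2),(178,1)]),(1639980,[(981,1),(591,1),(42,1)]),(5829688,[(1354,1),(195,1),(41,2),(8,3)]),(2295679,[(981,1),(569,1),(41,2),(9,2),(7,1)]),(1577976,[(981,1),(663,1)]),(64136161,[(537,3),(42,1)]),(1340434,[(1388,1),(222,1),(42,1)]),(1318390,[(821,2)]),(43804528,[(981,1),(169,4)]),(143054622,[(981,1),(576,1),(41,2)]),(15228559,[(981,1),(537,1),(42,1),(41,1),(8,4)]),(1463060,[(770,1),(702,1),(180,1)]),(5622372,[(1342,1),(184,1),(41,3),(8,1)]),(1599966,[(770,1),(708,1),(178,1)]),(9909428,[(981,1),(53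7,1),(41,3)]),(199999801,[(981,1),(537,1),(41,2),(7,4),(1,5)]),(1900930,[(981,1),(676,1)]),(1675980,[(1342,1),(207,1),(41,2),(8,3)]),(1302428,[(981,1),(618,1),(7,4)]),(4878949,[(1139,1),(178,1),(169,2)]),(106688869,[(537,3)]),(7984773,[(1342,1),(195,1),(41,2),(8,4)]),(1724730,[(1342,1),(182,1),(41,3),(9,1)]),(1960729,[(981,1),(636,1)]),(19329108,[(1301,1),(169,2)]),(25781676,[(981,1),(653,1)]),(634074,[(981,1),(537,1),(55,2)]),(6629491,[(1388,1),(178,1),(42,2)]),(1367580,[(981,1),(603,1),(41,1)]),(1287604,[(981,1),(659,1),(9,1)]),(4256901,[(1150,1),(169,3)]),(6154822,[(981,1),(667,1),(9,1)]),(5509629,[(1342,1),(227,1),(41,2)])]⟩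
def D64 : List Lev := d64 :: D63
theorem c64 : checkLev mm PP QQ bb d64 D63 = true := by decide +kernel
theorem g64 : Good mm PP QQ bb D64 := ⟨c64, g63⟩

def d65 : Lev := ⟨1399, 17421765, 1663, 6, [(1294146,[(981,1),(578,1),(48,2)]),(619362,[(838,1),(644,1),(180,1)]),(34281,[(981,1),(618,1),(41,1),(7,3)]),(435957,[(578,1),(537,1),(184,2),(180,1)]),(1960729,[(981,1),(636,1),(41,1)]),(222581054,[(1126,1),(537,1)]),(2101432,[(1199,1),(192,1),(180,1),(41,2),(9,1)]),(1494767,[(981,1),(669,1)]),(1287604,[(981,1),(659,1),(8,2),(7,1)]),(6154822,[(981,1),(667,1),(7,2),(1,1)]),(1312400,[(789,2),(41,2)]),(771217,[(708,1),(569,1),(207,1),(178,1)]),(17421766,[(1399,1),(178,1),(42,2)]),(8991645,[(981,1),(640,1),(42,1)]),(876621,[(838,1),(795,1),(9,3)]),(197973,[(1199,1),(184,2),(48,2)]),(9489313,[(1178,1),(178,2),(41,3)]),(1454044,[(981,1),(537,1),(46,3)]),(452382,[(1199,1),(207,2),(41,1),(9,1)]),(7575750,[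(981,1),(537,1),(44,3),(7,1)]),(1268147,[(981,1),(618,1),(55,1),(7,1)]),(1523567,[(1342,1),(195,1),(41,3)]),(5043070,[(653,2),(178,2)]),(669178,[(563,2),(537,1)]),(1423234,[(727,1),(580,1),(178,2)]),(1724730,[(795,1),(644,1),(182,1),(41,1)]),(762231,[(569,2),(178,2),(169,1)]),(1275622,[(981,1),(593,1),(41,2)]),(1244234,[(795,1),(691,1),(171,1)]),(131257,[(1342,1),(222,1),(48,2)]),(19329108,[(1301,1),(178,2),(1,6)]),(13349406,[(981,1),(653,1),(7,4)]),(636818,[(727,1),(537,1),(178,2),(41,1)]),(2137041,[(821,1),(795,1),(42,1),(1,5)]),(23317286,[(1342,1),(195,1),(42,3)]),(33559831,[(981,1),(576,1),(41,2),(8,3)]),(1577976,[(981,1),(663,1)]),(19138151,[(537,3),(42,1)]),(107160693,[(576,1),(537,2),(7,1),(1,6)]),(462795,[(795,1),(644,1),(222,1)]),(191634689,[(981,1),(169,4)]),(8785262,[(589,1),(537,2)]),(95481,[(702,1),(563,1),(178,2),(41,1)]),(1836293,[(981,1),(171,3),(169,1)]),(4354515,[(1342,1),(184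,1),(41,3),(8,1)]),(499739,[(838,1),(821,1)]),(3063701,[(770,1),(537,1),(178,2)]),(1197018,[(1199,1),(178,2),(41,2),(8,3)]),(1900930,[(981,1),(676,1)]),(1054910,[(1342,1),(227,1),(41,2),(9,1)]),(4454720,[(1244,1),(227,1),(192,1)]),(4878949,[(1139,1),(178,1),(169,2)]),(2346132,[(981,1),(653,1),(9,3)]),(414375,[(708,2),(246,1),(1,1)]),(146017,[(192,1),(178,8),(41,1),(1,6)]),(1367580,[(702,1),(603,1),(178,2),(1,2)]),(3846154,[(650,2),(178,2),(7,1)]),(2334099,[(576,1),(195,1),(178,5)]),(1639980,[(981,1),(591,1),(41,2),(7,1)]),(7969925,[(1388,1),(178,1),(41,2),(8,1),(7,1)]),(1755883,[(1199,1),(203,1),(178,1),(41,2)]),(373191,[(981,1),(222,2),(195,1),(41,1)]),(4256901,[(1150,1),(169,3)]),(1526717,[(981,1),(655,1),(9,3)]),(5829688,[(1354,1),(178,1),(41,3),(8,1)]),(220194548,[(981,1),(537,1),(41,3),(7,3),(1,1)])]⟩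
def D65 : List Lev := d65 :: D64
theorem c65 : checkLev mm PP QQ bb d65 D64 = true := by decide +kernel
theorem g65 : Good mm PP QQ bb D65 := ⟨c65, g64⟩

def d66 : Lev := ⟨1431, 6225124, 1680, 6, [(2754815,[(1199,1),(227,2),(8,3),(1,3)]),(1639980,[(591,1),(537,2),(7,2),(1,1)]),(5829688,[(1354,1),(169,1),(42,3),(1,31)]),(1423234,[(981,1),(580,1),(42,2),(9,3),(1,8)]),(68764016,[(981,1),(178,2),(169,2),(1,5)]),(222581054,[(1126,1),(537,1)]),(2653412,[(981,1),(537,1),(42,3),(9,4)]),(88151,[(981,1),(537,1),(42,3),(8,4),(1,4)]),(1287604,[(981,1),(659,1),(8,2),(7,1)]),(6154822,[(981,1),(667,1),(7,2),(1,1)]),(5111073,[(981,1),(537,1),(44,2),(8,9),(1,2)]),(1223712,[(1244,1),(192,2),(48,1),(1,4)]),(1877352,[(1388,1),(169,1),(8,15),(1,3)]),(8991645,[(981,1),(640,1),(42,1)]),(3231008,[(1244,1),(195,2),(8,5),(1,6)]),(2127373,[(1178,1),(192,2),(42,2),(8,4),(1,2)]),(596316,[(789,1),(708,1),(169,1)]),(1011520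,[(981,1),(593,1),(48,2),(9,1),(1,1)]),(5082004,[(1178,1),(169,2),(41,4)]),(1003651,[(770,1),(708,1),(195,1),(7,1)]),(1959198,[(981,1),(636,1),(46,1),(9,1),(1,8)]),(1367580,[(603,1),(537,2),(1,3)]),(1755883,[(1388,1),(203,1),(44,2),(1,1)]),(1463060,[(789,1),(702,1),(169,1)]),(1433835,[(981,1),(563,1),(42,3),(1,10)]),(143054622,[(981,1),(576,1),(41,3)]),(670217,[(1178,1),(222,2),(42,1),(8,2)]),(2087507,[(1199,1),(169,2),(42,3),(8,2),(1,1)]),(264102,[(981,1),(593,1),(55,1),(44,1)]),(2806886,[(981,1),(644,1),(41,1),(1,14)]),(19329108,[(1301,1),(169,2),(41,1)]),(25781676,[(981,1),(653,1),(7,4)]),(1532,[(981,1),(636,1),(41,1),(9,2),(1,4)]),(414375,[(1431,1),(246,1),(1,3)]),(7692308,[(981,1),(650,1),(42,1),(7,1)]),(3407818,[(1431,1),(169,1),(44,1),(7,5),(1,1)]),(30381532,[(1342,1),(169,2)]),(21165942,[(537,3),(42,1)]),(1494767,[(981,1),(669,1),(7,4)]),(1318390,[(821,2),(1,38)]),(125129840,[(981,1),(1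69,4)]),(8785262,[(589,1),(537,2)]),(2660711,[(1388,1),(195,1),(44,2),(1,9)]),(2251038,[(981,1),(171,3),(169,1)]),(898297,[(981,1),(618,1),(1,81)]),(997860,[(838,2),(1,4)]),(2060051,[(770,1),(727,1),(169,1)]),(1577976,[(981,1),(663,1),(7,5),(1,1)]),(1900930,[(981,1),(676,1)]),(862365,[(1199,1),(182,2),(42,2),(8,4),(1,1)]),(4878949,[(1139,1),(537,1)]),(1730103,[(578,1),(537,2),(7,4)]),(1578375,[(981,1),(180,2),(169,2),(1,1)]),(599914,[(537,3),(55,1),(1,14)]),(1244234,[(981,1),(691,1),(1,8)]),(2295679,[(981,1),(569,1),(42,3),(1,4)]),(1526717,[(981,1),(655,1),(42,1),(1,2)]),(109288768,[(537,3),(41,1),(7,4)]),(1609720,[(1178,1),(184,2),(42,3),(7,1),(1,1)]),(1675980,[(1388,1),(207,1),(42,2),(1,1)]),(282712,[(789,2),(41,2),(1,20)]),(6445419,[(795,1),(537,1),(178,1),(169,1)]),(4256901,[(1150,1),(169,3)]),(2402934,[(1431,1),(184,1),(46,1),(8,2),(1,3)]),(404132,[(981,1),(618,1),(55,1),(8,3)]),(83949636,[(981,1),(537,1),(41,3),(7,3),(1,1)]),(17421766,[(1399,1),(195,1),(42,2),(1,2)])]⟩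
def D66 : List Lev := d66 :: D65
theorem c66 : checkLev mm PP QQ bb d66 D65 = true := by decide +kernel
theorem g66 : Good mm PP QQ bb D66 := ⟨c66, g65⟩

def d67 : Lev := ⟨1444, 11655980, 1687, 6, [(4495823,[(640,2),(195,1),(171,1),(41,1)]),(819990,[(591,2),(169,2),(41,4),(1,3)]),(1011812,[(789,2),(44,2),(7,3)]),(8785262,[(589,1),(537,2),(8,3)]),(11655981,[(1444,1),(178,1),(42,1),(7,3),(1,2)]),(40010,[(44,38),(8,1),(7,1)]),(950465,[(676,2),(171,1),(41,4)]),(4454720,[(1244,1),(178,2),(44,1),(41,1),(1,2)]),(643802,[(659,2),(178,2),(8,1),(1,5)]),(1,[(1399,1),(41,7)]),(148112,[(708,2),(222,1),(48,1),(1,1)]),(5477186,[(169,9),(41,4),(1,2)]),(980365,[(636,2),(222,1),(192,1),(1,1)]),(711617,[(580,2),(169,2),(42,1),(41,3),(8,3)]),(1403443,[(644,2),(180,1),(178,1),(41,1)]),(865052,[(578,2),(169,3),(8,3)]),(11944553,[(1399,1),(41,7),(1,1)]),(2003740,[(195,8),(44,1),(42,1),(41,1)]),(105979,[(650,1),(593,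1),(222,2)]),(30381532,[(1342,1),(169,2),(7,1)]),(584822,[(593,2),(195,1),(178,1),(44,1),(41,2),(1,2)]),(502731240,[(981,1),(537,1),(169,1)]),(300588,[(789,2),(44,2),(1,21)]),(622117,[(691,2),(178,1),(44,1),(42,1),(41,1)]),(731530,[(702,2),(195,1),(42,2),(1,4)]),(716918,[(563,2),(169,3),(42,1),(7,1),(1,5)]),(1770587,[(667,2),(178,1),(169,1),(1,6)]),(683790,[(603,2),(178,2),(41,3),(1,2)]),(19329108,[(1301,1),(169,2),(41,1),(7,1)]),(763359,[(655,2),(195,1),(178,1),(1,4)]),(3222710,[(795,2),(44,2),(8,1),(1,1)]),(4153708,[(1354,1),(195,1),(41,3),(1,15)]),(26823,[(180,9),(55,1),(9,1),(1,3)]),(49352595,[(576,2),(42,2),(41,11)]),(414375,[(1399,1),(246,1),(42,1)]),(205082,[(1399,1),(180,1),(46,2),(7,2),(1,2)]),(3951968,[(1126,1),(169,3),(46,1),(8,1)]),(5704686,[(1199,1),(178,2),(41,3),(9,1)]),(1697280,[(41,41),(1,6)]),(6225125,[(1431,1),(169,1),(41,2),(1,5)]),(218629086,[(1126,1),(537,1),(7,3),(1,3)]),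(1576452,[(1388,1),(178,1),(44,2),(9,3),(1,6)]),(20428077,[(576,2),(169,3),(7,4)]),(1306825,[(667,2),(180,1),(171,1),(1,2)]),(651871,[(708,2),(227,1),(42,1),(1,2)]),(1241325,[(1399,1),(227,1),(55,1),(1,6)]),(997860,[(838,2),(8,1),(1,3)]),(191637,[(182,9),(41,1),(8,1)]),(3098639,[(1399,1),(227,1),(48,1),(9,1),(1,4)]),(1318390,[(821,2),(44,1),(1,1)]),(1755883,[(653,2),(203,1),(178,1)]),(6393473,[(1388,1),(178,1),(41,1),(8,10)]),(747384,[(669,2),(184,1),(42,1),(41,3)]),(9489313,[(1178,1),(169,3),(1,2)]),(9704505,[(653,2),(178,2),(7,3),(1,4)]),(651214,[(618,2),(184,2),(41,2),(1,1)]),(1147840,[(569,2),(169,3),(42,1)]),(2362714,[(650,2),(169,2),(41,1),(8,1)]),(3493279,[(576,1),(537,2),(8,4),(1,5)]),(517796,[(1399,1),(227,1),(9,6),(7,1)]),(1675980,[(1354,1),(207,1),(41,3),(1,3)]),(2860902,[(653,1),(650,1),(192,2)]),(4878949,[(1139,1),(169,3),(41,1)]),(4256901,[(1150,1),(178,3),(1,3)]),(6807068,[(178,9),(42,2),(1,1)]),(1030026,[(727,2),(178,1),(42,1),(7,1),(1,6)]),(1531851,[(770,2),(41,3),(8,3)]),(396952,[(184,9),(9,3),(1,4)]),(788988,[(663,2),(195,1),(42,2),(41,2)])]⟩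
def D67 : List Lev := d67 :: D66
theorem c67 : checkLev mm PP QQ bb d67 D66 = true := by decide +kernel
theorem g67 : Good mm PP QQ bb D67 := ⟨c67, g66⟩

def d68 : Lev := ⟨1457, 4499434, 1694, 6, [(4256901,[(1150,1),(169,2),(42,1),(41,4)]),(1995720,[(838,1),(650,1),(42,1),(41,4)]),(1900930,[(770,1),(676,1),(42,2),(41,4)]),(6753112,[(1342,1),(178,1),(171,1),(1,3)]),(459440584,[(981,1),(537,1),(169,1),(7,1)]),(19783604,[(1126,1),(195,1),(41,9)]),(4362131,[(1301,1),(169,2),(46,1),(8,1),(1,1)]),(1340434,[(1126,1),(222,1),(169,2),(8,1)]),(1318390,[(821,2),(41,1),(1,11)]),(2806886,[(644,1),(640,1),(41,10)]),(1341509,[(1244,1),(203,1),(41,6)]),(711617,[(580,2),(41,13),(1,1)]),(878022,[(650,1),(591,1),(207,1),(41,6)]),(566266,[(727,2),(195,1),(42,1),(1,3)]),(2698837,[(1244,1),(195,1),(169,1),(42,2),(1,2)]),(333743,[(981,1),(663,1),(41,1),(8,1),(1,1)]),(1367580,[(640,1),(603,1),(41,11)]),(651214,[(618,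2),(169,1),(41,7)]),(6914769,[(1342,1),(169,2),(7,1)]),(2624799,[(789,1),(653,1),(169,1),(41,2),(1,1)]),(4499435,[(1457,1),(195,1),(42,1)]),(6702168,[(1126,1),(192,1),(169,1),(41,5),(1,2)]),(1494767,[(981,1),(669,1),(41,1),(1,3)]),(10391260,[(1126,1),(169,3),(44,1),(7,2),(1,3)]),(63739472,[(1126,1),(178,2),(169,1),(41,1),(1,2)]),(2408591,[(640,2),(44,1),(42,1),(41,8)]),(11655981,[(1444,1),(41,6),(1,4)]),(9489313,[(1178,1),(169,3),(9,1)]),(763359,[(655,2),(169,2),(41,1),(1,5)]),(766861,[(569,2),(169,3),(42,1),(7,1)]),(17421766,[(1399,1),(169,1),(42,3)]),(731530,[(702,2),(44,1),(41,6)]),(5704686,[(1199,1),(41,12)]),(643802,[(659,2),(42,7),(41,2)]),(4878949,[(1139,1),(169,3),(42,1),(1,6)]),(1771473,[(650,2),(178,1),(169,1),(44,1),(1,3)]),(8785262,[(981,1),(589,1),(42,1),(41,2)]),(1162772,[(770,1),(636,1),(41,7),(1,1)]),(3246750,[(1126,1),(169,3),(48,1),(7,1),(1,6)]),(1724730,[(1342,1),(182,1),(169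,1),(1,1)]),(7969925,[(1388,1),(178,1),(41,3),(1,5)]),(5509629,[(1126,1),(227,1),(169,2),(1,3)]),(1433835,[(1126,1),(563,1),(1,5)]),(1599966,[(981,1),(708,1),(1,5)]),(3777690,[(1126,1),(537,1),(1,31)]),(8367813,[(1301,1),(169,2),(42,1),(9,1),(1,4)]),(5622372,[(1126,1),(184,1),(169,2),(42,1),(1,4)]),(6154822,[(981,1),(667,1),(41,1),(1,5)]),(59066262,[(576,2),(537,1)]),(3442415,[(1301,1),(169,2),(41,1),(8,1),(1,6)]),(12951245,[(1342,1),(169,2),(8,1),(1,6)]),(769532,[(1342,1),(44,8)]),(129561,[(727,1),(42,23)]),(40577993,[(537,3),(41,2),(1,1)]),(1244234,[(691,1),(663,1),(169,2),(1,2)]),(797958,[(727,1),(636,1),(207,1),(41,3)]),(414375,[(1244,1),(246,1),(203,1),(1,1)]),(1275622,[(650,1),(593,1),(41,11)]),(865052,[(578,2),(537,1),(1,1)]),(761958,[(591,1),(569,1),(41,13)]),(5829688,[(1354,1),(169,2),(1,2)]),(31404727,[(1126,1),(537,1),(8,3),(7,1)]),(6445419,[(795,1),(653,1),(41,6)]),(24922099,[(981,1),(576,1),(41,3),(7,2)]),(8355730,[(653,2),(169,2),(42,1),(8,1)]),(3156750,[(1301,1),(180,1),(169,1),(42,1),(1,2)]),(69629118,[(1126,1),(537,1),(7,4),(1,3)]),(1268147,[(1342,1),(169,1),(55,1),(44,1),(41,2),(1,2)]),(6225125,[(1431,1),(169,1),(42,2),(7,1),(1,3)])]⟩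
def D68 : List Lev := d68 :: D67
theorem c68 : checkLev mm PP QQ bb d68 D67 = true := by decide +kernel
theorem g68 : Good mm PP QQ bb D68 := ⟨c68, g67⟩

def d69 : Lev := ⟨1472, 5195301, 1702, 6, [(4256901,[(1150,1),(537,1),(7,2),(1,1)]),(9489313,[(1178,1),(169,3),(8,2)]),(5704686,[(1199,1),(169,2),(42,1),(41,3)]),(5195302,[(1472,1),(178,1),(44,1),(7,1),(1,1)]),(33281873,[(981,1),(537,1),(169,1),(7,1)]),(1526717,[(667,1),(655,1),(169,2),(41,1)]),(392215,[(727,2),(246,1)]),(3156750,[(1301,1),(180,1),(169,1),(44,1),(1,8)]),(6297004,[(1301,1),(169,2),(44,1),(1,19)]),(35974495,[(1126,1),(42,2),(41,12)]),(3207571,[(1126,1),(537,1),(9,4),(1,3)]),(1403443,[(644,2),(41,10)]),(1755883,[(1457,1),(203,1),(42,1)]),(1082250,[(1388,1),(169,1),(48,3),(1,1)]),(2295679,[(1126,1),(569,1),(7,1)]),(1275622,[(727,1),(593,1),(169,2),(41,1)]),(5026844,[(537,3),(41,2),(9,1)]),(4362131,[(1126,1),(192,1),(169,2),(46,1)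]),(29826,[(821,1),(795,1),(41,2)]),(580870,[(789,2),(41,3),(1,1)]),(290373,[(663,1),(650,1),(169,2),(42,1),(8,1)]),(2743553,[(1457,1),(195,1),(42,1),(8,1)]),(865052,[(578,2),(537,1),(8,1),(1,1)]),(505200,[(1126,1),(192,1),(171,2),(42,1)]),(1340434,[(1301,1),(222,1),(178,1)]),(1757146,[(1301,1),(178,2),(41,1)]),(11655981,[(1444,1),(169,1),(41,2),(7,1)]),(76808572,[(537,3),(41,2),(8,1),(1,1)]),(7401935,[(650,1),(537,1),(169,3),(8,1)]),(711617,[(580,2),(537,1)]),(1367580,[(603,1),(589,1),(169,3),(1,3)]),(2059089,[(1388,1),(169,1),(44,3),(8,1)]),(1724730,[(981,1),(537,1),(182,1),(1,2)]),(339296847,[(981,1),(537,1),(169,1),(7,2)]),(3445114,[(1139,1),(537,1),(7,3),(1,5)]),(1287604,[(663,1),(659,1),(169,2),(41,1)]),(7056982,[(981,1),(589,1),(41,3),(8,1),(1,1)]),(1494767,[(821,1),(669,1),(169,1),(41,1),(1,2)]),(1639980,[(981,1),(591,1),(41,3),(7,1)]),(1463060,[(789,1),(702,1),(169,1),(42,1)]),(6225125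,[(1431,1),(178,1),(41,2),(8,1)]),(1302428,[(618,1),(537,2),(8,1)]),(3063701,[(770,1),(640,1),(169,1),(41,3)]),(360701,[(691,1),(589,1),(169,2),(42,2)]),(17421766,[(1399,1),(178,1),(41,3),(1,2)]),(24804589,[(1126,1),(195,1),(169,2),(42,1),(1,1)]),(1675980,[(1244,1),(207,1),(169,1),(41,2)]),(883533,[(838,1),(691,1),(169,1)]),(2778740,[(1244,1),(171,1),(41,7)]),(11080,[(1126,1),(246,2),(42,2)]),(1960729,[(981,1),(636,1),(41,2),(1,3)]),(5622372,[(981,1),(537,1),(184,1)]),(1112187,[(838,1),(821,1),(42,1),(1,1)]),(25392514,[(981,1),(169,4),(41,1),(1,4)]),(84854286,[(981,1),(537,1),(178,1),(1,6)]),(143054622,[(1126,1),(576,1)]),(1268147,[(1301,1),(169,2),(55,1),(8,1)]),(30381532,[(1342,1),(169,2),(7,3),(1,1)]),(2963973,[(640,2),(171,1),(169,1),(41,2)]),(4628106,[(667,1),(653,1),(169,2),(42,1)]),(5829688,[(1354,1),(178,1),(169,1),(1,1)]),(4828586,[(1388,1),(169,1),(41,3),(7,3)]),(6415594,[(795,1),(653,1),(169,1),(42,2),(1,1)]),(1599966,[(708,1),(653,1),(169,2)]),(5509629,[(1301,1),(227,1),(169,1)]),(1834838,[(1126,1),(192,1),(169,2),(41,1)]),(1433835,[(1139,1),(563,1)]),(6530854,[(1126,1),(178,3),(42,1)]),(13138012,[(653,1),(537,1),(169,3)]),(1900930,[(981,1),(676,1),(44,1),(1,1)])]⟩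
def D69 : List Lev := d69 :: D68
theorem c69 : checkLev mm PP QQ bb d69 D68 = true := by decide +kernel
theorem g69 : Good mm PP QQ bb D69 := ⟨c69, g68⟩

def d70 : Lev := ⟨1499, 4590940, 1716, 6, [(1149629,[(1244,1),(222,1),(207,1),(42,1)]),(1843536,[(1244,1),(169,2),(46,1),(44,2)]),(3156750,[(981,1),(537,1),(180,1),(8,2)]),(509256,[(1399,1),(227,1),(44,2)]),(1461555,[(1244,1),(178,1),(171,1),(41,3)]),(3439420,[(1472,1),(227,1),(8,2)]),(2060051,[(981,1),(727,1),(7,1),(1,1)]),(30381532,[(1342,1),(169,1),(41,5)]),(4499435,[(1457,1),(171,1),(44,2)]),(7692308,[(981,1),(650,1),(41,2),(1,3)]),(1755883,[(1472,1),(203,1),(41,1)]),(2806886,[(981,1),(644,1),(42,1),(41,1),(8,1)]),(2295679,[(981,1),(569,1),(42,2),(41,2)]),(3246750,[(1126,1),(537,1),(48,1),(1,5)]),(324410,[(838,1),(663,1),(44,1),(41,4),(7,1)]),(1275622,[(593,1),(537,2),(41,1),(8,1)]),(16433892,[(537,3),(41,2),(9,1)]),(9489313,[(1178,1),(53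7,1),(1,1)]),(8785262,[(1126,1),(589,1)]),(1312400,[(789,2),(41,3),(1,1)]),(76808368,[(1126,1),(537,1),(41,1),(1,12)]),(3077411,[(667,2),(169,2),(44,1)]),(865052,[(578,2),(537,1),(8,1),(1,1)]),(426922,[(770,1),(655,1),(207,1),(41,2)]),(5829688,[(1354,1),(169,2),(8,3)]),(7969925,[(1388,1),(41,8)]),(11655981,[(1444,1),(169,1),(41,2),(7,1)]),(7313938,[(537,3),(41,2),(8,1),(1,1)]),(5704686,[(1199,1),(178,1),(169,2),(1,1)]),(1423234,[(1126,1),(580,1),(9,1),(1,1)]),(6225125,[(1431,1),(169,1),(42,2),(8,4)]),(82875,[(246,5),(222,2),(42,1)]),(8991645,[(640,1),(537,2)]),(350056516,[(981,1),(537,1),(169,1),(7,2)]),(918721,[(981,1),(618,1),(44,1),(41,1),(8,4)]),(626783,[(663,2),(178,1),(171,1),(41,1)]),(25781676,[(981,1),(653,1),(41,2)]),(383707,[(838,1),(618,1),(169,1),(46,1),(42,1),(1,3)]),(2636779,[(821,1),(770,1),(41,3)]),(1067444,[(981,1),(537,1),(46,2),(41,2),(8,3)]),(4878949,[(1139,1),(576,1)]),(128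7604,[(838,1),(659,1),(169,1),(42,1),(8,1)]),(6702168,[(1399,1),(192,1),(42,2),(41,1)]),(1244234,[(981,1),(691,1),(44,1)]),(1724730,[(981,1),(537,1),(182,1),(8,2)]),(1560954,[(981,1),(227,1),(169,3)]),(1367580,[(981,1),(603,1),(41,3),(8,1)]),(657209,[(669,2),(169,1),(42,4),(41,1)]),(549898,[(655,2),(169,2),(44,1),(8,3)]),(634074,[(981,1),(537,1),(55,2),(44,2)]),(25055,[(981,1),(222,1),(171,3)]),(5622372,[(981,1),(537,1),(184,1)]),(4628,[(207,2),(42,31)]),(63833313,[(981,1),(178,2),(169,2),(41,1)]),(2929116,[(576,2),(169,3),(41,1),(8,2)]),(132317443,[(1126,1),(576,1)]),(19329108,[(1301,1),(169,1),(41,6)]),(10210343,[(1399,1),(169,1),(41,3),(8,3)]),(1900930,[(981,1),(676,1),(42,1),(8,2)]),(47116183,[(537,3),(42,2),(7,3)]),(27330642,[(537,1),(169,6),(41,4)]),(27548142,[(981,1),(537,1),(195,1)]),(3222710,[(795,2),(41,3),(1,3)]),(799983,[(708,2),(169,1),(41,3),(8,1)]),(4256901,[(1150,1),(178,2),(169,1),(41,1)]),(90175,[(669,2),(207,1),(171,1)]),(1433835,[(981,1),(563,1),(41,4),(8,1)]),(1463060,[(702,1),(169,6)]),(1960729,[(636,1),(537,1),(169,2),(41,5)]),(1639980,[(591,1),(537,2),(44,1),(7,1)]),(4590941,[(1499,1),(169,1),(41,1)])]⟩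
def D70 : List Lev := d70 :: D69
theorem c70 : checkLev mm PP QQ bb d70 D69 = true := by decide +kernel
theorem g70 : Good mm PP QQ bb D70 := ⟨c70, g69⟩

def d71 : Lev := ⟨1518, 6897321, 1726, 6, [(1010194,[(789,1),(537,1),(227,1),(169,1)]),(4499435,[(1457,1),(227,1),(41,1)]),(67773149,[(1126,1),(537,1),(41,1)]),(107451204,[(981,1),(537,1),(178,1),(7,4)]),(1730103,[(981,1),(578,1),(41,4)]),(6897322,[(1518,1),(41,5)]),(2060051,[(981,1),(727,1),(7,1),(1,1)]),(6225125,[(1431,1),(169,1),(42,3)]),(58049547,[(1126,1),(537,1),(42,1),(8,2)]),(7692308,[(650,1),(537,2)]),(1318390,[(821,2),(41,2)]),(2806886,[(644,1),(537,2)]),(1526717,[(981,1),(655,1),(41,2),(7,1)]),(3246750,[(1126,1),(537,1),(48,1),(1,5)]),(54606,[(1244,1),(171,2),(42,3)]),(1302428,[(770,1),(618,1),(169,2)]),(300964,[(676,1),(537,1),(169,3)]),(9489313,[(1178,1),(537,1),(1,1)]),(8785262,[(1126,1),(589,1)]),(1268147,[(1126,1),(537,1),(55,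1),(8,1)]),(80542601,[(1126,1),(537,1),(41,1),(1,12)]),(1614605,[(789,1),(537,1),(169,2),(41,1)]),(1131336,[(1354,1),(184,2)]),(4400114,[(1244,1),(178,2),(41,3)]),(1244234,[(981,1),(691,1),(42,1)]),(1675980,[(981,1),(537,1),(207,1)]),(4953814,[(1444,1),(169,1),(41,2),(7,1)]),(61194895,[(981,1),(537,1),(41,5)]),(5704686,[(1199,1),(178,1),(169,2),(1,1)]),(711617,[(580,2),(537,1),(7,4)]),(3156750,[(981,1),(537,1),(180,1),(7,4)]),(673450,[(770,2),(169,1),(8,2)]),(8991645,[(640,1),(537,2)]),(78034161,[(981,1),(537,1),(169,1),(7,2)]),(6702168,[(1444,1),(192,1),(42,1),(41,1),(7,1)]),(1577976,[(981,1),(663,1),(41,2)]),(25781676,[(981,1),(653,1),(41,2)]),(7969925,[(1388,1),(169,2)]),(1287604,[(981,1),(659,1),(41,2)]),(1755883,[(1354,1),(203,1),(169,1)]),(4878949,[(1139,1),(537,1),(41,1),(7,1)]),(4362131,[(1301,1),(169,2),(46,1),(41,1)]),(4380687,[(795,1),(537,1),(169,2),(42,1)]),(1340434,[(795,1),(537,1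),(222,1),(169,1)]),(2080105,[(1354,1),(178,2)]),(414375,[(770,1),(537,1),(246,1),(169,1)]),(862365,[(1354,1),(182,2),(7,1)]),(2295679,[(569,1),(537,2),(41,2)]),(30381532,[(1342,1),(169,2),(41,1)]),(143054622,[(981,1),(576,1),(169,1)]),(1960729,[(636,1),(537,2),(8,2)]),(3359701,[(981,1),(537,1),(184,1)]),(724300,[(795,1),(537,1),(171,2),(41,1),(8,1)]),(17857125,[(981,1),(537,1),(178,1),(9,1),(7,3)]),(14966978,[(1301,1),(169,2),(41,2)]),(51397451,[(537,1),(169,7)]),(1367580,[(603,1),(537,2),(41,1),(7,1)]),(17421766,[(1399,1),(169,1),(41,3),(7,5)]),(1494767,[(669,1),(537,1),(169,3)]),(22923201,[(537,3),(42,2),(7,3)]),(6154822,[(667,1),(537,1),(169,3)]),(27548142,[(981,1),(537,1),(195,1)]),(1995720,[(838,1),(537,1),(169,2)]),(1599966,[(708,1),(676,1),(169,2)]),(4256901,[(1150,1),(537,1),(7,5)]),(5195302,[(1472,1),(171,1),(41,2)]),(1433835,[(563,1),(537,2),(41,2),(7,1)]),(1463060,[(981,1),(702,1),(41,1)]),(22727250,[(981,1),(537,1),(44,1),(41,4)]),(1639980,[(1126,1),(591,1),(8,1)]),(4590941,[(1499,1),(169,1),(41,1)]),(1275622,[(1126,1),(593,1),(7,1)])]⟩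
def D71 : List Lev := d71 :: D70
theorem c71 : checkLev mm PP QQ bb d71 D70 = true := by decide +kernel
theorem g71 : Good mm PP QQ bb D71 := ⟨c71, g70⟩

def d72 : Lev := ⟨1521, 6209628, 1728, 6, [(2000146,[(795,2),(41,3),(8,1),(7,1)]),(4878949,[(1139,1),(589,1)]),(763359,[(655,2),(222,1),(195,1),(1,1)]),(747384,[(669,2),(195,2)]),(865052,[(578,2),(178,1),(169,2),(55,1),(1,1)]),(113142,[(537,3),(1,117)]),(1,[(691,2),(169,2),(7,1)]),(32540,[(246,1),(184,8),(9,1),(1,1)]),(765227,[(569,3),(8,2),(1,5)]),(69701,[(702,2),(178,1),(7,20),(1,6)]),(683790,[(603,2),(169,3),(9,1),(1,6)]),(1318390,[(821,2),(44,1),(41,1),(1,1)]),(612483,[(1388,1),(171,1),(169,1)]),(3924402,[(1354,1),(192,1),(178,1),(1,4)]),(148770,[(708,2),(178,1),(44,1),(41,2),(8,1)]),(537523,[(227,7),(42,3),(9,1),(1,4)]),(219452,[(770,2),(178,1),(9,1),(1,1)]),(240283,[(691,2),(184,1),(48,3),(9,2)]),(997860,[(838,2),(42,1),(9,1),(1,1)]),(2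187450,[(1126,1),(589,1),(7,1),(1,6)]),(788988,[(663,2),(195,2),(8,1),(1,4)]),(5398046,[(178,9),(44,1),(41,2)]),(2624799,[(789,1),(770,1),(169,1)]),(4499435,[(1457,1),(169,1),(42,2),(9,2)]),(8991645,[(640,1),(537,2),(7,2)]),(980365,[(636,2),(195,1),(178,1),(42,1),(41,1)]),(6140630,[(1431,1),(171,1),(42,3)]),(1675980,[(1521,1),(207,1)]),(637811,[(593,2),(178,3),(7,1),(1,1)]),(502731240,[(981,1),(537,1),(169,1),(41,1)]),(4930421,[(1199,1),(184,1),(169,2),(7,1)]),(15480212,[(1126,1),(537,1),(44,1),(7,3)]),(4454720,[(1244,1),(178,1),(169,1),(41,3),(7,2)]),(82440,[(222,7),(169,1),(1,5)]),(8447552,[(169,10),(8,4),(1,6)]),(716947,[(1399,1),(227,1),(48,2),(1,6)]),(4256901,[(1150,1),(178,3),(42,1),(1,2)]),(1905287,[(1354,1),(178,2),(9,2)]),(7357442,[(1388,1),(169,2),(1,2)]),(1323660,[(702,1),(644,1),(169,2),(41,1),(1,3)]),(9489313,[(1178,1),(178,3),(8,2)]),(3846154,[(650,2),(178,2),(8,2),(7,8)]),(130242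8,[(708,1),(618,1),(178,2),(46,1)]),(381835,[(691,2),(246,1),(55,1),(44,1),(1,1)]),(643802,[(659,2),(169,2),(41,1),(7,4),(1,3)]),(1030026,[(727,2),(227,1),(46,1),(1,1)]),(950465,[(676,2),(182,1),(178,1),(8,2)]),(711617,[(580,2),(537,1),(8,3),(7,1)]),(204913394,[(1126,1),(537,1),(41,1),(7,3),(1,3)]),(30381532,[(1342,1),(169,2),(41,1),(7,1)]),(8499232,[(1444,1),(169,1),(41,2),(7,4),(1,5)]),(84496,[(1431,1),(178,1),(42,1),(9,7),(7,2)]),(3311,[(7,246),(1,6)]),(1483227,[(644,1),(537,2),(9,1),(1,1)]),(676560,[(795,2),(46,3)]),(19329108,[(1301,1),(169,2),(42,2),(1,5)]),(21262,[(184,9),(55,1),(9,1),(8,1)]),(3247383,[(195,7),(178,2),(7,1)]),(12890838,[(653,2),(169,2),(41,2),(1,2)]),(3156750,[(1444,1),(180,1),(41,2),(7,3),(1,1)]),(6897322,[(1518,1),(169,1),(41,1)]),(3077411,[(667,2),(169,2),(7,8)]),(47684874,[(576,3)]),(5195302,[(1472,1),(169,1),(42,2),(1,3)]),(546006,[(795,2),(48,2),(42,1)]),(16704819,[(1399,1),(178,1),(42,3),(8,3),(1,1)]),(859432,[(589,2),(169,3),(7,6),(1,1)]),(477945,[(563,3),(8,4),(7,1)]),(1755883,[(1521,1),(203,1),(1,4)]),(263927,[(537,3),(8,12),(7,3)]),(2777767,[(1521,1),(192,1),(7,2),(1,1)]),(4590941,[(1499,1),(169,1),(41,1),(7,2),(1,5)]),(819990,[(591,2),(178,3),(8,1),(1,4)]),(774266,[(1199,1),(182,1),(178,1),(169,1)])]⟩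
def D72 : List Lev := d72 :: D71
theorem c72 : checkLev mm PP QQ bb d72 D71 = true := by decide +kernel
theorem g72 : Good mm PP QQ bb D72 := ⟨c72, g71⟩

def d73 : Lev := ⟨1546, 4079382, 1741, 6, [(948819,[(789,1),(659,1),(169,1),(42,1),(41,2)]),(1755883,[(1244,1),(203,1),(169,1),(42,2),(41,1)]),(1780283,[(795,1),(650,1),(169,1),(42,3)]),(414375,[(1244,1),(246,1),(169,1),(41,2)]),(212920,[(789,1),(576,1),(207,1),(169,1)]),(1275622,[(1126,1),(593,1),(8,1),(7,2)]),(6209629,[(1521,1),(169,1),(41,1)]),(4807174,[(1301,1),(169,2),(42,2),(1,18)]),(19603398,[(1126,1),(195,1),(169,2),(41,2)]),(1494767,[(669,1),(650,1),(169,2),(41,2)]),(3246750,[(1126,1),(537,1),(48,1),(7,4),(1,2)]),(3063701,[(795,1),(770,1),(169,1),(7,1)]),(3156750,[(981,1),(576,1),(180,1),(1,4)]),(17421766,[(1399,1),(169,2)]),(1244234,[(838,1),(691,1),(169,1),(42,1)]),(751487,[(838,1),(650,1),(169,1),(42,2)]),(338785,[(659,1),(537,2)]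),(4464282,[(1126,1),(576,1),(9,4),(1,3)]),(8785262,[(1126,1),(589,1),(7,3)]),(4362131,[(1444,1),(169,1),(46,1),(41,2)]),(1433835,[(1178,1),(563,1)]),(6702168,[(1126,1),(192,1),(169,2),(42,2)]),(2060051,[(727,1),(169,6)]),(1367580,[(1126,1),(603,1),(8,1),(1,4)]),(5829688,[(1354,1),(169,2),(42,1),(7,1)]),(1601437,[(795,1),(653,1),(169,1),(41,3)]),(96104631,[(981,1),(576,1),(178,1),(1,6)]),(5195302,[(1472,1),(178,1),(41,2),(8,1),(1,1)]),(390647054,[(981,1),(537,1),(169,1),(41,1)]),(6225125,[(1431,1),(178,1),(42,1),(41,2),(8,1)]),(17848302,[(1126,1),(537,1),(44,1),(7,3)]),(5958172,[(1126,1),(576,1),(7,5)]),(1960729,[(981,1),(636,1),(41,3),(1,1)]),(1900930,[(981,1),(676,1),(42,2)]),(960988,[(650,1),(537,1),(171,3),(41,1)]),(2616921,[(1150,1),(576,1),(7,2)]),(1526717,[(655,1),(537,1),(169,3),(42,1)]),(7969925,[(1388,1),(169,2),(1,2)]),(4878949,[(1139,1),(537,1),(44,1),(7,3)]),(2806886,[(644,1),(576,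1),(169,3),(7,2)]),(3865362,[(1457,1),(195,1),(41,2),(7,1)]),(862365,[(1126,1),(182,2),(169,1),(41,2)]),(670217,[(1126,1),(222,2),(171,1)]),(24180240,[(653,1),(537,2),(7,2)]),(4495823,[(640,2),(169,2),(41,3)]),(4590941,[(1499,1),(169,1),(42,1),(7,4)]),(1423234,[(1126,1),(580,1),(7,5)]),(32275389,[(1126,1),(537,1),(41,1),(7,3),(1,3)]),(30381532,[(1342,1),(169,2),(41,1),(7,1)]),(634074,[(1457,1),(169,1),(55,2)]),(5509629,[(1126,1),(227,1),(169,2),(42,1),(7,1)]),(2295679,[(1126,1),(569,1),(42,1)]),(1463060,[(789,1),(702,1),(207,1),(42,1)]),(8961148,[(981,1),(169,4),(42,2)]),(1104819,[(650,1),(537,1),(169,3),(41,1)]),(27734063,[(1126,1),(576,1),(8,4),(7,1)]),(1577976,[(663,1),(537,2)]),(5622372,[(1126,1),(184,1),(169,2),(42,2),(7,1)]),(1639980,[(1150,1),(591,1)]),(6897322,[(1518,1),(169,1),(41,1)]),(14521934,[(1301,1),(178,2),(42,2)]),(1302428,[(618,1),(537,2),(41,1)]),(75206478,[(1126,1),(537,1),(41,1),(7,5),(1,2)]),(6154822,[(667,1),(537,2)]),(44905509,[(537,3),(41,3),(7,1)]),(2284463,[(1244,1),(169,1),(41,8)]),(2636779,[(821,1),(537,1),(169,2),(42,1)]),(7404527,[(178,1),(169,9),(42,1)]),(8055478,[(1178,1),(537,1),(7,3)]),(1730103,[(1126,1),(578,1),(7,5)]),(1599966,[(708,1),(650,1),(171,2),(41,1)]),(7293851,[(1444,1),(169,1),(41,3)]),(5704686,[(1199,1),(537,1),(1,5)]),(4079383,[(1546,1),(195,1)])]⟩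
def D73 : List Lev := d73 :: D72
theorem c73 : checkLev mm PP QQ bb d73 D72 = true := by decide +kernel
theorem g73 : Good mm PP QQ bb D73 := ⟨c73, g72⟩

end MP_a18a3c_h2
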