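import Pool.Agent.W_MP_a18a3c_h2.Data1

/-! Numerical data (machine generated): the levels of the list of jobs with their packings. -/

namespace MP_a18a3c_h2

set_option maxRecDepth 100000

def d74 : Lev := ⟨1553, 4849313, 1745, 6, [(159121,[(727,1),(169,6)]),(1627176,[(640,1),(537,2),(8,3),(7,1)]),(1625837,[(795,1),(576,1),(195,1),(169,1),(7,1)]),(8928563,[(981,1),(576,1),(169,1),(9,2)]),(2273353,[(981,1),(569,1),(195,1)]),(1275622,[(981,1),(593,1),(169,1),(1,2)]),(6209629,[(1521,1),(169,1),(41,1)]),(5195302,[(1472,1),(169,1),(41,2),(7,3),(1,1)]),(1526717,[(655,1),(537,2),(7,2)]),(1494767,[(669,1),(537,2)]),(1755883,[(795,1),(576,1),(203,1),(169,1)]),(3063701,[(795,1),(770,1),(169,1),(7,1)]),(3156750,[(981,1),(576,1),(180,1),(1,4)]),(17421766,[(1399,1),(169,2)]),(1302428,[(789,1),(618,1),(169,2)]),(1995720,[(838,1),(537,1),(195,1),(169,1)]),(4080231,[(1444,1),(169,1),(42,3)]),(17700473,[(1301,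1),(178,2),(42,2)]),(1091348,[(1431,1),(169,1),(46,3)]),(5509629,[(1342,1),(227,1),(169,1),(7,1)]),(1433835,[(1178,1),(563,1)]),(1599966,[(708,1),(178,2),(169,4)]),(3264403,[(1431,1),(169,1),(41,3),(7,3),(1,1)]),(544044,[(1301,1),(182,1),(169,1),(46,2)]),(5829688,[(1354,1),(169,2),(42,1),(7,1)]),(44550249,[(981,1),(576,1),(169,1),(7,2)]),(37416780,[(981,1),(576,1),(178,1),(1,6)]),(8785262,[(981,1),(589,1),(169,1),(1,6)]),(104639447,[(981,1),(537,1),(169,1),(41,1)]),(56033603,[(981,1),(537,1),(169,1),(42,1),(8,2)]),(220297884,[(981,1),(537,1),(169,1),(41,1),(7,2),(1,3)]),(414375,[(1301,1),(246,1),(195,1)]),(1423234,[(981,1),(580,1),(184,1)]),(7969925,[(1388,1),(178,2)]),(1900930,[(727,1),(676,1),(169,2)]),(2616921,[(1150,1),(576,1),(7,2)]),(6753112,[(981,1),(576,1),(171,1),(7,2)]),(1322371,[(789,1),(576,1),(169,2),(41,1)]),(3511370,[(1139,1),(576,1),(7,4)]),(4590941,[(1499,1),(195,1),(41,1),(8,1)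]),(4499435,[(1457,1),(195,1),(41,2),(7,1)]),(4849314,[(1553,1),(192,1)]),(4454720,[(1244,1),(195,1),(169,1),(41,3),(7,2)]),(25781676,[(653,1),(537,2),(7,2)]),(6809150,[(640,1),(576,1),(169,3),(7,3)]),(26007973,[(537,1),(178,2),(169,5),(7,1)]),(1852854,[(537,1),(192,1),(169,6)]),(222581054,[(1126,1),(537,1),(41,2)]),(4199139,[(981,1),(576,1),(184,1)]),(7575750,[(1444,1),(169,1),(44,3)]),(688688,[(1431,1),(169,1),(48,3)]),(1938403,[(636,1),(576,1),(195,1),(169,2)]),(1675980,[(1342,1),(207,1),(195,1)]),(555321,[(644,1),(640,1),(169,2),(41,3)]),(670217,[(1301,1),(222,2)]),(1244234,[(691,1),(537,1),(169,3),(7,1),(1,3)]),(1577976,[(663,1),(537,2)]),(731530,[(702,2),(169,2),(1,3)]),(1639980,[(1150,1),(591,1)]),(6897322,[(1518,1),(169,1),(41,1)]),(7692308,[(650,1),(537,2),(7,3)]),(22327,[(636,1),(569,1),(537,1)]),(4848573,[(576,3),(7,2)]),(6154822,[(667,1),(537,2)]),(1287604,[(659,1),(576,1),(169,3)]),(1180687,[(1431,1),(182,1),(48,1),(42,2)]),(2636779,[(821,1),(576,1),(169,2),(7,1)]),(1367580,[(1139,1),(603,1)]),(8055478,[(1178,1),(537,1),(7,3)]),(1730103,[(981,1),(578,1),(169,1),(8,2)]),(1268147,[(981,1),(537,1),(169,1),(55,1),(1,3)]),(2251565,[(644,1),(537,2),(7,3)]),(5704686,[(1199,1),(537,1),(1,5)]),(4079383,[(1546,1),(195,1)]),(23195925,[(1342,1),(169,2),(42,1),(7,3)])]⟩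
def D74 : List Lev := d74 :: D73
theorem c74 : checkLev mm PP QQ bb d74 D73 = true := by decide +kernel
theorem g74 : Good mm PP QQ bb D74 := ⟨c74, g73⟩

def d75 : Lev := ⟨1612, 4605019, 1776, 6, [(6445419,[(981,1),(795,1)]),(4499435,[(1457,1),(178,1),(41,3),(8,2)]),(711995,[(1301,1),(207,2),(7,8)]),(8928563,[(981,1),(576,1),(169,1),(9,2)]),(2295679,[(981,1),(569,1),(178,1),(46,1)]),(1275622,[(981,1),(593,1),(169,1),(1,2)]),(6209629,[(1521,1),(169,1),(41,1)]),(2918220,[(1139,1),(537,1),(41,2),(8,2)]),(1526717,[(655,1),(537,2),(7,2)]),(1494767,[(669,1),(537,2)]),(997860,[(838,2),(42,2)]),(2636779,[(821,1),(770,1),(178,1),(7,1)]),(3156750,[(981,1),(576,1),(180,1),(1,4)]),(17421766,[(1399,1),(169,2)]),(940843,[(1301,1),(178,2),(7,17)]),(5227953,[(1444,1),(178,1),(41,3),(8,3),(7,1)]),(251990,[(1342,1),(207,1),(178,1),(8,6)]),(426922,[(981,1),(770,1),(7,3)]),(1623375,[(1301,1),(169,2),(48,2),(41,1)]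),(5509629,[(1342,1),(227,1),(169,1),(7,1)]),(1433835,[(1178,1),(563,1)]),(6702168,[(537,2),(192,1),(169,3)]),(1724730,[(1301,1),(182,1),(169,1),(41,3)]),(6225125,[(1431,1),(169,2)]),(5829688,[(1354,1),(169,2),(42,1),(7,1)]),(91690926,[(981,1),(576,1),(169,1),(7,2)]),(25709214,[(981,1),(576,1),(178,1),(1,6)]),(8785262,[(981,1),(589,1),(169,1),(1,6)]),(50284532,[(981,1),(537,1),(169,1),(41,1)]),(1340434,[(1342,1),(222,1),(178,1),(8,4)]),(240495398,[(981,1),(537,1),(169,1),(41,1),(7,2),(1,3)]),(2806886,[(1126,1),(644,1)]),(1423234,[(981,1),(580,1),(184,1)]),(7969925,[(1388,1),(178,2)]),(7692308,[(1126,1),(650,1)]),(2616921,[(1150,1),(576,1),(7,2)]),(6753112,[(981,1),(576,1),(171,1),(7,2)]),(1302428,[(981,1),(618,1),(169,1)]),(4079383,[(1546,1),(169,1),(41,1),(8,2)]),(4590941,[(1499,1),(169,1),(41,2),(8,3)]),(2060051,[(727,1),(537,1),(169,3)]),(5195302,[(1472,1),(178,1),(42,3)]),(4454720,[(1244,1),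(178,2),(169,1),(7,1)]),(24051574,[(653,1),(537,2),(7,2)]),(43500219,[(981,1),(537,1),(169,1),(42,2)]),(1367580,[(981,1),(603,1),(178,1),(7,2)]),(8991645,[(1126,1),(640,1)]),(203090217,[(1126,1),(537,1),(41,2)]),(4199139,[(981,1),(576,1),(184,1)]),(6013654,[(1444,1),(169,1),(44,3)]),(1599966,[(708,1),(178,6)]),(4849314,[(1553,1),(178,1),(42,1)]),(8263787,[(537,1),(178,6),(169,1)]),(1960729,[(1139,1),(636,1)]),(1463060,[(702,1),(537,2)]),(1244234,[(691,1),(537,2),(8,1)]),(1577976,[(663,1),(537,2)]),(4686289,[(1342,1),(178,1),(169,1),(44,1),(41,1)]),(1639980,[(1150,1),(591,1)]),(6897322,[(1518,1),(169,1),(41,1)]),(2624799,[(981,1),(789,1)]),(1900930,[(676,1),(537,2),(8,3)]),(14328166,[(1301,1),(169,2),(41,3),(8,1)]),(6154822,[(667,1),(537,2)]),(27548142,[(537,2),(195,1),(169,3)]),(414375,[(1444,1),(246,1),(41,2)]),(1287604,[(659,1),(537,2),(42,1)]),(13922147,[(537,2),(169,4),(8,3),(1,2)]),(8055478,[(1178,1),(537,1),(7,3)]),(1730103,[(653,1),(578,1),(537,1)]),(1268147,[(1342,1),(169,2),(55,1),(41,1)]),(2066452,[(981,1),(537,1),(169,1),(46,1),(42,1)]),(5704686,[(1199,1),(537,1),(1,5)]),(877942,[(1342,1),(203,2),(8,3)]),(16447105,[(1342,1),(169,2),(42,1),(7,3)]),(4605020,[(1612,1),(41,4)])]⟩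
def D75 : List Lev := d75 :: D74
theorem c75 : checkLev mm PP QQ bb d75 D74 = true := by decide +kernel
theorem g75 : Good mm PP QQ bb D75 := ⟨c75, g74⟩

def d76 : Lev := ⟨1623, 4356939, 1782, 6, [(6445419,[(981,1),(795,1)]),(2813892,[(1457,1),(178,1),(41,3),(8,2)]),(2282973,[(1623,1),(41,3),(8,1),(7,4)]),(8928563,[(981,1),(576,1),(169,1),(9,2)]),(2295679,[(981,1),(569,1),(178,1),(46,1)]),(1275622,[(981,1),(593,1),(169,1),(1,2)]),(414375,[(1126,1),(246,1),(192,1),(169,1),(44,1)]),(2918220,[(1139,1),(537,1),(41,2),(8,2)]),(1874741,[(1623,1),(8,19),(1,7)]),(747384,[(669,2),(195,2),(41,1),(8,1),(1,5)]),(997860,[(838,2),(42,2)]),(804872,[(821,2),(41,3),(7,2),(1,3)]),(1277831,[(981,1),(576,1),(180,1),(1,4)]),(17421766,[(1399,1),(169,2)]),(558660,[(981,1),(207,3),(180,1)]),(25781676,[(1126,1),(653,1)]),(1027037,[(821,1),(659,1),(169,1),(44,3)]),(3063701,[(981,1),(770,1),(7,3)]),(1623375,[(1301,1),(16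9,2),(48,2),(41,1)]),(157164,[(1126,1),(227,2),(192,1)]),(165689,[(1178,1),(563,1)]),(1757152,[(667,2),(192,2),(41,1),(8,2),(7,1)]),(1724730,[(1301,1),(182,1),(169,1),(41,3)]),(6225125,[(1431,1),(169,2)]),(5829688,[(1354,1),(169,2),(41,2),(7,1),(1,1)]),(111685536,[(981,1),(576,1),(169,1),(7,2)]),(1268147,[(1126,1),(563,1),(55,1),(8,4),(1,6)]),(8785262,[(981,1),(589,1),(169,1),(1,6)]),(13013672,[(981,1),(169,4),(41,3)]),(1320260,[(667,2),(180,1),(169,1),(7,14),(1,1)]),(261011217,[(981,1),(537,1),(169,1),(41,1),(7,2),(1,3)]),(2806886,[(1126,1),(644,1)]),(1423234,[(981,1),(580,1),(184,1)]),(7969925,[(1388,1),(178,2)]),(7692308,[(1126,1),(650,1)]),(2616921,[(1150,1),(576,1),(7,2)]),(6753112,[(981,1),(576,1),(171,1),(7,2)]),(1302428,[(981,1),(618,1),(169,1)]),(4079383,[(1546,1),(169,1),(41,1),(8,2)]),(4590941,[(1499,1),(169,1),(41,2),(8,3)]),(2060051,[(727,1),(537,1),(169,3)]),(30381532,[(1342,1),(17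8,2),(41,2)]),(4454720,[(1244,1),(178,2),(169,1),(7,1)]),(1577976,[(981,1),(663,1),(41,3),(7,2),(1,1)]),(63075370,[(981,1),(537,1),(169,1),(42,2)]),(1367580,[(981,1),(603,1),(178,1),(7,2)]),(8991645,[(1126,1),(640,1)]),(173271924,[(1126,1),(537,1),(41,2)]),(4199139,[(981,1),(576,1),(184,1)]),(6209629,[(1521,1),(169,1),(44,2),(1,4)]),(1599966,[(708,1),(178,6)]),(4849314,[(1553,1),(178,1),(42,1)]),(6239141,[(537,1),(178,6),(169,1)]),(1960729,[(1139,1),(636,1)]),(1463060,[(702,1),(537,2)]),(1244234,[(691,1),(537,2),(8,1)]),(670217,[(1126,1),(222,2),(192,1),(7,2),(1,6)]),(199227,[(1623,1),(1,159)]),(1639980,[(1150,1),(591,1)]),(5141439,[(1518,1),(195,1),(41,1),(8,3),(1,4)]),(2624799,[(981,1),(789,1)]),(1900930,[(676,1),(537,2),(8,3)]),(15981003,[(1301,1),(169,2),(41,3),(8,1)]),(1730103,[(1178,1),(578,1),(8,3),(1,2)]),(20911936,[(537,2),(195,1),(169,3)]),(1685543,[(1457,1),(192,1),(44,3),(1,1)]),(130284,[(659,2),(192,2),(7,11),(1,3)]),(274704,[(537,2),(169,4),(8,3),(1,2)]),(1526717,[(1126,1),(655,1)]),(1755883,[(1518,1),(203,1),(44,1),(7,2),(1,3)]),(4605020,[(1612,1),(169,1)]),(2066452,[(981,1),(537,1),(169,1),(46,1),(42,1)]),(5704686,[(1199,1),(537,1),(1,5)]),(7593522,[(1178,1),(576,1),(7,4)]),(11655981,[(1444,1),(169,2)]),(5195302,[(1472,1),(227,1),(41,2)]),(59326876,[(537,3),(169,1)])]⟩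
def D76 : List Lev := d76 :: D75
theorem c76 : checkLev mm PP QQ bb d76 D75 = true := by decide +kernel
theorem g76 : Good mm PP QQ bb D76 := ⟨c76, g75⟩

def d77 : Lev := ⟨1661, 6760764, 1802, 6, [(6445419,[(981,1),(795,1)]),(4499435,[(1457,1),(169,2),(7,1)]),(3156750,[(981,1),(537,1),(180,1),(41,2),(7,3)]),(8928563,[(981,1),(576,1),(169,1),(9,2)]),(2295679,[(981,1),(569,1),(169,1),(41,2)]),(1275622,[(981,1),(593,1),(169,1),(1,2)]),(414375,[(1342,1),(246,1),(169,1),(41,1),(1,4)]),(2918220,[(1139,1),(537,1),(41,2),(8,2)]),(4356940,[(1623,1),(178,1),(1,1)]),(9489313,[(1178,1),(576,1),(41,1),(1,7)]),(997860,[(838,2),(41,3)]),(6760765,[(1661,1),(41,3)]),(2636779,[(981,1),(821,1)]),(807416,[(1342,1),(169,2),(44,2),(7,4)]),(837990,[(1388,1),(207,2)]),(25781676,[(1126,1),(653,1)]),(5704686,[(1199,1),(537,1),(41,1),(8,3)]),(3063701,[(981,1),(770,1),(7,3)]),(5509629,[(981,1),(537,1),(227,1),(41,1),(8,2)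]),(1730103,[(981,1),(578,1),(178,1),(41,1),(7,3)]),(1433835,[(981,1),(563,1),(169,1),(41,2)]),(6154822,[(1126,1),(667,1),(7,1),(1,2)]),(1569644,[(1301,1),(182,1),(169,1),(41,3)]),(6225125,[(1431,1),(169,2)]),(5829688,[(1354,1),(169,2),(41,2),(7,1),(1,1)]),(112546879,[(981,1),(576,1),(169,1),(7,2)]),(2060051,[(981,1),(727,1),(41,2),(8,1),(1,4)]),(670217,[(1342,1),(222,2),(8,2)]),(5195302,[(1472,1),(195,1),(44,1),(41,2),(8,1)]),(4423673,[(1388,1),(178,2),(41,1),(8,2)]),(194490487,[(981,1),(537,1),(169,1),(41,1),(7,2),(1,3)]),(2806886,[(1126,1),(644,1)]),(155087,[(981,1),(580,1),(182,1),(41,1),(8,2)]),(6209629,[(1521,1),(195,1),(41,2)]),(7692308,[(1126,1),(650,1)]),(2616921,[(1150,1),(576,1),(7,2)]),(6753112,[(981,1),(576,1),(171,1),(7,2)]),(1302428,[(981,1),(618,1),(169,1)]),(4079383,[(1546,1),(169,1),(41,1),(8,2)]),(1244234,[(981,1),(691,1),(48,1),(41,2)]),(43698397,[(1126,1),(169,4)]),(13582132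,[(1342,1),(178,2),(41,2)]),(4590941,[(1499,1),(178,1),(41,3),(1,2)]),(1167106,[(1388,1),(169,2),(41,1)]),(62925390,[(981,1),(537,1),(169,1),(42,2)]),(1577976,[(1126,1),(663,1),(7,1)]),(8991645,[(1126,1),(640,1)]),(119667333,[(1126,1),(537,1),(41,2)]),(877942,[(1342,1),(203,2),(41,1),(8,1)]),(1541157,[(1388,1),(192,1),(169,1),(48,1)]),(1494767,[(1126,1),(669,1),(7,1)]),(4849314,[(1553,1),(178,1),(42,1)]),(54775016,[(981,1),(537,1),(178,1),(41,2),(7,3)]),(1960729,[(1139,1),(636,1)]),(1463060,[(702,1),(537,2)]),(8868442,[(1342,1),(195,1),(169,1),(41,2),(1,14)]),(2719837,[(981,1),(576,1),(169,1),(41,1),(1,35)]),(14437135,[(1399,1),(178,2),(41,1),(1,6)]),(1639980,[(1150,1),(591,1)]),(6897322,[(1518,1),(169,1),(41,2),(8,4)]),(2624799,[(981,1),(789,1)]),(1900930,[(1126,1),(676,1)]),(17759464,[(1301,1),(169,2),(41,3),(8,1)]),(8785262,[(981,1),(589,1),(178,1),(41,1),(8,1)]),(461361,[(1399,1),(184,1),(16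9,1),(48,1)]),(1268147,[(981,1),(580,1),(169,1),(55,1),(8,2)]),(1599966,[(981,1),(708,1),(41,2)]),(1287604,[(1126,1),(659,1)]),(1526717,[(1126,1),(655,1)]),(1367580,[(981,1),(603,1),(169,1),(44,1)]),(4605020,[(1612,1),(169,1)]),(4362131,[(981,1),(537,1),(169,1),(46,1),(42,1)]),(2523271,[(1399,1),(169,2),(41,1),(8,3)]),(5161012,[(1342,1),(192,1),(184,1),(41,2)]),(11655981,[(1444,1),(169,2)]),(7274770,[(981,1),(537,1),(195,1),(44,2)]),(92584054,[(537,3),(169,1)]),(4454720,[(1244,1),(537,1),(7,3)])]⟩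
def D77 : List Lev := d77 :: D76
theorem c77 : checkLev mm PP QQ bb d77 D76 = true := by decide +kernel
theorem g77 : Good mm PP QQ bb D77 := ⟨c77, g76⟩

def d78 : Lev := ⟨1717, 14898752, 1832, 6, [(6445419,[(981,1),(795,1)]),(4499435,[(1457,1),(169,2),(7,1)]),(3156750,[(981,1),(537,1),(180,1),(41,2),(7,3)]),(8928563,[(981,1),(576,1),(169,1),(9,2)]),(2295679,[(981,1),(569,1),(169,1),(41,2)]),(1275622,[(981,1),(593,1),(169,1),(1,2)]),(414375,[(1342,1),(246,1),(169,1),(41,1),(1,4)]),(2918220,[(1139,1),(537,1),(41,2),(8,2)]),(4356940,[(1623,1),(178,1),(1,1)]),(9489313,[(1178,1),(576,1),(41,1),(1,7)]),(1995720,[(981,1),(838,1)]),(6760765,[(1661,1),(41,3)]),(2636779,[(981,1),(821,1)]),(17031757,[(1399,1),(41,10)]),(1675980,[(981,1),(644,1),(207,1)]),(27243819,[(1342,1),(169,2),(41,3),(7,4)]),(5704686,[(1199,1),(537,1),(41,1),(8,3)]),(3063701,[(981,1),(770,1),(7,3)]),(3708639,[(981,1),(537,1),(227,1)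,(41,1),(8,2)]),(1730103,[(981,1),(578,1),(178,1),(41,1),(7,3)]),(1433835,[(981,1),(563,1),(169,1),(41,2)]),(1577976,[(981,1),(663,1),(169,1),(8,2)]),(229963,[(1301,1),(182,1),(169,1),(41,3)]),(6225125,[(1431,1),(169,2)]),(5829688,[(1354,1),(169,2),(41,2),(7,1),(1,1)]),(88722798,[(981,1),(576,1),(169,1),(7,2)]),(2060051,[(981,1),(727,1),(41,2),(8,1),(1,4)]),(670217,[(1342,1),(222,2),(8,2)]),(5195302,[(1472,1),(169,2)]),(222581054,[(1126,1),(537,1),(169,1)]),(69098370,[(981,1),(537,1),(169,1),(41,1),(7,2),(1,3)]),(25781676,[(981,1),(653,1),(195,1)]),(155087,[(981,1),(580,1),(169,1),(44,2)]),(1766466,[(1553,1),(195,1),(41,2)]),(7692308,[(981,1),(650,1),(169,1),(8,4)]),(2616921,[(1150,1),(576,1),(7,2)]),(6753112,[(981,1),(576,1),(171,1),(7,2)]),(1302428,[(981,1),(618,1),(169,1)]),(4079383,[(1546,1),(169,1),(41,1),(8,2)]),(1244234,[(981,1),(691,1),(48,1),(41,2)]),(565453,[(644,2),(537,1),(7,1)]),(89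91645,[(981,1),(640,1),(169,1),(41,1)]),(4590941,[(1499,1),(178,1),(41,3),(1,2)]),(7969925,[(1388,1),(169,2),(41,1)]),(63808623,[(981,1),(537,1),(169,1),(42,2)]),(667506,[(981,1),(537,1),(169,1),(48,3)]),(2457192,[(981,1),(537,1),(44,7)]),(6077828,[(981,1),(537,1),(169,1),(41,3)]),(877942,[(1342,1),(203,2),(41,1),(8,1)]),(532450,[(981,1),(667,1),(169,1)]),(1175182,[(1342,1),(178,2),(41,3)]),(3082849,[(1553,1),(178,1),(42,1)]),(119076996,[(981,1),(537,1),(178,1),(41,2),(7,3)]),(1960729,[(1139,1),(636,1)]),(1463060,[(702,1),(537,2)]),(6702168,[(981,1),(576,1),(192,1),(41,2)]),(19841751,[(981,1),(576,1),(169,1),(41,1),(1,35)]),(1494767,[(981,1),(669,1),(182,1)]),(1639980,[(1150,1),(591,1)]),(5096332,[(1518,1),(169,1),(41,2),(8,4)]),(2624799,[(981,1),(789,1)]),(1900930,[(981,1),(676,1),(169,1)]),(19099145,[(1301,1),(169,2),(41,3),(8,1)]),(8785262,[(981,1),(589,1),(178,1),(41,1),(8,1)]),(5622372,[(98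1,1),(667,1),(184,1)]),(390010,[(1399,1),(169,2),(44,2)]),(1599966,[(981,1),(708,1),(41,2)]),(1287604,[(981,1),(659,1),(169,1),(7,3)]),(1526717,[(981,1),(655,1),(169,1),(7,3)]),(1367580,[(981,1),(603,1),(169,1),(44,1)]),(4605020,[(1612,1),(169,1)]),(4362131,[(981,1),(537,1),(169,1),(46,1),(42,1)]),(6209629,[(1521,1),(169,1),(41,3)]),(1268147,[(981,1),(580,1),(169,1),(55,1),(44,1)]),(11655981,[(1444,1),(169,2)]),(1800990,[(1518,1),(227,1),(44,1),(41,1)]),(78117708,[(537,3),(169,1)]),(4454720,[(1244,1),(537,1),(7,3)]),(14898753,[(1717,1)])]⟩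
def D78 : List Lev := d78 :: D77
theorem c78 : checkLev mm PP QQ bb d78 D77 = true := by decide +kernel
theorem g78 : Good mm PP QQ bb D78 := ⟨c78, g77⟩

def d79 : Lev := ⟨1729, 6443035, 1838, 6, [(6445419,[(981,1),(795,1)]),(4499435,[(1457,1),(169,2),(7,1)]),(3156750,[(981,1),(537,1),(180,1),(41,2),(7,3)]),(8928563,[(981,1),(576,1),(169,1),(9,2)]),(2295679,[(981,1),(569,1),(169,1),(41,2)]),(1275622,[(593,1),(576,2),(42,2),(7,1)]),(414375,[(1399,1),(246,1),(169,1),(8,3)]),(670217,[(1388,1),(222,2)]),(4356940,[(1623,1),(178,1),(1,1)]),(9489313,[(1178,1),(576,1),(41,1),(1,7)]),(1995720,[(981,1),(838,1)]),(6760765,[(1661,1),(169,1),(7,1)]),(2636779,[(981,1),(821,1)]),(827830,[(1139,1),(636,1),(42,1),(7,3)]),(4673938,[(1518,1),(178,1),(44,3)]),(30381532,[(1342,1),(169,2),(41,3),(7,4)]),(5704686,[(1199,1),(537,1),(41,1),(8,3)]),(3063701,[(981,1),(770,1),(7,3)]),(5509629,[(981,1),(537,1),(227,1),(41,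1),(8,2)]),(1730103,[(981,1),(578,1),(178,1),(41,1),(7,3)]),(1433835,[(981,1),(563,1),(169,1),(41,2)]),(1577976,[(981,1),(663,1),(169,1),(8,2)]),(1132899,[(981,1),(636,1),(182,1),(8,4),(7,1)]),(6225125,[(1431,1),(169,2)]),(4757614,[(1354,1),(169,2),(41,2),(7,1),(1,1)]),(71464420,[(981,1),(576,1),(169,1),(7,2)]),(2060051,[(981,1),(727,1),(41,2),(8,1),(1,4)]),(2806886,[(1139,1),(644,1),(44,1),(8,1)]),(5195302,[(1472,1),(169,2)]),(222581054,[(1126,1),(537,1),(169,1)]),(2099723,[(1518,1),(178,1),(44,1),(8,12)]),(25781676,[(981,1),(653,1),(195,1)]),(58966,[(580,3),(7,14)]),(1766466,[(1553,1),(195,1),(41,2)]),(7692308,[(981,1),(650,1),(169,1),(8,4)]),(2616921,[(1150,1),(576,1),(7,2)]),(6753112,[(981,1),(576,1),(171,1),(7,2)]),(1302428,[(981,1),(618,1),(169,1)]),(4079383,[(1546,1),(169,1),(41,1),(8,2)]),(1244234,[(1139,1),(691,1),(7,1)]),(1494767,[(981,1),(669,1),(178,1),(8,1)]),(8991645,[(981,1),(640,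1),(169,1),(41,1)]),(4590941,[(1499,1),(169,2)]),(7299708,[(1388,1),(169,2),(41,1)]),(51712543,[(981,1),(537,1),(169,1),(42,2)]),(1082250,[(981,1),(537,1),(169,1),(48,3)]),(234085,[(1354,1),(182,2),(44,2),(8,4)]),(137875946,[(981,1),(537,1),(169,1),(41,3)]),(877942,[(1399,1),(203,2),(8,4)]),(532450,[(981,1),(667,1),(169,1)]),(19329108,[(1301,1),(537,1)]),(3082849,[(1553,1),(178,1),(42,1)]),(84244637,[(981,1),(537,1),(178,1),(41,2),(7,3)]),(16129451,[(1399,1),(178,2),(42,1),(41,1)]),(1463060,[(702,1),(537,2)]),(6702168,[(981,1),(576,1),(192,1),(41,2)]),(26177688,[(981,1),(576,1),(169,1),(41,1),(1,35)]),(14396363,[(1717,1),(7,17)]),(1639980,[(1150,1),(591,1)]),(837990,[(1354,1),(207,2),(44,1),(8,3)]),(2624799,[(981,1),(789,1)]),(1900930,[(981,1),(676,1),(169,1)]),(2156327,[(576,3),(42,2),(7,3)]),(8785262,[(981,1),(589,1),(178,1),(41,1),(8,1)]),(5622372,[(981,1),(667,1),(184,1)]),(1246336,[(981,1),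(580,1),(178,1),(44,2),(8,1)]),(1599966,[(981,1),(708,1),(41,2)]),(1287604,[(981,1),(659,1),(169,1),(7,3)]),(1526717,[(981,1),(655,1),(169,1),(7,3)]),(455860,[(603,3),(8,1),(7,3)]),(4605020,[(1612,1),(169,1)]),(4362131,[(981,1),(537,1),(169,1),(46,1),(42,1)]),(6209629,[(1521,1),(169,1),(41,3)]),(634074,[(576,3),(55,2)]),(11655981,[(1444,1),(169,2)]),(123662,[(1518,1),(182,1),(42,3)]),(67659280,[(537,3),(169,1)]),(4454720,[(1244,1),(537,1),(7,3)]),(502390,[(1717,1)]),(6443036,[(1729,1)])]⟩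
def D79 : List Lev := d79 :: D78
theorem c79 : checkLev mm PP QQ bb d79 D78 = true := by decide +kernel
theorem g79 : Good mm PP QQ bb D79 := ⟨c79, g78⟩

def d80 : Lev := ⟨1806, 10127177, 1879, 6, [(6445419,[(981,1),(795,1)]),(3810898,[(1457,1),(169,2),(7,1)]),(3156750,[(981,1),(537,1),(180,1),(41,2),(7,3)]),(8274029,[(981,1),(576,1),(169,1),(9,2)]),(2295679,[(981,1),(569,1),(169,1),(41,2)]),(1275622,[(593,1),(576,2),(42,2),(7,1)]),(207188,[(1354,1),(246,2)]),(670217,[(1388,1),(222,2)]),(4356940,[(1623,1),(178,1),(1,1)]),(9489313,[(1178,1),(576,1),(41,1),(1,7)]),(1995720,[(981,1),(838,1)]),(6760765,[(1661,1),(169,1),(7,1)]),(2636779,[(981,1),(821,1)]),(1909986,[(1139,1),(636,1),(42,1),(7,3)]),(19949170,[(981,1),(537,1),(169,2),(7,3)]),(877942,[(1354,1),(203,2)]),(6897322,[(1518,1),(178,2)]),(3063701,[(981,1),(770,1),(7,3)]),(715123,[(1388,1),(227,2)]),(1730103,[(981,1),(578,1),(178,1),(41,1),(7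,3)]),(1433835,[(981,1),(563,1),(169,1),(41,2)]),(1577976,[(663,1),(589,2),(7,5)]),(1403443,[(644,2),(589,1)]),(6225125,[(1431,1),(169,2)]),(4744559,[(1354,1),(169,3),(7,2)]),(159849,[(1717,1),(42,3)]),(2060051,[(981,1),(727,1),(169,1)]),(993811,[(650,2),(576,1)]),(5195302,[(1472,1),(169,2)]),(222581054,[(1126,1),(537,1),(169,1)]),(25372,[(636,2),(589,1),(7,2)]),(25781676,[(981,1),(653,1),(195,1)]),(30381532,[(1342,1),(537,1)]),(1766466,[(1553,1),(195,1),(41,2)]),(298906,[(981,1),(603,1),(207,1),(44,2)]),(2616921,[(1150,1),(576,1),(7,2)]),(6753112,[(981,1),(576,1),(171,1),(7,2)]),(1302428,[(981,1),(618,1),(169,1)]),(4079383,[(1546,1),(227,1),(42,2),(7,3)]),(1244234,[(1139,1),(691,1),(7,1)]),(1494767,[(981,1),(669,1),(178,1),(8,1)]),(8991645,[(981,1),(640,1),(169,1),(41,1)]),(4590941,[(1499,1),(169,2)]),(6584585,[(1388,1),(169,2),(41,1)]),(22095435,[(981,1),(537,1),(169,1),(42,2)]),(1082250,[(981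,1),(537,1),(169,1),(48,3)]),(1724730,[(1139,1),(537,1),(182,1),(7,3)]),(181295375,[(981,1),(537,1),(169,1),(41,3)]),(6443036,[(1729,1),(44,3)]),(532450,[(981,1),(667,1),(169,1)]),(19329108,[(1301,1),(537,1)]),(3082849,[(1553,1),(178,1),(42,1)]),(84670620,[(981,1),(537,1),(178,1),(41,2),(7,3)]),(17421766,[(1399,1),(178,2),(42,1),(41,1)]),(5704686,[(1199,1),(650,1),(7,4)]),(6702168,[(981,1),(576,1),(192,1),(41,2)]),(26549054,[(981,1),(576,1),(169,1),(41,1),(1,35)]),(14666178,[(1717,1),(7,17)]),(1639980,[(1150,1),(591,1)]),(61752555,[(981,1),(537,1),(169,2),(8,2),(7,1)]),(2624799,[(981,1),(789,1)]),(1900930,[(981,1),(676,1),(169,1)]),(25978124,[(576,3),(42,2),(7,3)]),(1400166,[(589,3),(44,2),(7,3)]),(5622372,[(981,1),(667,1),(184,1)]),(474412,[(580,3),(55,1),(42,2)]),(1599966,[(981,1),(708,1),(169,1),(7,3)]),(1287604,[(981,1),(659,1),(169,1),(7,3)]),(1526717,[(981,1),(655,1),(169,1),(7,3)]),(72727,[(1717,1),(9,18)]),(4605020,[(1612,1),(169,1)]),(4362131,[(981,1),(537,1),(169,1),(46,1),(42,1)]),(6209629,[(1521,1),(169,1),(41,3)]),(396868,[(576,3),(55,2)]),(11655981,[(1444,1),(169,2)]),(688537,[(1457,1),(207,2)]),(29693994,[(537,3),(169,1)]),(4454720,[(1244,1),(537,1),(7,3)]),(356225,[(603,3)]),(1463060,[(981,1),(702,1),(169,1),(7,3)]),(10127178,[(1806,1)])]⟩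
def D80 : List Lev := d80 :: D79
theorem c80 : checkLev mm PP QQ bb d80 D79 = true := by decide +kernel
theorem g80 : Good mm PP QQ bb D80 := ⟨c80, g79⟩

def d81 : Lev := ⟨1893, 4599870, 1925, 6, [(6445419,[(981,1),(795,1)]),(3810898,[(1457,1),(169,2),(7,1)]),(3156750,[(981,1),(537,1),(180,1),(41,2),(7,3)]),(5829688,[(1354,1),(537,1)]),(2295679,[(981,1),(569,1),(169,1),(41,2)]),(1275622,[(593,1),(576,2),(42,2),(7,1)]),(207188,[(1431,1),(246,2),(1,2)]),(670217,[(1431,1),(222,2),(46,1),(1,4)]),(4356940,[(1623,1),(178,1),(1,1)]),(9489313,[(1178,1),(576,1),(41,1),(1,7)]),(1995720,[(981,1),(838,1)]),(6760765,[(1661,1),(169,1),(7,1)]),(2636779,[(981,1),(821,1)]),(1909986,[(1139,1),(636,1),(42,1),(7,3)]),(70864109,[(981,1),(537,1),(169,2),(7,3)]),(877942,[(1431,1),(203,2),(46,1),(1,42)]),(6897322,[(1518,1),(178,2)]),(3063701,[(981,1),(770,1),(7,3)]),(281398,[(1431,1),(46,10),(1,34)]),(1730103,[(981,1)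,(578,1),(178,1),(41,1),(7,3)]),(1433835,[(981,1),(563,1),(169,1),(41,2)]),(1577976,[(663,1),(589,2),(7,5)]),(1403443,[(644,2),(589,1)]),(2737578,[(1431,1),(169,2)]),(1471364,[(1546,1),(171,2),(1,37)]),(9687320,[(1717,1),(42,3)]),(2060051,[(981,1),(727,1),(169,1)]),(993811,[(650,2),(576,1)]),(5195302,[(1472,1),(169,2)]),(222581054,[(1126,1),(537,1),(169,1)]),(25372,[(636,2),(589,1),(7,2)]),(25781676,[(981,1),(653,1),(195,1)]),(30381532,[(1342,1),(537,1)]),(1766466,[(1553,1),(195,1),(41,2)]),(298906,[(981,1),(603,1),(207,1),(44,2)]),(2616921,[(1150,1),(576,1),(7,2)]),(3810384,[(981,1),(576,1),(171,1),(7,2)]),(1302428,[(981,1),(618,1),(169,1)]),(2608019,[(1546,1),(227,1),(42,2),(7,3)]),(1244234,[(1139,1),(691,1),(7,1)]),(1494767,[(981,1),(669,1),(178,1),(8,1)]),(8991645,[(981,1),(640,1),(169,1),(41,1)]),(4590941,[(1499,1),(169,2)]),(7969925,[(1388,1),(537,1)]),(1450805,[(1431,1),(227,2),(1,40)]),(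1082250,[(981,1),(537,1),(169,1),(48,3)]),(1724730,[(1139,1),(537,1),(182,1),(7,3)]),(190523336,[(981,1),(537,1),(169,1),(41,3)]),(6443036,[(1729,1),(44,3)]),(532450,[(981,1),(667,1),(169,1)]),(19329108,[(1301,1),(537,1)]),(3082849,[(1553,1),(178,1),(42,1)]),(87409178,[(981,1),(537,1),(178,1),(41,2),(7,3)]),(16052487,[(1399,1),(178,2),(42,1),(41,1)]),(5704686,[(1199,1),(650,1),(7,4)]),(6702168,[(981,1),(576,1),(192,1),(41,2)]),(1341917,[(981,1),(576,1),(169,1),(41,1),(1,35)]),(4219371,[(1717,1),(7,17)]),(1639980,[(1150,1),(591,1)]),(61752555,[(981,1),(537,1),(169,2),(8,2),(7,1)]),(2624799,[(981,1),(789,1)]),(1900930,[(981,1),(676,1),(169,1)]),(38119422,[(576,3),(42,2),(7,3)]),(1400166,[(589,3),(44,2),(7,3)]),(5622372,[(981,1),(667,1),(184,1)]),(474412,[(580,3),(55,1),(42,2)]),(1599966,[(981,1),(708,1),(169,1),(7,3)]),(1287604,[(981,1),(659,1),(169,1),(7,3)]),(1526717,[(981,1),(655,1),(169,1),(7,3)]),(992063,[(1717,1),(9,18)]),(4605020,[(1612,1),(169,1)]),(1369280,[(1399,1),(1,526)]),(6209629,[(1521,1),(169,1),(41,3)]),(396868,[(576,3),(55,2)]),(11655981,[(1444,1),(169,2)]),(688537,[(1457,1),(207,2)]),(12952826,[(537,3),(169,1)]),(4454720,[(1244,1),(537,1),(7,3)]),(356225,[(603,3)]),(1463060,[(981,1),(702,1),(169,1),(7,3)]),(10127178,[(1806,1)]),(4599871,[(1893,1)])]⟩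
def D81 : List Lev := d81 :: D80
theorem c81 : checkLev mm PP QQ bb d81 D80 = true := by decide +kernel
theorem g81 : Good mm PP QQ bb D81 := ⟨c81, g80⟩

def d82 : Lev := ⟨1913, 5807255, 1936, 6, [(6445419,[(981,1),(795,1)]),(1244563,[(1457,1),(169,2),(7,1)]),(3156750,[(981,1),(537,1),(180,1),(41,2),(7,3)]),(5829688,[(1354,1),(537,1)]),(2295679,[(981,1),(569,1),(169,1),(41,2)]),(1275622,[(593,1),(576,2),(42,2),(7,1)]),(207188,[(1444,1),(246,2)]),(670217,[(1444,1),(222,2),(42,1),(1,6)]),(4356940,[(1623,1),(178,1),(1,1)]),(9489313,[(1178,1),(576,1),(41,1),(1,7)]),(1995720,[(981,1),(838,1)]),(6760765,[(1661,1),(169,1),(7,1)]),(2636779,[(981,1),(821,1)]),(1909986,[(1139,1),(636,1),(42,1),(7,3)]),(99838642,[(981,1),(537,1),(169,2),(7,3)]),(6753112,[(1717,1),(171,1),(41,1),(1,7)]),(6897322,[(1518,1),(178,2)]),(546660,[(591,3),(42,3),(9,4),(1,1)]),(260625,[(1444,1),(46,10),(1,32)]),(1730103,[(981,1),(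578,1),(178,1),(41,1),(7,3)]),(240635,[(981,1),(563,1),(169,1),(41,2)]),(1577976,[(663,1),(589,2),(7,5)]),(1403443,[(644,2),(589,1)]),(384848,[(1457,1),(44,10),(9,4),(1,3)]),(6747270,[(1444,1),(178,2),(42,3),(1,10)]),(2032036,[(1457,1),(44,5),(42,6),(7,1)]),(2060051,[(981,1),(727,1),(169,1)]),(993811,[(650,2),(576,1)]),(5195302,[(1472,1),(169,2)]),(222581054,[(1126,1),(537,1),(169,1)]),(25372,[(636,2),(589,1),(7,2)]),(17172903,[(981,1),(653,1),(195,1)]),(30381532,[(1342,1),(537,1)]),(4849314,[(1553,1),(195,1),(41,2)]),(8110061,[(1717,1),(178,1),(41,1)]),(3063701,[(1150,1),(770,1),(9,1),(1,7)]),(605802,[(537,3),(195,1),(44,2),(7,6)]),(434143,[(618,3),(1,82)]),(4079383,[(1546,1),(178,1),(41,5),(1,7)]),(1244234,[(1139,1),(691,1),(7,1)]),(1494767,[(981,1),(669,1),(178,1),(8,1)]),(8991645,[(981,1),(640,1),(169,1),(41,1)]),(4590941,[(1499,1),(169,2)]),(7969925,[(1388,1),(537,1)]),(1876873,[(1444,1),(2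27,2),(1,38)]),(1082250,[(981,1),(537,1),(169,1),(48,3)]),(1724730,[(1139,1),(537,1),(182,1),(7,3)]),(183284426,[(981,1),(537,1),(169,1),(41,3)]),(1522913,[(1729,1),(44,3)]),(532450,[(981,1),(667,1),(169,1)]),(19329108,[(1301,1),(537,1)]),(2881154,[(653,2),(576,1),(41,1),(1,13)]),(85292861,[(981,1),(537,1),(178,1),(41,2),(7,3)]),(1193201,[(1150,1),(563,1),(178,1),(42,1),(1,3)]),(5704686,[(1199,1),(650,1),(7,4)]),(6702168,[(981,1),(576,1),(192,1),(41,2)]),(17421766,[(1399,1),(537,1)]),(137927,[(1444,1),(44,1),(7,64)]),(1423234,[(653,2),(580,1),(41,1),(1,9)]),(61752555,[(981,1),(537,1),(169,2),(8,2),(7,1)]),(2624799,[(981,1),(789,1)]),(1900930,[(981,1),(676,1),(169,1)]),(39511572,[(576,3),(42,2),(7,3)]),(1400166,[(589,3),(44,2),(7,3)]),(5622372,[(981,1),(667,1),(184,1)]),(5213478,[(1431,1),(178,2),(42,3),(9,2),(1,5)]),(1599966,[(981,1),(708,1),(169,1),(7,3)]),(1287604,[(981,1),(659,1),(169,1),(7,3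)]),(1526717,[(981,1),(655,1),(169,1),(7,3)]),(35581,[(1717,1),(9,18)]),(4605020,[(1612,1),(169,1)]),(1011647,[(1431,1),(1,505)]),(6209629,[(1521,1),(169,1),(41,3)]),(634074,[(576,3),(55,2)]),(4920123,[(1729,1),(195,1),(7,1),(1,5)]),(837990,[(1457,1),(207,2)]),(1755883,[(1444,1),(227,1),(203,1),(46,1),(1,16)]),(4454720,[(1244,1),(537,1),(7,3)]),(455860,[(603,3)]),(1463060,[(981,1),(702,1),(169,1),(7,3)]),(10127178,[(1806,1)]),(4599871,[(1893,1)]),(5807256,[(1913,1)])]⟩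
def D82 : List Lev := d82 :: D81
theorem c82 : checkLev mm PP QQ bb d82 D81 = true := by decide +kernel
theorem g82 : Good mm PP QQ bb D82 := ⟨c82, g81⟩

def d83 : Lev := ⟨1962, 60963373, 1962, 6, [(84011885,[(537,3),(169,2),(8,1),(1,5)]),(14314062,[(169,11),(41,2),(7,3)]),(1302428,[(1126,1),(618,1),(169,1),(7,7)]),(425208,[(593,3),(169,1),(7,2)]),(6209629,[(1521,1),(195,2),(44,1),(7,1)]),(47264,[(246,7),(169,1),(55,1),(8,2)]),(576701,[(578,3),(169,1),(8,3),(7,5)]),(38725163,[(1126,1),(576,1),(178,1),(41,2)]),(1622275,[(576,3),(44,5),(7,2)]),(6443036,[(1729,1),(178,1),(41,1),(7,2)]),(6897322,[(1518,1),(169,2),(41,2),(7,3),(1,3)]),(3156750,[(537,3),(180,1),(169,1),(1,2)]),(4605020,[(1612,1),(178,1),(171,1),(1,1)]),(2636779,[(1139,1),(821,1),(1,2)]),(550902,[(676,1),(580,1),(537,1),(169,1)]),(3063701,[(1178,1),(770,1),(7,2)]),(1639980,[(795,1),(591,1),(569,1),(7,1)]),(463999,[(1623,1),(227,1),(55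,2),(1,2)]),(290778,[(580,3),(222,1)]),(9153,[(55,32),(48,4),(9,1),(1,1)]),(5195302,[(1472,1),(169,2),(41,3),(7,4),(1,1)]),(1526717,[(1244,1),(655,1),(41,1),(8,1),(7,2)]),(262415,[(537,2),(222,4)]),(455860,[(603,3),(44,3),(7,3)]),(2305284,[(1623,1),(169,2),(1,1)]),(5622372,[(576,3),(184,1),(8,1),(7,6)]),(2242170,[(1139,1),(537,1),(169,1),(41,2),(7,5)]),(877942,[(1444,1),(203,2),(41,2),(8,2),(7,2)]),(3402117,[(576,3),(192,1),(7,6)]),(1494767,[(669,1),(537,2),(178,1),(41,1)]),(622117,[(691,2),(537,1),(41,1),(1,2)]),(6225125,[(1431,1),(169,2),(41,3),(7,10)]),(30381532,[(1342,1),(537,1),(41,2),(1,1)]),(90557374,[(537,3),(178,1),(169,1),(1,4)]),(64627485,[(1126,1),(576,1),(169,1),(42,2),(7,1)]),(1433835,[(1399,1),(563,1)]),(1577976,[(1244,1),(663,1),(41,1),(7,2)]),(5769914,[(1178,1),(537,1),(41,6),(1,1)]),(83528,[(1623,1),(246,1),(46,2),(1,1)]),(6760765,[(1661,1),(195,1),(44,1),(41,1),(7,3)]),(653577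,[(636,3),(46,1),(7,1),(1,1)]),(2997215,[(640,3),(7,6)]),(1504130,[(1623,1),(227,1),(48,2),(9,1),(7,1)]),(1049442,[(1499,1),(169,1),(41,7),(7,1)]),(1995720,[(838,1),(537,2),(41,1),(7,1),(1,2)]),(2624799,[(789,1),(576,2),(7,3)]),(731530,[(702,2),(537,1),(7,3)]),(1350028,[(1244,1),(676,1),(7,6)]),(5829688,[(1354,1),(537,1),(7,10),(1,1)]),(818402,[(576,3),(207,1),(9,3)]),(19329108,[(1301,1),(537,1),(41,3),(1,1)]),(4256901,[(1150,1),(795,1),(9,1),(8,1)]),(4599871,[(1893,1),(41,1),(7,4)]),(56886,[(576,1),(195,7),(7,3)]),(2564103,[(650,3),(7,1),(1,5)]),(5807256,[(1913,1),(42,1),(7,1)]),(100940,[(1444,1),(207,2),(48,2),(8,1)]),(1030026,[(727,2),(169,3),(1,1)]),(1724730,[(537,3),(182,1),(169,1)]),(14898753,[(1717,1),(169,1),(41,1),(7,5)]),(4499435,[(1457,1),(169,2),(41,4),(1,3)]),(643802,[(659,2),(644,1)]),(10677100,[(1444,1),(169,2),(41,4),(8,2)]),(3541500,[(1499,1),(227,1),(169,1),(46,1),(7,3)]),(8785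262,[(653,1),(589,1),(537,1),(169,1),(7,2)]),(2148092,[(537,3),(178,1),(171,1),(1,2)]),(799983,[(708,2),(537,1),(7,1),(1,2)]),(721028,[(644,3),(7,4),(1,2)]),(277904,[(1806,1),(44,1),(8,14)]),(251365620,[(981,2)]),(5665472,[(653,3),(1,3)]),(6154822,[(1126,1),(667,1),(169,1)]),(3927053,[(1806,1),(9,1),(7,21)]),(4079383,[(1546,1),(169,1),(41,6),(1,1)]),(5704686,[(1199,1),(537,1),(169,1),(41,1),(9,1),(7,1)]),(7969925,[(1388,1),(195,1),(169,2),(41,1)]),(3300051,[(1553,1),(192,1),(169,1),(41,1),(7,1)]),(1549264,[(1553,1),(169,2),(7,10),(1,1)]),(548539,[(795,1),(537,2),(41,2),(7,1),(1,4)]),(111771159,[(1126,1),(537,1),(169,1),(41,3),(7,1)]),(5922222,[(1806,1),(41,3),(7,4),(1,5)]),(655699,[(1178,1),(569,1),(207,1),(8,1)]),(15987931,[(1399,1),(169,3),(41,1),(7,2),(1,1)]),(60963374,[(1962,1)])]⟩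
def D83 : List Lev := d83 :: D82
theorem c83 : checkLev mm PP QQ bb d83 D82 = true := by decide +kernel
theorem g83 : Good mm PP QQ bb D83 := ⟨c83, g82⟩

end MP_a18a3c_h2
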