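import Mathlib

/-!
Deterministic online makespan scheduling on `m` identical machines: definitions.
-/

namespace MP_a18a3c_h2

/-- A deterministic online algorithm for `m` machines: `A h p` is the machine to which the
algorithm assigns a new job of size `p` when the jobs that arrived before it are the list `h`
(their sizes, the most recent job first).  The number of future jobs and their sizes are not an
input; the earlier decisions of the algorithm are determined by `h`. -/
abbrev Alg (m : ℕ) : Type := List ℝ → ℝ → Fin m

/-- `load A h i` is the load of machine `i` after the algorithm `A` has assigned all the jobs of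
`h` (a list of sizes, the most recent job first). -/
noncomputable def load {m : ℕ} (A : Alg m) : List ℝ → Fin m → ℝ
  | [], _ => 0
  | p :: h, i => load A h i + if A h p = i then p else 0

/-- The makespan of the schedule that `A` produces on the instance `h`. -/
noncomputable def makespan {m : ℕ} (A : Alg m) (h : List ℝ) : ℝ := ⨆ i : Fin m, load A h i

/-- The load of machine `i` if job number `j` of the instance `h` is put on machine `f j`. -/
noncomputable def offLoad {m : ℕ} (h : List ℝ) (f : Fin h.length → Fin m) (i : Fin m) : ℝ :=
  ∑ j : Fin h.length, if f j = i then h.get j else 0

/-- The minimum makespan over all assignments of the jobs of `h` to the `m` machines. -/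
noncomputable def opt (m : ℕ) (h : List ℝ) : ℝ :=
  ⨅ f : Fin h.length → Fin m, ⨆ i : Fin m, offLoad h f i

/-- `A` is `c`-competitive (no additive constant; all job sizes are nonnegative reals). -/
def IsCompetitive {m : ℕ} (A : Alg m) (c : ℝ) : Prop :=
  ∀ h : List ℝ, (∀ p ∈ h, 0 ≤ p) → makespan A h ≤ c * opt m h

/-- The number `c_m`: the infimum of all `c` such that some deterministic online algorithm for
`m` machines is `c`-competitive. -/
noncomputable def cRatio (m : ℕ) : ℝ := sInf {c : ℝ | ∃ A : Alg m, IsCompetitive A c}

/-- The number `c^* = sup_{m ≥ 1} c_m`. -/
noncomputable def cStar : ℝ := ⨆ m : {m : ℕ // 1 ≤ m}, cRatio m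

end MP_a18a3c_h2
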