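import Pool.Agent.W_MP_a18a3c_h2.Data2

namespace MP_a18a3c_h2

theorem final_total : total D83 = 6000168869 := by decide +kernel

theorem final_phase : phase D83 ≤ 6 := by decide +kernel

/-- The lower bound for every large number of machines. -/
theorem bound (m : ℕ) (h : 10 ^ 14 ≤ m) : ((PP : ℕ) : ℝ) / ((QQ : ℕ) : ℝ) ≤ cRatio m := by
  have h0 : 0 < m := lt_of_lt_of_le (by norm_num) h
  have hk : m / mm * mm ≤ m := Nat.div_mul_le_self m mm
  refine le_cRatio_of_good (k := m / mm) h0 hk (by norm_num) D83 g83 final_phase ?_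
  rw [final_total]
  have e1 : mm = 1000000000 := rfl
  have e2 : (10 : ℕ) ^ 14 = 100000000000000 := by norm_num
  rw [e2] at h
  rw [e1] at hk ⊢
  omega

end MP_a18a3c_h2
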