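import Pool.Agent.W_MP_a18a3c_h2.Basic

/-!
The greedy rule is `2`-competitive, and no algorithm is better than `1`-competitive.  This only
serves to show that the infimum `c_m` and the supremum `c^*` are taken over nonempty bounded sets.
-/

namespace MP_a18a3c_h2

variable {m : ℕ}

/-- a machine of minimum load -/
noncomputable def argmin (hm : 0 < m) (l : Fin m → ℝ) : Fin m :=
  haveI : Nonempty (Fin m) := ⟨⟨0, hm⟩⟩
  (Finite.exists_min l).choose

lemma argmin_spec (hm : 0 < m) (l : Fin m → ℝ) (i : Fin m) : l (argmin hm l) ≤ l i := by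
  have : Nonempty (Fin m) := ⟨⟨0, hm⟩⟩
  exact (Finite.exists_min l).choose_spec i

/-- the loads of the greedy schedule -/
noncomputable def gload (hm : 0 < m) : List ℝ → Fin m → ℝ
  | [], _ => 0
  | p :: h, i => gload hm h i + if argmin hm (gload hm h) = i then p else 0

/-- the greedy algorithm -/
noncomputable def greedy (hm : 0 < m) : Alg m := fun h _ => argmin hm (gload hm h)

lemma load_greedy (hm : 0 < m) (h : List ℝ) : load (greedy hm) h = gload hm h := by
  induction h with
  | nil => funext i; rfl
  | cons p h ih =>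
    funext i
    rw [load_cons, ih]
    rfl

lemma sum_load (A : Alg m) (h : List ℝ) : ∑ i, load A h i = h.sum := by
  induction h with
  | nil => simp
  | cons p h ih =>
    simp only [load_cons, Finset.sum_add_distrib, ih, List.sum_cons]
    simp
    ring

lemma greedy_competitive (hm : 0 < m) : IsCompetitive (greedy hm) 2 := by
  have hne : Nonempty (Fin m) := ⟨⟨0, hm⟩⟩
  have hm' : (0 : ℝ) < m := by exact_mod_cast hm
  intro h
  induction h with
  | nil =>
    intro _
    have h0 : (0 : ℝ) ≤ opt m [] := by
      apply le_opt hm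
      intro f
      exact ⟨⟨0, hm⟩, by rw [offLoad_nil]⟩
    unfold makespan
    simp only [load_nil, ciSup_const]
    linarith
  | cons p h ih =>
    intro hpos
    have hp : 0 ≤ p := hpos p (by simp)
    have hh : ∀ q ∈ h, 0 ≤ q := fun q hq => hpos q (by simp [hq])
    have ih' := ih hh
    unfold makespan
    apply ciSup_le
    intro i
    rw [load_cons]
    have hmono := opt_le_opt_cons hm hp h
    have hhead := head_le_opt (p := p) hm hh
    split_ifs with hi
    · have hmin : ∀ j, load (greedy hm) h i ≤ load (greedy hm) h j := by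
        intro j
        rw [load_greedy, ← hi]
        exact argmin_spec hm _ j
      have h1 : (m : ℝ) * load (greedy hm) h i ≤ h.sum := by
        rw [← sum_load (greedy hm) h]
        have := Finset.card_nsmul_le_sum (Finset.univ : Finset (Fin m))
          (fun j => load (greedy hm) h j) (load (greedy hm) h i) (fun j _ => hmin j)
        simpa [nsmul_eq_mul] using this
      have h2 : (p :: h).sum ≤ m * opt m (p :: h) := sum_le_opt hm (p :: h)
      rw [List.sum_cons] at h2
      have h3 : (m : ℝ) * load (greedy hm) h i ≤ m * opt m (p :: h) := by linarith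
      have h4 := le_of_mul_le_mul_left h3 hm'
      linarith
    · have := load_le_makespan (greedy hm) h i
      linarith

lemma one_le_of_competitive (hm : 0 < m) {A : Alg m} {c : ℝ} (hA : IsCompetitive A c) : 1 ≤ c := by
  have h1 := hA [1] (by simp)
  have h2 : (1 : ℝ) ≤ makespan A [1] := by
    refine le_trans ?_ (load_le_makespan A [1] (A [] 1))
    simp [load_cons]
  have h3 : opt m [1] ≤ 1 := by
    apply opt_le_of_assign hm (fun _ => ⟨0, hm⟩)
    intro i
    rw [offLoad_cons, offLoad_nil]
    split_ifs <;> norm_num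
  have h4 : (1 : ℝ) ≤ opt m [1] := head_le_opt hm (by simp)
  have h5 : opt m [1] = 1 := le_antisymm h3 h4
  rw [h5] at h1
  linarith

lemma bdd_set (hm : 0 < m) : BddBelow {c : ℝ | ∃ A : Alg m, IsCompetitive A c} :=
  ⟨1, fun _ ⟨_, hA⟩ => one_le_of_competitive hm hA⟩

lemma nonempty_set (hm : 0 < m) : ({c : ℝ | ∃ A : Alg m, IsCompetitive A c}).Nonempty :=
  ⟨2, greedy hm, greedy_competitive hm⟩

lemma cRatio_le_two (hm : 0 < m) : cRatio m ≤ 2 :=
  csInf_le (bdd_set hm) ⟨greedy hm, greedy_competitive hm⟩

lemma le_cRatio (hm : 0 < m) {v : ℝ} (H : ∀ (A : Alg m) (c : ℝ), IsCompetitive A c → v ≤ c) :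
    v ≤ cRatio m :=
  le_csInf (nonempty_set hm) (fun c ⟨A, hA⟩ => H A c hA)

lemma cRatio_le_cStar (hm : 1 ≤ m) : cRatio m ≤ cStar := by
  unfold cStar
  refine le_ciSup (f := fun k : {k : ℕ // 1 ≤ k} => cRatio (k : ℕ)) ?_ ⟨m, hm⟩
  refine ⟨2, ?_⟩
  rintro _ ⟨k, rfl⟩
  exact cRatio_le_two k.2

end MP_a18a3c_h2
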